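import Pool.Agent.Q89.MS.A14

/-! The maximal inequality on balls of arbitrary radius. -/

open MeasureTheory ComplexConjugate Complex Filter
open scoped ENNReal Real InnerProductSpace NNReal FourierTransform Pointwise

namespace Q89.MS

variable {V : Type*} [NormedAddCommGroup V] [InnerProductSpace ℝ V] [FiniteDimensional ℝ V]
  [MeasurableSpace V] [BorelSpace V]

theorem lint_smul (F : V → ℝ≥0∞) (hF : Measurable F) (ρ : ℝ) (hρ : 0 < ρ) :
    ∫⁻ x, F (ρ⁻¹ • x) = ENNReal.ofReal (ρ ^ Module.finrank ℝ V) * ∫⁻ x, F x := by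
  have h1 : ∫⁻ x, F (ρ⁻¹ • x) = ∫⁻ x, F x ∂(Measure.map (ρ⁻¹ • ·) (volume : Measure V)) := by
    rw [lintegral_map hF (measurable_const_smul ρ⁻¹)]
  rw [h1, Measure.map_addHaar_smul _ (inv_ne_zero hρ.ne'), lintegral_smul_measure, smul_eq_mul]
  congr 2
  rw [inv_pow, inv_inv, abs_of_nonneg (by positivity)]

theorem lint_ball_smul (F : V → ℝ≥0∞) (hF : Measurable F) (ρ : ℝ) (hρ : 0 < ρ) (y : V) :
    ∫⁻ x in Metric.closedBall y ρ, F (ρ⁻¹ • x) =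
      ENNReal.ofReal (ρ ^ Module.finrank ℝ V) * ∫⁻ x in Metric.closedBall (ρ⁻¹ • y) 1, F x := by
  rw [← lintegral_indicator Metric.isClosed_closedBall.measurableSet,
    ← lintegral_indicator Metric.isClosed_closedBall.measurableSet,
    ← lint_smul _ (hF.indicator Metric.isClosed_closedBall.measurableSet) ρ hρ]
  refine lintegral_congr fun x => ?_
  have h1 : x ∈ Metric.closedBall y ρ ↔ ρ⁻¹ • x ∈ Metric.closedBall (ρ⁻¹ • y) 1 := by
    rw [Metric.mem_closedBall, Metric.mem_closedBall, dist_eq_norm, dist_eq_norm, ← smul_sub,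
      norm_smul, Real.norm_of_nonneg (inv_pos.2 hρ).le, inv_mul_le_iff₀ hρ, mul_one]
  by_cases h : x ∈ Metric.closedBall y ρ
  · rw [Set.indicator_of_mem h, Set.indicator_of_mem (h1.1 h)]
  · rw [Set.indicator_of_notMem h, Set.indicator_of_notMem (fun h' => h (h1.2 h'))]

theorem SS_neg (g : V → ℂ) {R : ℝ} (hR : R < 0) (p : V × ℝ) : SS g R p = 0 := by
  unfold SS cB
  rw [Metric.closedBall_eq_empty.2 hR]
  simp

theorem maxS_scale (g : V → ℂ) (ρ : ℝ) (hρ : 0 < ρ) (x : V) (t : ℝ) :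
    maxS g (ρ • x, ρ ^ 2 * t) * ENNReal.ofReal (ρ ^ Module.finrank ℝ V) ≤
      maxS (fun ξ => g (ρ⁻¹ • ξ)) (x, t) := by
  unfold maxS
  rw [ENNReal.iSup_mul]
  refine iSup_le fun R => ?_
  rcases lt_or_ge R 0 with hR | hR
  · rw [SS_neg g hR]
    simp
  · refine le_trans (le_of_eq ?_) (le_iSup (fun R : ℝ => ‖SS (fun ξ => g (ρ⁻¹ • ξ)) R (x, t)‖ₑ)
      (ρ * R))
    rw [SS_scale g ρ hρ R hR, ← ofReal_norm, ← ofReal_norm, norm_smul,
      Real.norm_of_nonneg (by positivity), ENNReal.ofReal_mul (by positivity), mul_comm]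

theorem sq_smul (g : V → ℂ) (hgm : StronglyMeasurable g) (ρ : ℝ) (hρ : 0 < ρ) :
    ∫⁻ ξ, ‖g (ρ⁻¹ • ξ)‖ₑ ^ 2 =
      ENNReal.ofReal (ρ ^ Module.finrank ℝ V) * ∫⁻ ξ, ‖g ξ‖ₑ ^ 2 :=
  lint_smul (fun ξ => ‖g ξ‖ₑ ^ 2) (hgm.measurable.enorm.pow_const 2) ρ hρ

theorem memLp_smul (g : V → ℂ) (hgm : StronglyMeasurable g) (hG : ∫⁻ ξ, ‖g ξ‖ₑ ^ 2 ≠ ⊤)
    (ρ : ℝ) (hρ : 0 < ρ) : MemLp (fun ξ => g (ρ⁻¹ • ξ)) 2 := by
  refine ⟨(hgm.comp_measurable (measurable_const_smul ρ⁻¹)).aestronglyMeasurable, ?_⟩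
  rw [eLpNorm_lt_top_iff_lintegral_rpow_enorm_lt_top (by norm_num) (by norm_num)]
  have h1 := sq_smul g hgm ρ hρ
  simp only [ENNReal.toReal_ofNat, ENNReal.rpow_ofNat]
  rw [h1]
  exact (ENNReal.mul_ne_top ENNReal.ofReal_ne_top hG).lt_top

theorem exists_J (ρ : ℝ) (hρ : 1 ≤ ρ) :
    ∃ J : ℕ, ρ ^ 2 ≤ (2 : ℝ) ^ J ∧ ((J + 1 : ℕ) : ℝ) ≤ 3 * (1 + Real.log ρ) := by
  have hlog : 0 ≤ Real.log ρ := Real.log_nonneg hρ
  have hl2 := Real.log_two_gt_d9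
  have hl2p : 0 < Real.log 2 := by linarith
  have h0 : 0 ≤ 2 * Real.log ρ / Real.log 2 := by positivity
  refine ⟨⌈2 * Real.log ρ / Real.log 2⌉₊, ?_, ?_⟩
  · have h1 := Nat.le_ceil (2 * Real.log ρ / Real.log 2)
    set J := ⌈2 * Real.log ρ / Real.log 2⌉₊
    rw [div_le_iff₀ hl2p] at h1
    have h2 : Real.log (ρ ^ 2) ≤ Real.log ((2 : ℝ) ^ J) := by
      rw [Real.log_pow, Real.log_pow]
      push_cast
      linarith
    exact (Real.log_le_log_iff (by positivity) (by positivity)).1 h2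
  · have h1 := Nat.ceil_lt_add_one h0
    push_cast
    have h2 : 2 * Real.log ρ / Real.log 2 ≤ 3 * Real.log ρ := by
      rw [div_le_iff₀ hl2p]
      nlinarith
    linarith

/-- the maximal inequality on Schrodinger orbits, for Frostman measures in time, on balls of
arbitrary radius -/
theorem maximal_ball (β : ℝ) (hβ : 0 < β) (hβ1 : β ≤ 1) :
    ∃ C : ℝ, ∀ (f : Lp ℂ 2 (volume : Measure V)) (x₀ : V) (ρ : ℝ), 1 ≤ ρ →
      ∀ (a : ℝ) (μ : Measure ℝ), μ (Set.Icc a (a + 1))ᶜ = 0 →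
      (∀ s r : ℝ, 0 < r → μ (Set.Icc s (s + r)) ≤ ENNReal.ofReal (r ^ β)) →
      ∫⁻ t, (∫⁻ x in Metric.closedBall x₀ ρ, maxBallSum (schrodinger t f) x ^ 2) ∂μ ≤
        ENNReal.ofReal (C * (1 + Real.log ρ) ^ 2 * ‖f‖ ^ 2) := by
  set θ : ℝ := 2 ^ (-β / 8) with hθ
  have hθ0 : 0 < θ := by positivity
  have hθ1 : θ < 1 := Real.rpow_lt_one_of_one_lt_of_neg (by norm_num) (by linarith)
  obtain ⟨C, hCf, hC⟩ := HH_int (V := V) β hβ hβ1 θ hθ
  refine ⟨2 * (Real.exp (π * 1 ^ 2) * (C.toReal * 9)), ?_⟩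
  intro f x₀ ρ hρ a μ hμ hF
  have hρ0 : 0 < ρ := by linarith
  have hρ2 : 1 ≤ ρ ^ 2 := one_le_pow₀ hρ
  set d := Module.finrank ℝ V with hd
  set g : V → ℂ := ((𝓕 f : Lp ℂ 2 (volume : Measure V)) : V → ℂ) with hg
  have hgm : StronglyMeasurable g := Lp.stronglyMeasurable _
  have hgL : MemLp g 2 := Lp.memLp _
  have hG : ∫⁻ ξ, ‖g ξ‖ₑ ^ 2 ≠ ⊤ := by
    rw [hg, sq_norm f]; exact ENNReal.ofReal_ne_top
  set h : V → ℂ := fun ξ => g (ρ⁻¹ • ξ) with hh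
  have hhm : StronglyMeasurable h := hgm.comp_measurable (measurable_const_smul ρ⁻¹)
  have hhL : MemLp h 2 := memLp_smul g hgm hG ρ hρ0
  obtain ⟨J, hJ1, hJ2⟩ := exists_J ρ hρ
  set H : V × ℝ → ℝ≥0∞ := HH h θ J with hH
  have hHm : Measurable H := HH_meas h hhm θ J
  -- the scaled measure
  set T : ℝ → ℝ := fun t => (ρ ^ 2)⁻¹ * t with hT
  have hTm : Measurable T := measurable_const_mul _
  set ν : Measure ℝ := (2⁻¹ : ℝ≥0∞) • Measure.map T μ with hν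
  have hmass : μ Set.univ ≤ 1 := by
    have h1 : μ Set.univ ≤ μ (Set.Icc a (a + 1)) + μ (Set.Icc a (a + 1))ᶜ := by
      rw [← Set.union_compl_self (Set.Icc a (a + 1))]
      exact measure_union_le _ _
    rw [hμ, add_zero] at h1
    refine h1.trans ((hF a 1 one_pos).trans (le_of_eq ?_))
    rw [Real.one_rpow, ENNReal.ofReal_one]
  have hν1 : ∀ᵐ t ∂ν, t ∈ Set.Icc ((ρ ^ 2)⁻¹ * a) ((ρ ^ 2)⁻¹ * a + 1) := by
    rw [ae_iff]
    change ν (Set.Icc ((ρ ^ 2)⁻¹ * a) ((ρ ^ 2)⁻¹ * a + 1))ᶜ = 0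
    rw [hν, Measure.smul_apply, Measure.map_apply hTm measurableSet_Icc.compl]
    have h1 : T ⁻¹' (Set.Icc ((ρ ^ 2)⁻¹ * a) ((ρ ^ 2)⁻¹ * a + 1))ᶜ ⊆ (Set.Icc a (a + 1))ᶜ := by
      intro t ht hta
      apply ht
      have hi : 0 < (ρ ^ 2)⁻¹ := by positivity
      have hi1 : (ρ ^ 2)⁻¹ ≤ 1 := inv_le_one_of_one_le₀ hρ2
      constructor
      · exact mul_le_mul_of_nonneg_left hta.1 hi.le
      · have h2 : (ρ ^ 2)⁻¹ * t ≤ (ρ ^ 2)⁻¹ * (a + 1) := mul_le_mul_of_nonneg_left hta.2 hi.le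
        simp only [hT]
        linarith
    rw [measure_mono_null h1 hμ, smul_zero]
  have hν3 : ν Set.univ ≤ 1 := by
    rw [hν, Measure.smul_apply, Measure.map_apply hTm MeasurableSet.univ, Set.preimage_univ,
      smul_eq_mul]
    calc 2⁻¹ * μ Set.univ ≤ 1 * 1 := by
          gcongr
          exact ENNReal.inv_le_one.2 (by norm_num)
      _ = 1 := one_mul 1
  have hν2 : ∀ t r : ℝ, 0 < r →
      ν (Metric.closedBall t r) ≤ ENNReal.ofReal ((ρ ^ 2) ^ β * r ^ β) := by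
    intro t r hr
    rw [hν, Measure.smul_apply, smul_eq_mul, Real.closedBall_eq_Icc,
      Measure.map_apply hTm measurableSet_Icc]
    have h1 := hF (ρ ^ 2 * (t - r)) (2 * (ρ ^ 2 * r)) (by positivity)
    have h2 : T ⁻¹' Set.Icc (t - r) (t + r) ⊆
        Set.Icc (ρ ^ 2 * (t - r)) (ρ ^ 2 * (t - r) + 2 * (ρ ^ 2 * r)) := by
      intro s hs
      have hs1 := hs.1
      have hs2 := hs.2
      simp only [hT] at hs1 hs2
      have e1 : ρ ^ 2 * ((ρ ^ 2)⁻¹ * s) = s := by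
        rw [← mul_assoc, mul_inv_cancel₀ (by positivity), one_mul]
      have k1 := mul_le_mul_of_nonneg_left hs1 (by positivity : (0 : ℝ) ≤ ρ ^ 2)
      have k2 := mul_le_mul_of_nonneg_left hs2 (by positivity : (0 : ℝ) ≤ ρ ^ 2)
      rw [e1] at k1 k2
      constructor
      · exact k1
      · linarith
    calc 2⁻¹ * μ (T ⁻¹' Set.Icc (t - r) (t + r))
        ≤ 2⁻¹ * μ (Set.Icc (ρ ^ 2 * (t - r)) (ρ ^ 2 * (t - r) + 2 * (ρ ^ 2 * r))) := by gcongr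
      _ ≤ 2⁻¹ * ENNReal.ofReal ((2 * (ρ ^ 2 * r)) ^ β) := by gcongr
      _ ≤ 2⁻¹ * ENNReal.ofReal (2 * ((ρ ^ 2) ^ β * r ^ β)) := by
          gcongr
          rw [Real.mul_rpow (by norm_num) (by positivity),
            Real.mul_rpow (by positivity) hr.le]
          gcongr
          calc (2 : ℝ) ^ β ≤ 2 ^ (1 : ℝ) :=
                Real.rpow_le_rpow_of_exponent_le (by norm_num) hβ1
            _ = 2 := Real.rpow_one _
      _ = _ := by
          rw [ENNReal.ofReal_mul (by norm_num), ← mul_assoc, ENNReal.ofReal_ofNat,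
            ENNReal.inv_mul_cancel (by norm_num) (by norm_num), one_mul]
  have hfin : IsFiniteMeasure ν := ⟨lt_of_le_of_lt hν3 ENNReal.one_lt_top⟩
  have hHint := hC h hhm hhL (ρ⁻¹ • x₀) ((ρ ^ 2)⁻¹ * a) ((ρ ^ 2) ^ β) ν J (by positivity) hν1 hν3
    hν2 (Real.rpow_le_rpow (by positivity) hJ1 hβ.le)
  rw [sq_smul g hgm ρ hρ0, ← hd] at hHint
  have hpd : (0 : ℝ) < ρ ^ d := by positivity
  -- pointwise
  have hpt : ∀ t x, maxBallSum (schrodinger t f) x ^ 2 ≤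
      ENNReal.ofReal (((ρ ^ d)⁻¹) ^ 2) * H (ρ⁻¹ • x, T t) := by
    intro t x
    have h1 := maxS_scale g ρ hρ0 (ρ⁻¹ • x) ((ρ ^ 2)⁻¹ * t)
    rw [smul_smul, mul_inv_cancel₀ hρ0.ne', one_smul, ← mul_assoc,
      mul_inv_cancel₀ (by positivity), one_mul] at h1
    have h2 : maxS g (x, t) ≤ ENNReal.ofReal ((ρ ^ d)⁻¹) * maxS h (ρ⁻¹ • x, T t) := by
      calc maxS g (x, t) = ENNReal.ofReal ((ρ ^ d)⁻¹) *
            (maxS g (x, t) * ENNReal.ofReal (ρ ^ d)) := by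
            rw [mul_comm (maxS g (x, t)), ← mul_assoc, ← ENNReal.ofReal_mul (by positivity),
              inv_mul_cancel₀ hpd.ne', ENNReal.ofReal_one, one_mul]
        _ ≤ _ := by gcongr
    calc maxBallSum (schrodinger t f) x ^ 2 ≤ maxS g (x, t) ^ 2 :=
          pow_le_pow_left₀ zero_le (maxBallSum_le t f x) 2
      _ ≤ (ENNReal.ofReal ((ρ ^ d)⁻¹) * maxS h (ρ⁻¹ • x, T t)) ^ 2 :=
          pow_le_pow_left₀ zero_le h2 2
      _ = ENNReal.ofReal (((ρ ^ d)⁻¹) ^ 2) * maxS h (ρ⁻¹ • x, T t) ^ 2 := by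
          rw [mul_pow, ENNReal.ofReal_pow (by positivity)]
      _ ≤ _ := by
          gcongr
          exact maxJ_le h hhL θ hθ0 hθ1 J _
  have hsec : ∀ s : ℝ, Measurable fun x : V => H (x, s) := fun s =>
    hHm.comp measurable_prodMk_right
  have hspace : ∀ t, ∫⁻ x in Metric.closedBall x₀ ρ, maxBallSum (schrodinger t f) x ^ 2 ≤
      ENNReal.ofReal ((ρ ^ d)⁻¹) * (ENNReal.ofReal (Real.exp (π * 1 ^ 2)) *
        ∫⁻ x, H (x, T t) ∂(gw (ρ⁻¹ • x₀))) := by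
    intro t
    have hm1 : Measurable fun x : V => H (ρ⁻¹ • x, T t) :=
      (hsec (T t)).comp (measurable_const_smul ρ⁻¹)
    calc ∫⁻ x in Metric.closedBall x₀ ρ, maxBallSum (schrodinger t f) x ^ 2
        ≤ ∫⁻ x in Metric.closedBall x₀ ρ,
          ENNReal.ofReal (((ρ ^ d)⁻¹) ^ 2) * H (ρ⁻¹ • x, T t) :=
          lintegral_mono fun x => hpt t x
      _ = ENNReal.ofReal (((ρ ^ d)⁻¹) ^ 2) * (ENNReal.ofReal (ρ ^ d) *
          ∫⁻ x in Metric.closedBall (ρ⁻¹ • x₀) 1, H (x, T t)) := by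
          rw [lintegral_const_mul _ hm1,
            lint_ball_smul (fun x => H (x, T t)) (hsec _) ρ hρ0 x₀]
      _ = ENNReal.ofReal ((ρ ^ d)⁻¹) *
          ∫⁻ x in Metric.closedBall (ρ⁻¹ • x₀) 1, H (x, T t) := by
          rw [← mul_assoc, ← ENNReal.ofReal_mul (by positivity)]
          congr 2
          field_simp
      _ ≤ _ := by
          gcongr
          exact ball_le_gw _ 1 _ (hsec _)
  have hHint2 : Measurable fun s : ℝ => ∫⁻ x, H (x, s) ∂(gw (ρ⁻¹ • x₀)) :=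
    hHm.lintegral_prod_left'
  have hm2 : Measurable fun t : ℝ => ∫⁻ x, H (x, T t) ∂(gw (ρ⁻¹ • x₀)) := hHint2.comp hTm
  have htime : ∫⁻ t, (∫⁻ x, H (x, T t) ∂(gw (ρ⁻¹ • x₀))) ∂μ =
      2 * ∫⁻ p, H p ∂((gw (ρ⁻¹ • x₀)).prod ν) := by
    rw [lintegral_prod_symm' _ hHm, hν, lintegral_smul_measure, lintegral_map hHint2 hTm,
      smul_eq_mul, ← mul_assoc, ENNReal.mul_inv_cancel (by norm_num) (by norm_num), one_mul]
  have hJ3 : ((J + 1 : ℕ) : ℝ≥0∞) ^ 2 ≤ ENNReal.ofReal (9 * (1 + Real.log ρ) ^ 2) := by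
    rw [← ENNReal.ofReal_natCast, ← ENNReal.ofReal_pow (by positivity)]
    refine ENNReal.ofReal_le_ofReal ?_
    calc ((J + 1 : ℕ) : ℝ) ^ 2 ≤ (3 * (1 + Real.log ρ)) ^ 2 := pow_le_pow_left₀ (by positivity) hJ2 2
      _ = _ := by ring
  calc ∫⁻ t, (∫⁻ x in Metric.closedBall x₀ ρ, maxBallSum (schrodinger t f) x ^ 2) ∂μ
      ≤ ∫⁻ t, (ENNReal.ofReal ((ρ ^ d)⁻¹) * (ENNReal.ofReal (Real.exp (π * 1 ^ 2)) *
        ∫⁻ x, H (x, T t) ∂(gw (ρ⁻¹ • x₀)))) ∂μ := lintegral_mono fun t => hspace t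
    _ = ENNReal.ofReal ((ρ ^ d)⁻¹) * (ENNReal.ofReal (Real.exp (π * 1 ^ 2)) *
        (2 * ∫⁻ p, H p ∂((gw (ρ⁻¹ • x₀)).prod ν))) := by
        rw [lintegral_const_mul _ (hm2.const_mul _), lintegral_const_mul _ hm2, htime]
    _ ≤ ENNReal.ofReal ((ρ ^ d)⁻¹) * (ENNReal.ofReal (Real.exp (π * 1 ^ 2)) *
        (2 * (C * ENNReal.ofReal (9 * (1 + Real.log ρ) ^ 2) *
          (ENNReal.ofReal (ρ ^ d) * ∫⁻ ξ, ‖g ξ‖ₑ ^ 2)))) := by
        gcongr
        exact hHint.trans (by gcongr)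
    _ = _ := by
        rw [hg, sq_norm f]
        have hCc : C = ENNReal.ofReal C.toReal := (ENNReal.ofReal_toReal hCf).symm
        have hc0 : 0 ≤ C.toReal := ENNReal.toReal_nonneg
        have hN0 : 0 ≤ ‖f‖ := norm_nonneg f
        generalize C.toReal = c at hCc hc0 ⊢
        generalize ‖f‖ = N at hN0 ⊢
        generalize Real.log ρ = l
        rw [hCc, show (2 : ℝ≥0∞) = ENNReal.ofReal 2 by simp, ← ENNReal.ofReal_mul hc0,
          ← ENNReal.ofReal_mul (by positivity), ← ENNReal.ofReal_mul (by positivity),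
          ← ENNReal.ofReal_mul (by positivity), ← ENNReal.ofReal_mul (by positivity),
          ← ENNReal.ofReal_mul (by positivity)]
        congr 1
        field_simp

end Q89.MS
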