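import Pool.Agent.Q89.MS.A11

/-! Spherical partial Fourier sums on orbits of the free Schrodinger group. -/

open MeasureTheory ComplexConjugate Complex Filter
open scoped ENNReal Real InnerProductSpace NNReal FourierTransform

namespace Q89.MS

variable {V : Type*} [NormedAddCommGroup V] [InnerProductSpace ℝ V] [FiniteDimensional ℝ V]
  [MeasurableSpace V] [BorelSpace V]

theorem phase_memLp (t : ℝ) (f : Lp ℂ 2 (volume : Measure V)) :
    MemLp (fun ξ : V => cexp (((-(4 * π ^ 2 * t * ‖ξ‖ ^ 2) : ℝ) : ℂ) * I) *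
      (𝓕 f : Lp ℂ 2 (volume : Measure V)) ξ) 2 := by
  have hg : MemLp ((𝓕 f : Lp ℂ 2 (volume : Measure V)) : V → ℂ) 2 := Lp.memLp _
  refine MemLp.of_le hg ?_ (Eventually.of_forall fun ξ => ?_)
  · refine AEStronglyMeasurable.mul ?_ hg.aestronglyMeasurable
    have : Continuous fun ξ : V => cexp (((-(4 * π ^ 2 * t * ‖ξ‖ ^ 2) : ℝ) : ℂ) * I) := by
      fun_prop
    exact this.aestronglyMeasurable
  · rw [norm_mul, Complex.norm_exp_ofReal_mul_I, one_mul]

/-- the free Schrodinger flow `e^{itΔ} f` on `L^2` -/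
noncomputable def schrodinger (t : ℝ) (f : Lp ℂ 2 (volume : Measure V)) :
    Lp ℂ 2 (volume : Measure V) :=
  𝓕⁻ ((phase_memLp t f).toLp _)

theorem ballSum_eq (t : ℝ) (f : Lp ℂ 2 (volume : Measure V)) (R : ℝ) (x : V) :
    ballSum (schrodinger t f) R x =
      SS ((𝓕 f : Lp ℂ 2 (volume : Measure V)) : V → ℂ) R (x, t) := by
  unfold ballSum SS
  have h1 : (𝓕 (schrodinger t f) : Lp ℂ 2 (volume : Measure V)) = (phase_memLp t f).toLp _ := by
    unfold schrodinger
    exact FourierTransform.fourier_fourierInv_eq _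
  rw [h1]
  refine integral_congr_ae (ae_restrict_of_ae ?_)
  filter_upwards [(phase_memLp t f).coeFn_toLp] with ξ hξ
  rw [hξ, Circle.smul_def, Real.fourierChar_apply, smul_eq_mul, ← mul_assoc, ← Complex.exp_add]
  unfold ew
  rw [mul_comm]
  congr 2
  push_cast
  ring

theorem maxBallSum_le (t : ℝ) (f : Lp ℂ 2 (volume : Measure V)) (x : V) :
    maxBallSum (schrodinger t f) x ≤
      maxS ((𝓕 f : Lp ℂ 2 (volume : Measure V)) : V → ℂ) (x, t) := by
  unfold maxBallSum maxS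
  refine iSup_le fun R => ?_
  rw [ballSum_eq]
  exact le_iSup (fun R : ℝ => ‖SS ((𝓕 f : Lp ℂ 2 (volume : Measure V)) : V → ℂ) R (x, t)‖ₑ) R

theorem sq_norm (f : Lp ℂ 2 (volume : Measure V)) :
    ∫⁻ ξ, ‖(𝓕 f : Lp ℂ 2 (volume : Measure V)) ξ‖ₑ ^ 2 = ENNReal.ofReal (‖f‖ ^ 2) := by
  rw [← Lp.norm_fourier_eq f]
  set U : Lp ℂ 2 (volume : Measure V) := 𝓕 f
  have b1 := eLpNorm_nnreal_pow_eq_lintegral (f := (U : V → ℂ)) (μ := (volume : Measure V))
    (p := 2) (by norm_num)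
  have c1 : (((2 : NNReal) : ℝ≥0∞)) = 2 := by norm_num
  rw [c1] at b1
  simp only [NNReal.coe_ofNat, ENNReal.rpow_ofNat] at b1
  rw [← b1, Lp.norm_def, ENNReal.ofReal_pow ENNReal.toReal_nonneg,
    ENNReal.ofReal_toReal (Lp.eLpNorm_ne_top U)]

theorem ball_le_gw (y : V) (ρ : ℝ) (F : V → ℝ≥0∞) (hF : Measurable F) :
    ∫⁻ x in Metric.closedBall y ρ, F x ≤
      ENNReal.ofReal (Real.exp (π * ρ ^ 2)) * ∫⁻ x, F x ∂(gw y) := by
  rw [lintegral_gw y F hF.aemeasurable, ← lintegral_const_mul _ (by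
    exact ((gdens_cont y).measurable.ennreal_ofReal).mul hF),
    ← lintegral_indicator Metric.isClosed_closedBall.measurableSet]
  refine lintegral_mono fun x => ?_
  simp only [Set.indicator]
  split_ifs with hx
  · rw [← mul_assoc, ← ENNReal.ofReal_mul (Real.exp_pos _).le, ← Real.exp_add]
    rw [Metric.mem_closedBall, dist_eq_norm] at hx
    have h1 : ‖x - y‖ ^ 2 ≤ ρ ^ 2 := pow_le_pow_left₀ (norm_nonneg _) hx 2
    have h2 : (1 : ℝ) ≤ Real.exp (π * ρ ^ 2 + -π * ‖x - y‖ ^ 2) := by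
      rw [Real.one_le_exp_iff]
      nlinarith [Real.pi_pos, mul_le_mul_of_nonneg_left h1 Real.pi_pos.le]
    calc F x = 1 * F x := (one_mul _).symm
      _ ≤ _ := by
        gcongr
        rw [← ENNReal.ofReal_one]
        exact ENNReal.ofReal_le_ofReal h2
  · exact zero_le

/-- the maximal inequality on Schrodinger orbits, for Frostman measures in time -/
theorem maximal_inequality (β : ℝ) (hβ : 0 < β) (hβ1 : β ≤ 1) :
    ∃ C : ℝ, ∀ (f : Lp ℂ 2 (volume : Measure V)) (x₀ : V) (a : ℝ) (μ : Measure ℝ),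
      μ (Set.Icc a (a + 1))ᶜ = 0 →
      (∀ s r : ℝ, 0 < r → μ (Set.Icc s (s + r)) ≤ ENNReal.ofReal (r ^ β)) →
      ∫⁻ t, (∫⁻ x in Metric.closedBall x₀ 1, maxBallSum (schrodinger t f) x ^ 2) ∂μ ≤
        ENNReal.ofReal (C * ‖f‖ ^ 2) := by
  set θ : ℝ := 2 ^ (-β / 8) with hθ
  have hθ0 : 0 < θ := by positivity
  have hθ1 : θ < 1 := Real.rpow_lt_one_of_one_lt_of_neg (by norm_num) (by linarith)
  set S := ∑' j : ℕ, ENNReal.ofReal (((θ ^ 2)⁻¹) ^ j) * bc (Module.finrank ℝ V)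
    (volume (Metric.ball (0 : V) 1)) j (ENNReal.ofReal (((2 : ℝ) ^ j) ^ (-β)) * C0) 1 with hS
  have hSf : S ≠ ⊤ := sum_finite _ _ measure_ball_lt_top.ne C0 C0_ne_top β hβ hβ1 θ hθ
  set C : ℝ≥0∞ := 2 * volume (cB V 1) + 2 * (ENNReal.ofReal (((1 - θ)⁻¹) ^ 2) * S) with hC
  have hCf : C ≠ ⊤ := by
    refine ENNReal.add_ne_top.2 ⟨?_, ?_⟩
    · exact ENNReal.mul_ne_top (by norm_num) measure_closedBall_lt_top.ne
    · exact ENNReal.mul_ne_top (by norm_num) (ENNReal.mul_ne_top ENNReal.ofReal_ne_top hSf)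
  refine ⟨Real.exp (π * 1 ^ 2) * (2 * C.toReal), ?_⟩
  intro f x₀ a μ hμ hF
  set g : V → ℂ := ((𝓕 f : Lp ℂ 2 (volume : Measure V)) : V → ℂ) with hg
  have hgm : StronglyMeasurable g := Lp.stronglyMeasurable _
  have hgL : MemLp g 2 := Lp.memLp _
  set G : ℝ≥0∞ := ∫⁻ ξ, ‖g ξ‖ₑ ^ 2 with hG
  set H : V × ℝ → ℝ≥0∞ := fun p => 2 * (volume (cB V 1) * G) +
    2 * (ENNReal.ofReal (((1 - θ)⁻¹) ^ 2) * XX g θ p) with hH
  have hHm : Measurable H := measurable_const.add (((XX_meas g hgm θ).const_mul _).const_mul _)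
  -- the halved measure
  set ν : Measure ℝ := (2⁻¹ : ℝ≥0∞) • μ with hν
  have hν1 : ∀ᵐ t ∂ν, t ∈ Set.Icc a (a + 1) := by
    rw [ae_iff]
    change ν (Set.Icc a (a + 1))ᶜ = 0
    rw [hν, Measure.smul_apply, hμ, smul_zero]
  have hν2 : ∀ t r : ℝ, 0 < r → ν (Metric.closedBall t r) ≤ ENNReal.ofReal (r ^ β) := by
    intro t r hr
    rw [hν, Measure.smul_apply, smul_eq_mul, Real.closedBall_eq_Icc]
    have h1 := hF (t - r) (2 * r) (by positivity)
    rw [show t - r + 2 * r = t + r by ring] at h1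
    calc 2⁻¹ * μ (Set.Icc (t - r) (t + r)) ≤ 2⁻¹ * ENNReal.ofReal ((2 * r) ^ β) := by gcongr
      _ ≤ 2⁻¹ * ENNReal.ofReal (2 * r ^ β) := by
          gcongr
          rw [Real.mul_rpow (by norm_num) hr.le]
          gcongr
          calc (2 : ℝ) ^ β ≤ 2 ^ (1 : ℝ) :=
                Real.rpow_le_rpow_of_exponent_le (by norm_num) hβ1
            _ = 2 := Real.rpow_one _
      _ = _ := by
          rw [ENNReal.ofReal_mul (by norm_num), ← mul_assoc, ENNReal.ofReal_ofNat,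
            ENNReal.inv_mul_cancel (by norm_num) (by norm_num), one_mul]
  have huniv := frostman_univ ν a β hβ hν1 hν2
  have hfin : IsFiniteMeasure ν := ⟨lt_of_le_of_lt huniv ENNReal.one_lt_top⟩
  have hprod : ((gw x₀).prod ν) Set.univ ≤ 1 := by
    rw [← Set.univ_prod_univ, Measure.prod_prod, gw_univ, one_mul]
    exact huniv
  have hXX : ∫⁻ p, XX g θ p ∂((gw x₀).prod ν) ≤ S * G := by
    refine (XX_int ν x₀ g hgm hgL θ).trans ?_
    refine mul_le_mul_left ?_ _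
    rw [hS]
    refine ENNReal.tsum_le_tsum fun j => ?_
    refine mul_le_mul_right ?_ _
    exact bc_mono _ _ _ (frostman_energy ν a β hβ hβ1 hν1 hν2 _ (by positivity)) huniv
  have hHint : ∫⁻ p, H p ∂((gw x₀).prod ν) ≤ C * G := by
    calc ∫⁻ p, H p ∂((gw x₀).prod ν)
        = 2 * (volume (cB V 1) * G) * ((gw x₀).prod ν) Set.univ +
          2 * (ENNReal.ofReal (((1 - θ)⁻¹) ^ 2) * ∫⁻ p, XX g θ p ∂((gw x₀).prod ν)) := by
          rw [hH, lintegral_add_left measurable_const, lintegral_const,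
            lintegral_const_mul _ ((XX_meas g hgm θ).const_mul _),
            lintegral_const_mul _ (XX_meas g hgm θ)]
      _ ≤ 2 * (volume (cB V 1) * G) * 1 +
          2 * (ENNReal.ofReal (((1 - θ)⁻¹) ^ 2) * (S * G)) := by gcongr
      _ = _ := by rw [hC]; ring
  have hpt : ∀ t x, maxBallSum (schrodinger t f) x ^ 2 ≤ H (x, t) := by
    intro t x
    refine (pow_le_pow_left₀ zero_le (maxBallSum_le t f x) 2).trans ?_
    exact max_le g hgL θ hθ0 hθ1 (x, t)
  have hmain : ∫⁻ t, (∫⁻ x in Metric.closedBall x₀ 1, maxBallSum (schrodinger t f) x ^ 2) ∂ν ≤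
      ENNReal.ofReal (Real.exp (π * 1 ^ 2)) * (C * G) := by
    calc ∫⁻ t, (∫⁻ x in Metric.closedBall x₀ 1, maxBallSum (schrodinger t f) x ^ 2) ∂ν
        ≤ ∫⁻ t, ENNReal.ofReal (Real.exp (π * 1 ^ 2)) * ∫⁻ x, H (x, t) ∂(gw x₀) ∂ν := by
          refine lintegral_mono fun t => ?_
          refine (lintegral_mono fun x => hpt t x).trans ?_
          exact ball_le_gw x₀ 1 (fun x => H (x, t)) (hHm.comp measurable_prodMk_right)
      _ = ENNReal.ofReal (Real.exp (π * 1 ^ 2)) * ∫⁻ p, H p ∂((gw x₀).prod ν) := by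
          rw [lintegral_const_mul _ hHm.lintegral_prod_left', lintegral_prod_symm' _ hHm]
      _ ≤ _ := by gcongr
  have hμν : μ = (2 : ℝ≥0∞) • ν := by
    rw [hν, smul_smul, ENNReal.mul_inv_cancel (by norm_num) (by norm_num), one_smul]
  rw [hμν, lintegral_smul_measure, smul_eq_mul]
  refine (mul_le_mul_right hmain 2).trans (le_of_eq ?_)
  rw [hG, hg, sq_norm f]
  have hCc : C = ENNReal.ofReal C.toReal := (ENNReal.ofReal_toReal hCf).symm
  have hc0 : 0 ≤ C.toReal := ENNReal.toReal_nonneg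
  have hN0 : 0 ≤ ‖f‖ := norm_nonneg f
  generalize C.toReal = c at hCc hc0 ⊢
  generalize ‖f‖ = N at hN0 ⊢
  rw [hCc, show (2 : ℝ≥0∞) = ENNReal.ofReal 2 by simp, ← ENNReal.ofReal_mul hc0,
    ← ENNReal.ofReal_mul (by positivity), ← ENNReal.ofReal_mul (by positivity)]
  congr 1
  ring

/-- the exceptional times of an orbit have Hausdorff dimension zero -/
theorem exceptional_times (f : Lp ℂ 2 (volume : Measure V)) :
    dimH {t : ℝ | ¬ ((∀ᵐ x : V, Tendsto (fun R => ballSum (schrodinger t f) R x) atTop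
        (nhds (schrodinger t f x))) ∧
      ∀ ρ : ℝ, ∫⁻ x in Metric.closedBall (0 : V) ρ, maxBallSum (schrodinger t f) x ^ 2 < ⊤)} =
      0 := by
  set g : V → ℂ := ((𝓕 f : Lp ℂ 2 (volume : Measure V)) : V → ℂ) with hg
  have hgm : StronglyMeasurable g := Lp.stronglyMeasurable _
  have hgL : MemLp g 2 := Lp.memLp _
  have hG : ∫⁻ ξ, ‖g ξ‖ₑ ^ 2 ≠ ⊤ := by
    rw [hg, sq_norm f]; exact ENNReal.ofReal_ne_top
  refine le_antisymm ?_ zero_le
  rw [← dim_not_good g hgm hgL hG]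
  refine dimH_mono ?_
  intro t ht hgood
  apply ht
  obtain ⟨θ, h0, h1, hX⟩ := hgood
  have hXm : Measurable fun x : V => XX g θ (x, t) :=
    (XX_meas g hgm θ).comp measurable_prodMk_right
  constructor
  · have h2 : ∀ᵐ x ∂(gw (0 : V)), XX g θ (x, t) < ⊤ := ae_lt_top hXm hX
    have h3 : ∀ᵐ x : V, XX g θ (x, t) < ⊤ := by
      unfold gw at h2
      rw [ae_withDensity_iff (gdens_cont (0 : V)).measurable.ennreal_ofReal] at h2
      filter_upwards [h2] with x hx
      refine hx ?_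
      rw [Ne, ENNReal.ofReal_eq_zero, not_le]
      exact Real.exp_pos _
    filter_upwards [h3, limit_eq (schrodinger t f)] with x hx hlim
    obtain ⟨l, hl⟩ := converges g hgL θ h0 h1 (x, t) hx.ne
    have h4 : Tendsto (fun R => ballSum (schrodinger t f) R x) atTop (nhds l) := by
      refine hl.congr fun R => ?_
      rw [ballSum_eq]
    rw [← hlim l h4]
    exact h4
  · intro ρ
    set H : V → ℝ≥0∞ := fun x => 2 * (volume (cB V 1) * ∫⁻ ξ, ‖g ξ‖ₑ ^ 2) +
      2 * (ENNReal.ofReal (((1 - θ)⁻¹) ^ 2) * XX g θ (x, t)) with hH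
    have hHm : Measurable H := measurable_const.add ((hXm.const_mul _).const_mul _)
    have hpt : ∀ x, maxBallSum (schrodinger t f) x ^ 2 ≤ H x := by
      intro x
      refine (pow_le_pow_left₀ zero_le (maxBallSum_le t f x) 2).trans ?_
      exact max_le g hgL θ h0 h1 (x, t)
    have h5 : ∫⁻ x, H x ∂(gw (0 : V)) ≠ ⊤ := by
      rw [hH, lintegral_add_left measurable_const, lintegral_const, gw_univ, mul_one,
        lintegral_const_mul _ (hXm.const_mul _), lintegral_const_mul _ hXm]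
      refine ENNReal.add_ne_top.2 ⟨?_, ?_⟩
      · exact ENNReal.mul_ne_top (by norm_num)
          (ENNReal.mul_ne_top measure_closedBall_lt_top.ne hG)
      · exact ENNReal.mul_ne_top (by norm_num) (ENNReal.mul_ne_top ENNReal.ofReal_ne_top hX)
    refine lt_of_le_of_lt (lintegral_mono fun x => hpt x) ?_
    refine lt_of_le_of_lt (ball_le_gw 0 ρ H hHm) ?_
    exact (ENNReal.mul_ne_top ENNReal.ofReal_ne_top h5).lt_top

end Q89.MS
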