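import Mathlib

/-! Maximal spherical partial Fourier sums on Schrodinger orbits: an abstract square function
identity. -/

open MeasureTheory ComplexConjugate
open scoped ENNReal

namespace Q89.MS

section abstract

variable {X Z : Type*} [MeasurableSpace X] [MeasurableSpace Z]

/-- expansion of the square of an integral operator with a bounded kernel -/
theorem tt_star (lam : Measure X) (nu : Measure Z) [SFinite lam] [IsFiniteMeasure nu]
    (h : X → ℂ) (hh : Integrable h lam) (e : X → Z → ℂ)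
    (he : Measurable (Function.uncurry e)) (hb : ∀ x z, ‖e x z‖ ≤ 1) :
    ∫⁻ z, ‖∫ x, h x * e x z ∂lam‖ₑ ^ 2 ∂nu ≤
      ∫⁻ x, ∫⁻ x', ‖h x‖ₑ * ‖h x'‖ₑ * ‖∫ z, e x z * conj (e x' z) ∂nu‖ₑ ∂lam ∂lam := by
  classical
  set F : Z → ℂ := fun z => ∫ x, h x * e x z ∂lam with hF
  -- joint integrability
  have hmeas : AEStronglyMeasurable (fun p : Z × X => h p.2 * e p.2 p.1) (nu.prod lam) := by
    refine AEStronglyMeasurable.mul (hh.aestronglyMeasurable.comp_snd) ?_
    exact (he.comp (measurable_snd.prodMk measurable_fst)).aestronglyMeasurable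
  have hFm : AEStronglyMeasurable F nu := hmeas.integral_prod_right'
  have hFb : ∀ z, ‖F z‖ ≤ ∫ x, ‖h x‖ ∂lam := by
    intro z
    refine (norm_integral_le_integral_norm _).trans ?_
    refine integral_mono_of_nonneg (Filter.Eventually.of_forall fun x => norm_nonneg _) hh.norm
      (Filter.Eventually.of_forall fun x => ?_)
    simp only [norm_mul]
    exact mul_le_of_le_one_right (norm_nonneg _) (hb x z)
  -- the triple function
  set G : Z × (X × X) → ℂ := fun p => (h p.2.1 * e p.2.1 p.1) * conj (h p.2.2 * e p.2.2 p.1)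
    with hG
  have hGm : AEStronglyMeasurable G (nu.prod (lam.prod lam)) := by
    have h1 : AEStronglyMeasurable (fun p : Z × (X × X) => h p.2.1) (nu.prod (lam.prod lam)) :=
      (hh.aestronglyMeasurable.comp_fst (ν := lam)).comp_snd
    have h2 : AEStronglyMeasurable (fun p : Z × (X × X) => h p.2.2) (nu.prod (lam.prod lam)) :=
      (hh.aestronglyMeasurable.comp_snd (μ := lam)).comp_snd
    have h3 : AEStronglyMeasurable (fun p : Z × (X × X) => e p.2.1 p.1)
        (nu.prod (lam.prod lam)) :=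
      (he.comp ((measurable_fst.comp measurable_snd).prodMk measurable_fst)).aestronglyMeasurable
    have h4 : AEStronglyMeasurable (fun p : Z × (X × X) => e p.2.2 p.1)
        (nu.prod (lam.prod lam)) :=
      (he.comp ((measurable_snd.comp measurable_snd).prodMk measurable_fst)).aestronglyMeasurable
    exact (h1.mul h3).mul (Complex.continuous_conj.comp_aestronglyMeasurable (h2.mul h4))
  have hGi : Integrable G (nu.prod (lam.prod lam)) := by
    have hdom : Integrable (fun p : Z × (X × X) => (1 : ℝ) * (‖h p.2.1‖ * ‖h p.2.2‖))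
        (nu.prod (lam.prod lam)) :=
      (integrable_const (1 : ℝ)).mul_prod (hh.norm.mul_prod hh.norm)
    refine hdom.mono' hGm (Filter.Eventually.of_forall fun p => ?_)
    simp only [hG, norm_mul, RCLike.norm_conj, one_mul]
    have h1 := hb p.2.1 p.1
    have h2 := hb p.2.2 p.1
    have a1 : ‖h p.2.1‖ * ‖e p.2.1 p.1‖ ≤ ‖h p.2.1‖ :=
      mul_le_of_le_one_right (norm_nonneg _) h1
    have a2 : ‖h p.2.2‖ * ‖e p.2.2 p.1‖ ≤ ‖h p.2.2‖ :=
      mul_le_of_le_one_right (norm_nonneg _) h2
    exact mul_le_mul a1 a2 (by positivity) (norm_nonneg _)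
  -- F z * conj (F z) as a double integral
  have hFF : ∀ z, F z * conj (F z) = ∫ q : X × X, G (z, q) ∂(lam.prod lam) := by
    intro z
    simp only [hF, hG]
    rw [← integral_conj, ← integral_prod_mul]
  have hsq : Integrable (fun z => ‖F z‖ ^ 2) nu := by
    refine Integrable.mono' (integrable_const ((∫ x, ‖h x‖ ∂lam) ^ 2)) (hFm.norm.pow 2)
      (Filter.Eventually.of_forall fun z => ?_)
    simp only [norm_pow, norm_norm]
    exact pow_le_pow_left₀ (norm_nonneg _) (hFb z) 2
  have hleft : ∫⁻ z, ‖F z‖ₑ ^ 2 ∂nu = ‖∫ z, F z * conj (F z) ∂nu‖ₑ := by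
    have e1 : ∫ z, F z * conj (F z) ∂nu = ((∫ z, ‖F z‖ ^ 2 ∂nu : ℝ) : ℂ) := by
      rw [← integral_complex_ofReal]
      refine integral_congr_ae (Filter.Eventually.of_forall fun z => ?_)
      simp only [Complex.mul_conj, Complex.normSq_eq_norm_sq, Complex.ofReal_pow]
    rw [e1, ← ofReal_norm, Complex.norm_real, Real.norm_of_nonneg
      (integral_nonneg fun z => by positivity), ofReal_integral_eq_lintegral_ofReal hsq
      (Filter.Eventually.of_forall fun z => by positivity)]
    refine lintegral_congr fun z => ?_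
    rw [← ofReal_norm, ENNReal.ofReal_pow (norm_nonneg _)]
  have hswap : ∫ z, F z * conj (F z) ∂nu =
      ∫ q : X × X, ∫ z, G (z, q) ∂nu ∂(lam.prod lam) := by
    rw [integral_congr_ae (Filter.Eventually.of_forall hFF)]
    exact integral_integral_swap (f := fun z q => G (z, q)) hGi
  rw [hleft, hswap]
  refine (enorm_integral_le_lintegral_enorm _).trans ?_
  have hpt : ∀ q : X × X, ‖∫ z, G (z, q) ∂nu‖ₑ =
      ‖h q.1‖ₑ * ‖h q.2‖ₑ * ‖∫ z, e q.1 z * conj (e q.2 z) ∂nu‖ₑ := by
    intro q
    have e2 : ∫ z, G (z, q) ∂nu = (h q.1 * conj (h q.2)) * ∫ z, e q.1 z * conj (e q.2 z) ∂nu := by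
      rw [← integral_const_mul]
      refine integral_congr_ae (Filter.Eventually.of_forall fun z => ?_)
      simp only [hG, map_mul]
      ring
    rw [e2, enorm_mul, enorm_mul]
    congr 2
    rw [← ofReal_norm, ← ofReal_norm, RCLike.norm_conj]
  rw [lintegral_congr hpt]
  refine le_of_eq ?_
  refine lintegral_prod _ ?_
  have hK : StronglyMeasurable (fun q : X × X => ∫ z, e q.1 z * conj (e q.2 z) ∂nu) := by
    refine StronglyMeasurable.integral_prod_right'
      (f := fun p : (X × X) × Z => e p.1.1 p.2 * conj (e p.1.2 p.2)) ?_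
    have m1 : Measurable (fun p : (X × X) × Z => e p.1.1 p.2) :=
      he.comp ((measurable_fst.comp measurable_fst).prodMk measurable_snd)
    have m2 : Measurable (fun p : (X × X) × Z => e p.1.2 p.2) :=
      he.comp ((measurable_snd.comp measurable_fst).prodMk measurable_snd)
    exact (m1.mul (Complex.continuous_conj.measurable.comp m2)).stronglyMeasurable
  refine AEMeasurable.mul (AEMeasurable.mul ?_ ?_) hK.measurable.enorm.aemeasurable
  · exact (hh.aestronglyMeasurable.comp_fst (ν := lam)).enorm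
  · exact (hh.aestronglyMeasurable.comp_snd (μ := lam)).enorm

/-- Schur test for a nonnegative symmetric kernel -/
theorem schur (lam : Measure X) [SFinite lam] (a : X → ℝ≥0∞) (ha : AEMeasurable a lam)
    (K : X → X → ℝ≥0∞) (hK : Measurable (Function.uncurry K)) (hs : ∀ x x', K x x' = K x' x)
    (B : ℝ≥0∞) (hB : ∀ x, a x ≠ 0 → ∫⁻ x', K x x' ∂lam ≤ B) :
    ∫⁻ x, ∫⁻ x', a x * a x' * K x x' ∂lam ∂lam ≤ B * ∫⁻ x, a x ^ 2 ∂lam := by
  have hmain : ∀ x x', a x * a x' * K x x' ≤
      2⁻¹ * (a x ^ 2 * K x x') + 2⁻¹ * (a x' ^ 2 * K x x') := by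
    intro x x'
    have h1 : a x * a x' ≤ 2⁻¹ * (a x ^ 2) + 2⁻¹ * (a x' ^ 2) := by
      have h2 : 2 * (a x * a x') ≤ a x ^ 2 + a x' ^ 2 := by
        rcases eq_or_ne (a x) ⊤ with hx | hx
        · rw [hx]; simp
        rcases eq_or_ne (a x') ⊤ with hx' | hx'
        · rw [hx']; simp
        lift a x to NNReal using hx with u hu
        lift a x' to NNReal using hx' with v hv
        norm_cast
        have := two_mul_le_add_sq u v
        rw [← mul_assoc]; exact this
      calc a x * a x' = 2⁻¹ * (2 * (a x * a x')) := by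
            rw [← mul_assoc, ENNReal.inv_mul_cancel (by norm_num) (by norm_num), one_mul]
        _ ≤ 2⁻¹ * (a x ^ 2 + a x' ^ 2) := by gcongr
        _ = _ := by rw [mul_add]
    calc a x * a x' * K x x' ≤ (2⁻¹ * (a x ^ 2) + 2⁻¹ * (a x' ^ 2)) * K x x' := by gcongr
      _ = _ := by ring
  have ha2 : AEMeasurable (fun x => a x ^ 2) lam := ha.pow_const 2
  have key1 : ∫⁻ x, ∫⁻ x', a x ^ 2 * K x x' ∂lam ∂lam ≤ B * ∫⁻ x, a x ^ 2 ∂lam := by
    rw [← lintegral_const_mul'' _ ha2]
    refine lintegral_mono fun x => ?_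
    have hKx : Measurable (K x) := hK.comp measurable_prodMk_left
    rw [lintegral_const_mul _ hKx]
    rcases eq_or_ne (a x) 0 with h0 | h0
    · simp [h0]
    · rw [mul_comm]
      have := hB x h0
      gcongr
  have key2 : ∫⁻ x, ∫⁻ x', a x' ^ 2 * K x x' ∂lam ∂lam =
      ∫⁻ x, ∫⁻ x', a x ^ 2 * K x x' ∂lam ∂lam := by
    rw [lintegral_lintegral_swap]
    · refine lintegral_congr fun x => lintegral_congr fun x' => ?_
      rw [hs]
    · exact (ha2.comp_snd).mul hK.aemeasurable
  calc ∫⁻ x, ∫⁻ x', a x * a x' * K x x' ∂lam ∂lam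
      ≤ ∫⁻ x, ∫⁻ x', (2⁻¹ * (a x ^ 2 * K x x') + 2⁻¹ * (a x' ^ 2 * K x x')) ∂lam ∂lam :=
        lintegral_mono fun x => lintegral_mono fun x' => hmain x x'
    _ = 2⁻¹ * (∫⁻ x, ∫⁻ x', a x ^ 2 * K x x' ∂lam ∂lam) +
        2⁻¹ * (∫⁻ x, ∫⁻ x', a x' ^ 2 * K x x' ∂lam ∂lam) := by
        rw [← lintegral_const_mul', ← lintegral_const_mul', ← lintegral_add_left']
        · refine lintegral_congr fun x => ?_
          rw [← lintegral_const_mul', ← lintegral_const_mul', ← lintegral_add_left']
          · exact ((hK.comp measurable_prodMk_left).aemeasurable.const_mul _).const_mul _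
          · simp
          · simp
        · refine AEMeasurable.const_mul ?_ _
          have : AEMeasurable (fun p : X × X => a p.1 ^ 2 * K p.1 p.2) (lam.prod lam) :=
            (ha2.comp_fst).mul hK.aemeasurable
          exact this.lintegral_prod_right'
        · simp
        · simp
    _ = 2⁻¹ * (∫⁻ x, ∫⁻ x', a x ^ 2 * K x x' ∂lam ∂lam) +
        2⁻¹ * (∫⁻ x, ∫⁻ x', a x ^ 2 * K x x' ∂lam ∂lam) := by rw [key2]
    _ = ∫⁻ x, ∫⁻ x', a x ^ 2 * K x x' ∂lam ∂lam := by
        rw [← add_mul, ENNReal.inv_two_add_inv_two, one_mul]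
    _ ≤ _ := key1

end abstract

end Q89.MS
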