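import Pool.Agent.Q89.MS.A9

/-! The exceptional set of times has Hausdorff dimension zero. -/

open MeasureTheory ComplexConjugate Complex Filter
open scoped ENNReal Real InnerProductSpace NNReal

namespace Q89.MS

variable {V : Type*} [NormedAddCommGroup V] [InnerProductSpace ℝ V] [FiniteDimensional ℝ V]
  [MeasurableSpace V] [BorelSpace V]

/-- the block majorant averaged over space at a given time -/
noncomputable def wt (g : V → ℂ) (j : ℕ) (t : ℝ) : ℝ≥0∞ := ∫⁻ x, W g j (x, t) ∂(gw 0)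

theorem wt_meas (g : V → ℂ) (hgm : StronglyMeasurable g) (j : ℕ) : Measurable (wt g j) := by
  unfold wt
  exact (W_meas g hgm j).lintegral_prod_left'

theorem wt_prod (g : V → ℂ) (hgm : StronglyMeasurable g) (j : ℕ) (μ : Measure ℝ)
    [IsFiniteMeasure μ] : ∫⁻ p, W g j p ∂((gw (0 : V)).prod μ) = ∫⁻ t, wt g j t ∂μ := by
  unfold wt
  exact lintegral_prod_symm' _ (W_meas g hgm j)

theorem wt_ne_top (g : V → ℂ) (hgm : StronglyMeasurable g) (hg : MemLp g 2)
    (hG : ∫⁻ ξ, ‖g ξ‖ₑ ^ 2 ≠ ⊤) (j : ℕ) (t : ℝ) : wt g j t ≠ ⊤ := by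
  have h1 := W_int (Measure.dirac t) (0 : V) g hgm hg j
  rw [wt_prod g hgm, lintegral_dirac' _ (wt_meas g hgm j)] at h1
  refine ne_top_of_le_ne_top ?_ h1
  refine ENNReal.mul_ne_top ?_ hG
  refine ENNReal.add_ne_top.2 ⟨?_, ?_⟩
  · refine ENNReal.mul_ne_top (ENNReal.mul_ne_top (by norm_num) (by simp)) ?_
    refine ENNReal.rpow_ne_top_of_nonneg (by norm_num) ?_
    unfold energy
    refine ne_top_of_le_ne_top (b := ∫⁻ _, ∫⁻ _, 1 ∂(Measure.dirac t) ∂(Measure.dirac t)) ?_ ?_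
    · simp
    · refine lintegral_mono fun s => lintegral_mono fun s' => ?_
      simp only
      rw [← ENNReal.ofReal_one]
      refine ENNReal.ofReal_le_ofReal ?_
      unfold damp
      rw [Real.exp_le_one_iff]
      have : 0 ≤ π * (2 ^ j) ^ 2 *
          ((4 * π ^ 2 * (s - s')) ^ 2 / (π ^ 2 + (4 * π ^ 2 * (s - s')) ^ 2)) := by positivity
      linarith
  · refine ENNReal.mul_ne_top (by norm_num) (ENNReal.mul_ne_top (ENNReal.mul_ne_top
      ENNReal.ofReal_ne_top measure_ball_lt_top.ne) (by simp))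

open Classical in
/-- the bad cells of level `j` -/
noncomputable def bad (g : V → ℂ) (a ε : ℝ) (j : ℕ) : Finset ℕ :=
  (Finset.range (2 ^ j)).filter fun i => ∃ t ∈ cell a j i, ENNReal.ofReal ε < wt g j t

open Classical in
theorem bad_bound (g : V → ℂ) (hgm : StronglyMeasurable g) (hg : MemLp g 2) (a ε : ℝ) (j : ℕ) :
    ENNReal.ofReal ε * (bad g a ε j).card ≤
      bc (Module.finrank ℝ V) (volume (Metric.ball (0 : V) 1)) j (4 * C0 * (bad g a ε j).card)
        (bad g a ε j).card * ∫⁻ ξ, ‖g ξ‖ₑ ^ 2 := by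
  set I := bad g a ε j with hI
  have hch : ∀ i : ℕ, ∃ t : ℝ, i ∈ I → t ∈ cell a j i ∧ ENNReal.ofReal ε < wt g j t := by
    intro i
    by_cases hi : i ∈ I
    · have hi' := hi
      rw [hI, bad, Finset.mem_filter] at hi'
      obtain ⟨_, t, ht⟩ := hi'
      exact ⟨t, fun _ => ht⟩
    · exact ⟨0, fun h => absurd h hi⟩
  choose τ hτ using hch
  set μ : Measure ℝ := ∑ i ∈ I, Measure.dirac (τ i) with hμ
  have happly : ∀ s : Set ℝ, MeasurableSet s → μ s = ((I.filter fun i => τ i ∈ s).card : ℝ≥0∞) := by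
    intro s hs
    rw [hμ, Measure.finsetSum_apply]
    rw [Finset.card_filter, Nat.cast_sum]
    refine Finset.sum_congr rfl fun i _ => ?_
    rw [Measure.dirac_apply' _ hs]
    by_cases h : τ i ∈ s <;> simp [h]
  have huniv : μ Set.univ = (I.card : ℝ≥0∞) := by
    rw [happly _ MeasurableSet.univ]
    simp
  have hfin : IsFiniteMeasure μ := ⟨by rw [huniv]; exact ENNReal.natCast_lt_top _⟩
  have h1 := W_int μ (0 : V) g hgm hg j
  rw [wt_prod g hgm, huniv] at h1
  have h2 : ENNReal.ofReal ε * (I.card : ℝ≥0∞) ≤ ∫⁻ t, wt g j t ∂μ := by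
    rw [hμ, lintegral_finsetSum_measure]
    calc ENNReal.ofReal ε * (I.card : ℝ≥0∞) = ∑ _i ∈ I, ENNReal.ofReal ε := by
          rw [Finset.sum_const, nsmul_eq_mul, mul_comm]
      _ ≤ _ := by
          refine Finset.sum_le_sum fun i hi => ?_
          rw [lintegral_dirac' _ (wt_meas g hgm j)]
          exact (hτ i hi).2.le
  have h3 : energy μ (2 ^ j) ≤ 4 * C0 * (I.card : ℝ≥0∞) := by
    rw [← huniv]
    refine energy_le μ a ?_ (2 ^ j) (by positivity) 4 ?_
    · rw [ae_iff]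
      change μ (Set.Icc a (a + 1))ᶜ = 0
      rw [hμ, Measure.finsetSum_apply]
      refine Finset.sum_eq_zero fun i hi => ?_
      rw [Measure.dirac_apply' _ measurableSet_Icc.compl]
      have hmem : τ i ∈ Set.Icc a (a + 1) := by
        have hc := (hτ i hi).1
        have hi2 : i < 2 ^ j := by
          have := hi
          rw [hI, bad, Finset.mem_filter, Finset.mem_range] at this
          exact this.1
        unfold cell at hc
        constructor
        · have : (0 : ℝ) ≤ i / 2 ^ j := by positivity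
          linarith [hc.1]
        · have h4 : ((i : ℝ) + 1) / 2 ^ j ≤ 1 := by
            rw [div_le_one (by positivity)]
            exact_mod_cast hi2
          linarith [hc.2]
      exact Set.indicator_of_notMem (s := (Set.Icc a (a + 1))ᶜ) (fun hn => hn hmem) _
    · intro t m
      rw [happly _ Metric.isClosed_closedBall.measurableSet]
      have h5 := card_near a t j m I τ fun i hi => (hτ i hi).1
      have h6 : ((I.filter fun i => τ i ∈ Metric.closedBall t ((m + 1) / 2 ^ j)).card : ℝ≥0∞) =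
          ENNReal.ofReal (((I.filter fun i => τ i ∈
            Metric.closedBall t ((m + 1) / 2 ^ j)).card : ℕ) : ℝ) := by
        rw [ENNReal.ofReal_natCast]
      rw [h6]
      refine (ENNReal.ofReal_le_ofReal h5).trans (le_of_eq ?_)
      rw [ENNReal.ofReal_mul (by norm_num), ENNReal.ofReal_add (by positivity) (by norm_num),
        ENNReal.ofReal_natCast, ENNReal.ofReal_one]
      norm_num
  refine (h2.trans h1).trans ?_
  refine mul_le_mul_left ?_ _
  have h4 := bc_mono (Module.finrank ℝ V) (volume (Metric.ball (0 : V) 1)) j h3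
    (le_refl (I.card : ℝ≥0∞))
  exact h4

theorem bad_real (g : V → ℂ) (hgm : StronglyMeasurable g) (hg : MemLp g 2)
    (hG : ∫⁻ ξ, ‖g ξ‖ₑ ^ 2 ≠ ⊤) (a ε : ℝ) (hε : 0 < ε) (j : ℕ)
    (hj : (Module.finrank ℝ V : ℝ) / 2 ^ j * (volume (Metric.ball (0 : V) 1)).toReal *
      (∫⁻ ξ, ‖g ξ‖ₑ ^ 2).toReal ≤ ε / 2) :
    ((bad g a ε j).card : ℝ) ≤ 64 * C0.toReal * (∫⁻ ξ, ‖g ξ‖ₑ ^ 2).toReal ^ 2 *
      ((lev (Module.finrank ℝ V) j + 1 : ℕ) : ℝ) ^ 4 / ε ^ 2 := by
  have h1 := bad_bound g hgm hg a ε j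
  set N := (bad g a ε j).card with hN
  set d := Module.finrank ℝ V with hd
  set L : ℝ := ((lev d j + 1 : ℕ) : ℝ) with hL
  have hL0 : 0 ≤ L := by positivity
  set w := (volume (Metric.ball (0 : V) 1)).toReal with hw
  set G := (∫⁻ ξ, ‖g ξ‖ₑ ^ 2).toReal with hGr
  set c := C0.toReal with hc
  have hc0 : 0 ≤ c := ENNReal.toReal_nonneg
  have hw0 : 0 ≤ w := ENNReal.toReal_nonneg
  have hG0 : 0 ≤ G := ENNReal.toReal_nonneg
  have eG : ∫⁻ ξ, ‖g ξ‖ₑ ^ 2 = ENNReal.ofReal G := (ENNReal.ofReal_toReal hG).symm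
  have ew' : volume (Metric.ball (0 : V) 1) = ENNReal.ofReal w :=
    (ENNReal.ofReal_toReal measure_ball_lt_top.ne).symm
  have ec : C0 = ENNReal.ofReal c := (ENNReal.ofReal_toReal C0_ne_top).symm
  have hN0 : (0 : ℝ) ≤ N := Nat.cast_nonneg N
  clear_value c w G L N
  have h2 : ε * N ≤ (2 * L ^ 2 * Real.sqrt (4 * c * N) + d / 2 ^ j * w * N) * G := by
    have e4 : (4 : ℝ≥0∞) = ENNReal.ofReal 4 := by simp
    have e2 : (2 : ℝ≥0∞) = ENNReal.ofReal 2 := by simp
    have eN : (N : ℝ≥0∞) = ENNReal.ofReal N := (ENNReal.ofReal_natCast N).symm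
    have eL : ((lev d j + 1 : ℕ) : ℝ≥0∞) = ENNReal.ofReal L := by
      rw [hL, ENNReal.ofReal_natCast]
    have hexp : (4 * C0 * (N : ℝ≥0∞)) ^ ((1 : ℝ) / 2) = ENNReal.ofReal (Real.sqrt (4 * c * N)) := by
      rw [ec, e4, eN, ← ENNReal.ofReal_mul (by norm_num), ← ENNReal.ofReal_mul (by positivity),
        ENNReal.ofReal_rpow_of_nonneg (by positivity) (by norm_num), ← Real.sqrt_eq_rpow]
    have hbc : bc d (volume (Metric.ball (0 : V) 1)) j (4 * C0 * N) N =
        ENNReal.ofReal (2 * L ^ 2 * Real.sqrt (4 * c * N) + d / 2 ^ j * w * N) := by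
      unfold bc
      rw [hexp, eL, ew', eN, e2, ← ENNReal.ofReal_pow hL0, ← ENNReal.ofReal_mul (by norm_num),
        ← ENNReal.ofReal_mul (by positivity), ← ENNReal.ofReal_mul (by positivity),
        ← ENNReal.ofReal_mul (by positivity), ← ENNReal.ofReal_mul (by norm_num),
        ← ENNReal.ofReal_add (by positivity) (by positivity)]
      congr 1
      rw [pow_succ 2 j]
      field_simp
    rw [hbc, eG, eN, ← ENNReal.ofReal_mul hε.le, ← ENNReal.ofReal_mul (by positivity),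
      ENNReal.ofReal_le_ofReal_iff (by positivity)] at h1
    exact h1
  rcases Nat.eq_zero_or_pos N with h0 | hpos
  · rw [h0]
    simp only [CharP.cast_eq_zero]
    positivity
  · have hNpos : (0 : ℝ) < N := by exact_mod_cast hpos
    have h3 : (d : ℝ) / 2 ^ j * w * N * G ≤ ε / 2 * N := by
      have := mul_le_mul_of_nonneg_right hj hN0
      linarith
    have h4 : ε * N / 2 ≤ 2 * L ^ 2 * G * Real.sqrt (4 * c * N) := by linarith
    have h5 : (ε * N / 2) ^ 2 ≤ (2 * L ^ 2 * G * Real.sqrt (4 * c * N)) ^ 2 :=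
      pow_le_pow_left₀ (by positivity) h4 2
    rw [mul_pow (2 * L ^ 2 * G), Real.sq_sqrt (by positivity)] at h5
    rw [le_div_iff₀ (by positivity)]
    have h6 : (N : ℝ) * (ε ^ 2 * N) ≤ (64 * c * G ^ 2 * L ^ 4) * N := by nlinarith
    have h7 : ((N : ℝ) * ε ^ 2) * N ≤ (64 * c * G ^ 2 * L ^ 4) * N := by linarith
    exact le_of_mul_le_mul_right h7 hNpos

/-- times at which the weighted majorant is finite in the mean -/
def Good (g : V → ℂ) (t : ℝ) : Prop :=
  ∃ θ : ℝ, 0 < θ ∧ θ < 1 ∧ ∫⁻ x, XX g θ (x, t) ∂(gw 0) ≠ ⊤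

/-- times which are bad infinitely often -/
def Ebad (g : V → ℂ) (δ a : ℝ) : Set ℝ :=
  {t | t ∈ Set.Ico a (a + 1) ∧ ∃ᶠ j : ℕ in atTop, ENNReal.ofReal (((2 : ℝ) ^ (-δ)) ^ j) < wt g j t}

theorem dim_Ebad (g : V → ℂ) (hgm : StronglyMeasurable g) (hg : MemLp g 2)
    (hG : ∫⁻ ξ, ‖g ξ‖ₑ ^ 2 ≠ ⊤) (β : ℝ≥0) (h0 : 0 < β) (h1 : β ≤ 1) (a : ℝ) :
    dimH (Ebad g (β / 4) a) ≤ β := by
  have h0' : (0 : ℝ) < β := by exact_mod_cast h0
  have h1' : (β : ℝ) ≤ 1 := by exact_mod_cast h1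
  set δ : ℝ := β / 4 with hδ
  set ε : ℕ → ℝ := fun j => ((2 : ℝ) ^ (-δ)) ^ j with hε
  have hεpos : ∀ j, 0 < ε j := fun j => by simp only [hε]; positivity
  refine dim_limsup β h0 a (fun j => bad g a (ε j) j) ?_ _ ?_
  · -- summability
    set d := Module.finrank ℝ V with hd
    set w := (volume (Metric.ball (0 : V) 1)).toReal with hw
    set G := (∫⁻ ξ, ‖g ξ‖ₑ ^ 2).toReal with hGr
    set c := C0.toReal with hc
    have hterm : ∀ j : ℕ, ((bad g a (ε j) j).card : ℝ≥0∞) *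
        (ENNReal.ofReal ((2 ^ j)⁻¹)) ^ (β : ℝ) =
        ENNReal.ofReal (((bad g a (ε j) j).card : ℝ) * ((2 : ℝ) ^ (-(β : ℝ))) ^ j) := by
      intro j
      rw [ENNReal.ofReal_mul (by positivity), ENNReal.ofReal_natCast,
        ENNReal.ofReal_rpow_of_nonneg (by positivity) (by positivity)]
      congr 2
      rw [← inv_pow, ← Real.rpow_natCast, ← Real.rpow_mul (by norm_num),
        Real.inv_rpow (by norm_num), ← Real.rpow_neg (by norm_num), ← Real.rpow_natCast,
        ← Real.rpow_mul (by norm_num)]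
      congr 1
      ring
    simp only [hterm]
    refine Summable.tsum_ofReal_ne_top ?_
    have hsum : Summable fun j : ℕ => 64 * c * G ^ 2 * (((lev d j + 1 : ℕ) : ℝ) ^ 4 *
        ((2 : ℝ) ^ (-(β : ℝ) / 2)) ^ j) := by
      refine Summable.mul_left _ (lev_summable d 4 (by positivity) ?_)
      exact Real.rpow_lt_one_of_one_lt_of_neg (by norm_num) (by linarith)
    refine Summable.of_norm_bounded_eventually_nat hsum ?_
    -- eventually the remainder is small
    have hlim : Tendsto (fun j : ℕ => (d : ℝ) * w * G * ((2 : ℝ) ^ (δ - 1)) ^ j) atTop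
        (nhds 0) := by
      have : Tendsto (fun j : ℕ => ((2 : ℝ) ^ (δ - 1)) ^ j) atTop (nhds 0) :=
        tendsto_pow_atTop_nhds_zero_of_lt_one (by positivity)
          (Real.rpow_lt_one_of_one_lt_of_neg (by norm_num) (by rw [hδ]; linarith))
      simpa using this.const_mul ((d : ℝ) * w * G)
    filter_upwards [hlim.eventually (gt_mem_nhds (show (0 : ℝ) < 1 / 2 by norm_num))] with j hj
    have hj' : (d : ℝ) / 2 ^ j * w * G ≤ ε j / 2 := by
      have e1 : ((2 : ℝ) ^ (δ - 1)) ^ j = ((2 : ℝ) ^ (-δ) ^ 1)⁻¹ ^ j * (1 / 2 ^ j) := by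
        rw [pow_one, Real.rpow_sub (by norm_num), Real.rpow_one, Real.rpow_neg (by norm_num),
          inv_inv, div_pow]
        ring
      rw [e1] at hj
      have e2 : ((2 : ℝ) ^ (-δ) ^ 1)⁻¹ ^ j = (ε j)⁻¹ := by
        rw [pow_one, inv_pow]
      rw [e2] at hj
      have h3 : (d : ℝ) / 2 ^ j * w * G = (d * w * G * ((ε j)⁻¹ * (1 / 2 ^ j))) * ε j := by
        have := (hεpos j).ne'
        field_simp
      rw [h3]
      nlinarith [hεpos j]
    have hb := bad_real g hgm hg hG a (ε j) (hεpos j) j hj'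
    rw [Real.norm_of_nonneg (by positivity)]
    calc ((bad g a (ε j) j).card : ℝ) * ((2 : ℝ) ^ (-(β : ℝ))) ^ j
        ≤ (64 * c * G ^ 2 * ((lev d j + 1 : ℕ) : ℝ) ^ 4 / (ε j) ^ 2) *
          ((2 : ℝ) ^ (-(β : ℝ))) ^ j := by gcongr
      _ = 64 * c * G ^ 2 * (((lev d j + 1 : ℕ) : ℝ) ^ 4 *
          (((2 : ℝ) ^ (-(β : ℝ))) ^ j / (ε j) ^ 2)) := by ring
      _ = _ := by
          congr 2
          simp only [hε]
          rw [← pow_mul, mul_comm j 2, pow_mul, ← div_pow]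
          congr 1
          rw [← Real.rpow_natCast, ← Real.rpow_mul (by norm_num), ← Real.rpow_sub (by norm_num)]
          congr 1
          rw [hδ]
          push_cast
          ring
  · rintro t ⟨ht, hfr⟩
    refine hfr.mono fun j hj => ?_
    have h2 : (0 : ℝ) < 2 ^ j := by positivity
    have hx0 : 0 ≤ (t - a) * 2 ^ j := mul_nonneg (by linarith [ht.1]) h2.le
    have hx1 : (t - a) * 2 ^ j < 2 ^ j := by
      have : t - a < 1 := by linarith [ht.2]
      nlinarith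
    have hfl := Nat.floor_le hx0
    have hfl2 := Nat.lt_floor_add_one ((t - a) * 2 ^ j)
    set i := ⌊(t - a) * 2 ^ j⌋₊ with hi
    have hcell : t ∈ cell a j i := by
      unfold cell
      constructor
      · have : (i : ℝ) / 2 ^ j ≤ t - a := by rw [div_le_iff₀ h2]; exact hfl
        linarith
      · have : t - a ≤ ((i : ℝ) + 1) / 2 ^ j := by rw [le_div_iff₀ h2]; exact hfl2.le
        linarith
    refine ⟨i, ?_, hcell⟩
    simp only [bad, Finset.mem_filter, Finset.mem_range]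
    refine ⟨?_, t, hcell, hj⟩
    have : (i : ℝ) < ((2 ^ j : ℕ) : ℝ) := by
      push_cast
      exact lt_of_le_of_lt hfl hx1
    exact_mod_cast this

theorem good_of_not_bad (g : V → ℂ) (hgm : StronglyMeasurable g) (hg : MemLp g 2)
    (hG : ∫⁻ ξ, ‖g ξ‖ₑ ^ 2 ≠ ⊤) (δ a t : ℝ) (hδ : 0 < δ) (hta : t ∈ Set.Ico a (a + 1))
    (ht : t ∉ Ebad g δ a) : Good g t := by
  have h1 : ∀ᶠ j : ℕ in atTop, wt g j t ≤ ENNReal.ofReal (((2 : ℝ) ^ (-δ)) ^ j) := by
    by_contra hcon
    apply ht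
    refine ⟨hta, ?_⟩
    rw [Filter.not_eventually] at hcon
    exact hcon.mono fun j hj => not_le.1 hj
  refine ⟨(2 : ℝ) ^ (-δ / 4), by positivity,
    Real.rpow_lt_one_of_one_lt_of_neg (by norm_num) (by linarith), ?_⟩
  have h2 : ∫⁻ x, XX g ((2 : ℝ) ^ (-δ / 4)) (x, t) ∂(gw 0) =
      ∑' j : ℕ, ENNReal.ofReal (((((2 : ℝ) ^ (-δ / 4)) ^ 2)⁻¹) ^ j) * wt g j t := by
    unfold XX wt
    have hm : ∀ j : ℕ, Measurable fun x : V => W g j (x, t) := fun j =>
      (W_meas g hgm j).comp measurable_prodMk_right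
    rw [lintegral_tsum fun j => ((hm j).const_mul _).aemeasurable]
    exact tsum_congr fun j => lintegral_const_mul _ (hm j)
  rw [h2]
  have hr : ∀ j : ℕ, wt g j t = ENNReal.ofReal (wt g j t).toReal := fun j =>
    (ENNReal.ofReal_toReal (wt_ne_top g hgm hg hG j t)).symm
  have h3 : ∀ j : ℕ, ENNReal.ofReal (((((2 : ℝ) ^ (-δ / 4)) ^ 2)⁻¹) ^ j) * wt g j t =
      ENNReal.ofReal ((((((2 : ℝ) ^ (-δ / 4)) ^ 2)⁻¹) ^ j) * (wt g j t).toReal) := by
    intro j
    rw [ENNReal.ofReal_mul (by positivity), ← hr j]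
  simp only [h3]
  refine Summable.tsum_ofReal_ne_top ?_
  have hsum : Summable fun j : ℕ => ((2 : ℝ) ^ (-δ / 2)) ^ j :=
    summable_geometric_of_lt_one (by positivity)
      (Real.rpow_lt_one_of_one_lt_of_neg (by norm_num) (by linarith))
  refine Summable.of_norm_bounded_eventually_nat hsum ?_
  filter_upwards [h1] with j hj
  have h4 : (wt g j t).toReal ≤ ((2 : ℝ) ^ (-δ)) ^ j := by
    have := ENNReal.toReal_mono ENNReal.ofReal_ne_top hj
    rwa [ENNReal.toReal_ofReal (by positivity)] at this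
  rw [Real.norm_of_nonneg (by positivity)]
  calc ((((2 : ℝ) ^ (-δ / 4)) ^ 2)⁻¹) ^ j * (wt g j t).toReal
      ≤ ((((2 : ℝ) ^ (-δ / 4)) ^ 2)⁻¹) ^ j * ((2 : ℝ) ^ (-δ)) ^ j := by gcongr
    _ = _ := by
      rw [← mul_pow]
      congr 1
      rw [← Real.rpow_natCast, ← Real.rpow_mul (by norm_num), ← Real.rpow_neg (by norm_num),
        ← Real.rpow_add (by norm_num)]
      congr 1
      push_cast
      ring

theorem dim_not_good (g : V → ℂ) (hgm : StronglyMeasurable g) (hg : MemLp g 2)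
    (hG : ∫⁻ ξ, ‖g ξ‖ₑ ^ 2 ≠ ⊤) : dimH {t | ¬ Good g t} = 0 := by
  have key : ∀ β : ℝ≥0, 0 < β → β ≤ 1 → dimH {t | ¬ Good g t} ≤ β := by
    intro β h0 h1
    have hsub : {t | ¬ Good g t} ⊆ ⋃ k : ℤ, Ebad g ((β : ℝ) / 4) k := by
      intro t ht
      rw [Set.mem_iUnion]
      refine ⟨⌊t⌋, ?_⟩
      by_contra hcon
      apply ht
      refine good_of_not_bad g hgm hg hG ((β : ℝ) / 4) ⌊t⌋ t ?_ ?_ hcon
      · have : (0 : ℝ) < β := by exact_mod_cast h0
        linarith
      · exact ⟨Int.floor_le t, Int.lt_floor_add_one t⟩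
    refine (dimH_mono hsub).trans ?_
    rw [dimH_iUnion]
    exact iSup_le fun k => dim_Ebad g hgm hg hG β h0 h1 k
  refine le_antisymm ?_ zero_le
  refine ENNReal.le_of_forall_pos_le_add fun β hβ _ => ?_
  rw [zero_add]
  rcases le_total β 1 with h | h
  · exact key β hβ h
  · exact (key 1 one_pos le_rfl).trans (by exact_mod_cast h)

end Q89.MS
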