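import Pool.Agent.Q89.MS.A10

/-! The partial integrals as inverse Fourier transforms in `L^2`, and identification of the
pointwise limit. -/

open MeasureTheory ComplexConjugate Complex Filter
open scoped ENNReal Real InnerProductSpace NNReal FourierTransform SchwartzMap ContDiff

namespace Q89.MS

variable {V : Type*} [NormedAddCommGroup V] [InnerProductSpace ℝ V] [FiniteDimensional ℝ V]
  [MeasurableSpace V] [BorelSpace V]

theorem cont_neg_inner : Continuous fun p : V × V => ((-innerₗ V) p.1) p.2 := by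
  have : (fun p : V × V => ((-innerₗ V) p.1) p.2) = fun p => -⟪p.1, p.2⟫_ℝ := by
    funext p; simp
  rw [this]
  exact continuous_inner.neg

theorem fourierInv_ae (h : Lp ℂ 2 (volume : Measure V)) (hi : Integrable (h : V → ℂ)) :
    ((𝓕⁻ h : Lp ℂ 2 (volume : Measure V)) : V → ℂ) =ᵐ[volume] 𝓕⁻ (h : V → ℂ) := by
  have hcont : Continuous (𝓕⁻ (h : V → ℂ)) :=
    VectorFourier.fourierIntegral_continuous (L := -innerₗ V) Real.continuous_fourierChar
      cont_neg_inner hi
  have key := ae_eq_of_integral_contDiff_smul_eq (μ := (volume : Measure V))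
    (f := ((𝓕⁻ h : Lp ℂ 2 (volume : Measure V)) : V → ℂ)) (f' := 𝓕⁻ (h : V → ℂ))
    ((Lp.memLp (𝓕⁻ h : Lp ℂ 2 (volume : Measure V))).locallyIntegrable (by norm_num))
    hcont.locallyIntegrable ?_
  · exact key
  intro g hg hgc
  have hg₁ : HasCompactSupport (Complex.ofRealCLM ∘ g) := hgc.comp_left rfl
  have hg₂ : ContDiff ℝ (⊤ : ℕ∞) (Complex.ofRealCLM ∘ g) := by fun_prop
  set gS := hg₁.toSchwartzMap hg₂ with hgS
  have h1 : ∫ x, g x • ((𝓕⁻ h : Lp ℂ 2 (volume : Measure V)) : V → ℂ) x =
      Lp.toTemperedDistribution (𝓕⁻ h : Lp ℂ 2 (volume : Measure V)) gS := by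
    rw [Lp.toTemperedDistribution_apply]
    rfl
  have h2 : Lp.toTemperedDistribution (𝓕⁻ h : Lp ℂ 2 (volume : Measure V)) gS =
      ∫ x, (𝓕⁻ gS) x • h x := by
    rw [← Lp.fourierInv_toTemperedDistribution_eq, TemperedDistribution.fourierInv_apply,
      Lp.toTemperedDistribution_apply]
  have h3 : ∫ x, g x • (𝓕⁻ (h : V → ℂ)) x = ∫ x, gS x • (𝓕⁻ (h : V → ℂ)) x := rfl
  rw [h1, h2, h3, SchwartzMap.fourierInv_coe]
  have hf := VectorFourier.integral_fourierIntegral_smul_eq_flip (L := -innerₗ V)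
    (μ := (volume : Measure V)) (ν := (volume : Measure V))
    Real.continuous_fourierChar cont_neg_inner (gS.integrable) hi
  have hflip : (-innerₗ V).flip = -innerₗ V := by
    ext x y
    simp [real_inner_comm]
  rw [hflip] at hf
  exact hf

/-- the partial Fourier integral over the ball of radius `R` of `u ∈ L^2` -/
noncomputable def ballSum (u : Lp ℂ 2 (volume : Measure V)) (R : ℝ) (x : V) : ℂ :=
  ∫ ξ in Metric.closedBall (0 : V) R,
    Real.fourierChar ⟪x, ξ⟫_ℝ • (𝓕 u : Lp ℂ 2 (volume : Measure V)) ξ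

/-- the maximal partial Fourier integral -/
noncomputable def maxBallSum (u : Lp ℂ 2 (volume : Measure V)) (x : V) : ℝ≥0∞ :=
  ⨆ R : Set.Ioi (0 : ℝ), ‖ballSum u R x‖ₑ

theorem trunc_tendsto (g : V → ℂ) (hg : MemLp g 2) :
    Tendsto (fun k : ℕ => eLpNorm ((Metric.closedBall (0 : V) k).indicator g - g) 2 volume) atTop
      (nhds 0) := by
  have h1 : ∀ k : ℕ, eLpNorm ((Metric.closedBall (0 : V) k).indicator g - g) 2 volume =
      (∫⁻ x, ‖((Metric.closedBall (0 : V) k).indicator g - g) x‖ₑ ^ (2 : ℝ)) ^ ((1 : ℝ) / 2) := by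
    intro k
    rw [eLpNorm_eq_lintegral_rpow_enorm_toReal (by norm_num) (by norm_num)]
    simp
  simp only [h1]
  have h2 : Tendsto (fun k : ℕ =>
      ∫⁻ x, ‖((Metric.closedBall (0 : V) k).indicator g - g) x‖ₑ ^ (2 : ℝ)) atTop
      (nhds (∫⁻ _ : V, 0)) := by
    refine tendsto_lintegral_of_dominated_convergence' (fun x => ‖g x‖ₑ ^ (2 : ℝ)) ?_ ?_ ?_ ?_
    · intro k
      refine AEMeasurable.pow_const ?_ _
      refine AEStronglyMeasurable.enorm ?_
      exact (hg.aestronglyMeasurable.indicator Metric.isClosed_closedBall.measurableSet).sub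
        hg.aestronglyMeasurable
    · intro k
      refine Eventually.of_forall fun x => ?_
      refine ENNReal.rpow_le_rpow ?_ (by norm_num)
      simp only [Pi.sub_apply, Set.indicator]
      split_ifs <;> simp
    · have h3 := hg.eLpNorm_lt_top
      rw [eLpNorm_lt_top_iff_lintegral_rpow_enorm_lt_top (by norm_num) (by norm_num)] at h3
      simpa using h3.ne
    · refine Eventually.of_forall fun x => ?_
      refine tendsto_const_nhds.congr' ?_
      obtain ⟨K, hK⟩ := exists_nat_ge ‖x‖
      filter_upwards [eventually_ge_atTop K] with k hk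
      have hx : x ∈ Metric.closedBall (0 : V) k := by
        rw [Metric.mem_closedBall, dist_zero_right]
        exact hK.trans (by exact_mod_cast hk)
      simp [Set.indicator_of_mem hx]
  have h4 := (ENNReal.continuous_rpow_const (y := (1 : ℝ) / 2)).tendsto (∫⁻ _ : V, 0)
  have h5 := h4.comp h2
  rw [lintegral_zero, ENNReal.zero_rpow_of_pos (by norm_num)] at h5
  exact h5

theorem limit_eq (u : Lp ℂ 2 (volume : Measure V)) :
    ∀ᵐ x : V, ∀ l : ℂ, Tendsto (fun R => ballSum u R x) atTop (nhds l) → l = u x := by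
  set U : Lp ℂ 2 (volume : Measure V) := 𝓕 u with hU
  have hgL : MemLp (U : V → ℂ) 2 := Lp.memLp _
  have hmeas : ∀ k : ℕ, MeasurableSet (Metric.closedBall (0 : V) k) := fun k =>
    Metric.isClosed_closedBall.measurableSet
  have hind : ∀ k : ℕ, MemLp ((Metric.closedBall (0 : V) k).indicator (U : V → ℂ)) 2 := fun k =>
    hgL.indicator (hmeas k)
  set h : ℕ → Lp ℂ 2 (volume : Measure V) := fun k => (hind k).toLp _ with hh
  have hconv : Tendsto h atTop (nhds U) := by
    rw [Lp.tendsto_Lp_iff_tendsto_eLpNorm']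
    have e1 : ∀ k, eLpNorm (⇑(h k) - ⇑U) 2 volume =
        eLpNorm ((Metric.closedBall (0 : V) k).indicator (U : V → ℂ) - (U : V → ℂ)) 2 volume := by
      intro k
      refine eLpNorm_congr_ae ?_
      filter_upwards [(hind k).coeFn_toLp] with x hx
      simp only [Pi.sub_apply, hh, hx]
    simp only [e1]
    exact trunc_tendsto _ hgL
  have hinv : Tendsto (fun k => (𝓕⁻ (h k) : Lp ℂ 2 (volume : Measure V))) atTop (nhds u) := by
    have h1 : Continuous (fun v : Lp ℂ 2 (volume : Measure V) =>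
        (𝓕⁻ v : Lp ℂ 2 (volume : Measure V))) :=
      (Lp.fourierTransformₗᵢ V ℂ).symm.continuous
    have h2 := (h1.tendsto U).comp hconv
    have h3 : (𝓕⁻ U : Lp ℂ 2 (volume : Measure V)) = u := by
      rw [hU]; exact FourierTransform.fourierInv_fourier_eq u
    rw [h3] at h2
    exact h2
  obtain ⟨ns, hns, hae⟩ := (tendstoInMeasure_of_tendsto_Lp hinv).exists_seq_tendsto_ae
  have hall : ∀ᵐ x : V, ∀ k : ℕ, (𝓕⁻ (h k) : Lp ℂ 2 (volume : Measure V)) x = ballSum u k x := by
    rw [ae_all_iff]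
    intro k
    have hint : Integrable ((Metric.closedBall (0 : V) k).indicator (U : V → ℂ)) := by
      rw [integrable_indicator_iff (hmeas k)]
      exact intOn _ hgL k
    have hi : Integrable (h k : V → ℂ) := hint.congr (hind k).coeFn_toLp.symm
    filter_upwards [fourierInv_ae (h k) hi] with x hx
    rw [hx, Real.fourierInv_congr_ae (hind k).coeFn_toLp x, Real.fourierInv_eq]
    unfold ballSum
    rw [← integral_indicator (hmeas k)]
    refine integral_congr_ae (Eventually.of_forall fun ξ => ?_)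
    simp only [Set.indicator]
    split_ifs
    · rw [real_inner_comm]
    · simp
  filter_upwards [hae, hall] with x hx1 hx2 l hl
  have h1 : Tendsto (fun i => ballSum u ((ns i : ℕ) : ℝ) x) atTop (nhds l) :=
    hl.comp (tendsto_natCast_atTop_atTop.comp hns.tendsto_atTop)
  have h2 : Tendsto (fun i => ballSum u ((ns i : ℕ) : ℝ) x) atTop (nhds (u x)) := by
    refine hx1.congr fun i => ?_
    rw [hx2]
  exact tendsto_nhds_unique h1 h2

end Q89.MS
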