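import Pool.Agent.Q89.MS.A8

/-! One big block of radii, and the maximal inequality with logarithmic dependence on the Frostman
constant. -/

open MeasureTheory ComplexConjugate Complex
open scoped ENNReal Real InnerProductSpace

namespace Q89.MS

variable {V : Type*} [NormedAddCommGroup V] [InnerProductSpace ℝ V] [FiniteDimensional ℝ V]
  [MeasurableSpace V] [BorelSpace V]

/-- subdivision of the block `[1, 2^J]` -/
noncomputable def rd (J P k : ℕ) : ℝ := 1 + k * ((2 ^ J - 1) / 2 ^ P)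

theorem two_pow_ge (J : ℕ) : (0 : ℝ) ≤ 2 ^ J - 1 := by
  have : (1 : ℝ) ≤ 2 ^ J := one_le_pow₀ (by norm_num)
  linarith

theorem rd_mono (J P : ℕ) : Monotone (rd J P) := by
  intro a b hab
  unfold rd
  have h1 : (a : ℝ) ≤ b := by exact_mod_cast hab
  have h2 : (0 : ℝ) ≤ (2 ^ J - 1) / 2 ^ P := div_nonneg (two_pow_ge J) (by positivity)
  gcongr

theorem rd_ge (J P k : ℕ) : 1 ≤ rd J P k := by
  unfold rd
  have h2 : (0 : ℝ) ≤ (2 ^ J - 1) / 2 ^ P := div_nonneg (two_pow_ge J) (by positivity)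
  have : (0 : ℝ) ≤ k * ((2 ^ J - 1) / 2 ^ P) := by positivity
  linarith

theorem rd_pos (J P k : ℕ) : 0 < rd J P k := lt_of_lt_of_le one_pos (rd_ge J P k)

theorem rd_zero (J P : ℕ) : rd J P 0 = 1 := by simp [rd]

theorem rd_top (J P : ℕ) : rd J P (2 ^ P) = 2 ^ J := by
  unfold rd
  push_cast
  field_simp
  ring

theorem rd_vol (J k : ℕ) (hk : k < 2 ^ (Module.finrank ℝ V * J)) :
    volume (cB V (rd J (Module.finrank ℝ V * J) (k + 1)) \
      cB V (rd J (Module.finrank ℝ V * J) k)) ≤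
      ENNReal.ofReal (Module.finrank ℝ V : ℝ) * volume (Metric.ball (0 : V) 1) := by
  set d := Module.finrank ℝ V with hd
  set P := d * J with hP
  refine (vol_annulus (rd_pos _ _ _).le (rd_mono _ _ (Nat.le_succ k))).trans ?_
  gcongr
  rw [← hd]
  have h1 : rd J P (k + 1) - rd J P k = (2 ^ J - 1) / 2 ^ P := by
    unfold rd; push_cast; ring
  have h2 : rd J P (k + 1) ≤ 2 ^ J := by
    rw [← rd_top J P]
    exact rd_mono _ _ hk
  rw [h1]
  have h3 : rd J P (k + 1) ^ (d - 1) ≤ (2 ^ J) ^ (d - 1) :=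
    pow_le_pow_left₀ (rd_pos _ _ _).le h2 _
  have h0 := two_pow_ge J
  have hc0 : 0 ≤ rd J P (k + 1) ^ (d - 1) := pow_nonneg (rd_pos J P (k + 1)).le _
  calc ((2 : ℝ) ^ J - 1) / 2 ^ P * d * rd J P (k + 1) ^ (d - 1)
      ≤ 2 ^ J / 2 ^ P * d * (2 ^ J) ^ (d - 1) := by
        gcongr
        linarith
    _ ≤ (d : ℝ) := by
      rcases Nat.eq_zero_or_pos d with h0 | hpos
      · rw [h0]; simp
      · have h4 : (2 : ℝ) ^ J * (2 ^ J) ^ (d - 1) = 2 ^ P := by
          rw [← pow_mul, ← pow_add, hP]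
          congr 1
          obtain ⟨e, he⟩ : ∃ e, d = e + 1 := ⟨d - 1, by omega⟩
          rw [he, Nat.add_sub_cancel]
          ring
        have h5 : (2 : ℝ) ^ J / 2 ^ P * d * (2 ^ J) ^ (d - 1) =
            d * ((2 ^ J * (2 ^ J) ^ (d - 1)) / 2 ^ P) := by ring
        rw [h5, h4, div_self (by positivity), mul_one]

/-- measurable majorant of the maximal function over the radii in `[1, 2^J]` -/
noncomputable def WB (g : V → ℂ) (J : ℕ) (p : V × ℝ) : ℝ≥0∞ :=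
  2 * ((Module.finrank ℝ V * J + 1 : ℕ) * ENNReal.ofReal (Q (Module.finrank ℝ V * J)
    (fun k => SS g (rd J (Module.finrank ℝ V * J) k) p))) +
  2 * (ENNReal.ofReal (Module.finrank ℝ V : ℝ) *
    volume (Metric.ball (0 : V) 1) * ∫⁻ ξ, ‖g ξ‖ₑ ^ 2)

theorem WB_ge (g : V → ℂ) (hg : MemLp g 2) (J : ℕ) (p : V × ℝ) {R : ℝ} (h1 : 1 ≤ R)
    (h2 : R ≤ 2 ^ J) : ‖SS g R p - SS g 1 p‖ₑ ^ 2 ≤ WB g J p := by
  set d := Module.finrank ℝ V with hd
  set P := d * J with hP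
  have h0 := two_pow_ge J
  obtain ⟨k, hk1, hk2, hk3⟩ : ∃ k : ℕ, k ≤ 2 ^ P ∧ rd J P k ≤ R ∧
      (k < 2 ^ P → R ≤ rd J P (k + 1)) := by
    rcases eq_or_lt_of_le h0 with h00 | h00
    · refine ⟨0, by positivity, ?_, ?_⟩
      · rw [rd_zero]; exact h1
      · intro _
        have : R = 1 := le_antisymm (by linarith) h1
        rw [this]; exact rd_ge _ _ _
    set x : ℝ := (R - 1) * 2 ^ P / (2 ^ J - 1) with hx
    have hx0 : 0 ≤ x := by
      have : 0 ≤ R - 1 := by linarith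
      positivity
    have hx1 : x ≤ 2 ^ P := by
      rw [hx, div_le_iff₀ h00]
      have : R - 1 ≤ 2 ^ J - 1 := by linarith
      nlinarith [pow_pos (show (0 : ℝ) < 2 by norm_num) P]
    have hR : R = 1 + x * ((2 ^ J - 1) / 2 ^ P) := by
      rw [hx]; field_simp; ring
    refine ⟨⌊x⌋₊, ?_, ?_, ?_⟩
    · have := Nat.floor_le hx0
      have h3 : ((⌊x⌋₊ : ℕ) : ℝ) ≤ ((2 ^ P : ℕ) : ℝ) := by push_cast; linarith
      exact_mod_cast h3
    · rw [hR]; unfold rd
      have := Nat.floor_le hx0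
      gcongr
    · intro _
      have h4 := (Nat.lt_floor_add_one x).le
      have h5 : x * ((2 ^ J - 1) / 2 ^ P) ≤ ((⌊x⌋₊ : ℝ) + 1) * ((2 ^ J - 1) / 2 ^ P) :=
        mul_le_mul_of_nonneg_right h4 (by positivity)
      have h6 : rd J P (⌊x⌋₊ + 1) = 1 + ((⌊x⌋₊ : ℝ) + 1) * ((2 ^ J - 1) / 2 ^ P) := by
        unfold rd; push_cast; ring
      rw [h6]
      linarith
  have hrm := rademacher_menshov P (fun k => SS g (rd J P k) p) k hk1
  simp only [rd_zero] at hrm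
  have hrem : ‖SS g R p - SS g (rd J P k) p‖ₑ ^ 2 ≤
      ENNReal.ofReal (d : ℝ) * volume (Metric.ball (0 : V) 1) *
        ∫⁻ ξ, ‖g ξ‖ₑ ^ 2 := by
    rcases lt_or_eq_of_le hk1 with hlt | heq
    · have h6 := hk3 hlt
      have h7 := SS_diff_vol g hg hk2 p
      refine h7.trans ?_
      gcongr
      refine (measure_mono ?_).trans (rd_vol (V := V) J k hlt)
      exact Set.sdiff_subset_sdiff_left (Metric.closedBall_subset_closedBall h6)
    · have h8 : R = rd J P k := by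
        refine le_antisymm ?_ hk2
        rw [heq, rd_top]; exact h2
      rw [h8, sub_self]
      simp
  have h9 := enorm_sub_sq_le (SS g R p) (SS g (rd J P k) p) (SS g 1 p)
  refine h9.trans ?_
  unfold WB
  rw [← hd, ← hP]
  gcongr
  rw [← ofReal_norm, ← ENNReal.ofReal_pow (norm_nonneg _), ← ENNReal.ofReal_natCast,
    ← ENNReal.ofReal_mul (by positivity)]
  refine ENNReal.ofReal_le_ofReal ?_
  push_cast at hrm ⊢
  exact hrm

theorem WB_meas (g : V → ℂ) (hgm : StronglyMeasurable g) (J : ℕ) : Measurable (WB g J) := by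
  have h1 : Measurable fun p : V × ℝ => ENNReal.ofReal (Q (Module.finrank ℝ V * J)
      (fun k => SS g (rd J (Module.finrank ℝ V * J) k) p)) :=
    (Q_meas _ (fun k p => SS g (rd J (Module.finrank ℝ V * J) k) p)
      (fun i => SS_meas g hgm _)).ennreal_ofReal
  unfold WB
  exact ((h1.const_mul _).const_mul _).add measurable_const

theorem WB_int (μ : Measure ℝ) [IsFiniteMeasure μ] (y : V) (g : V → ℂ)
    (hgm : StronglyMeasurable g) (hg : MemLp g 2) (J : ℕ) :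
    ∫⁻ p, WB g J p ∂((gw y).prod μ) ≤
      (2 * ((Module.finrank ℝ V * J + 1 : ℕ) : ℝ≥0∞) ^ 2 *
        (energy μ 1) ^ ((1 : ℝ) / 2) +
      2 * (ENNReal.ofReal (Module.finrank ℝ V : ℝ) *
        volume (Metric.ball (0 : V) 1) * μ Set.univ)) * ∫⁻ ξ, ‖g ξ‖ₑ ^ 2 := by
  set d := Module.finrank ℝ V with hd
  set P := d * J with hP
  have hQm := Q_meas P (fun k p => SS g (rd J P k) p) (fun i => SS_meas g hgm _)
  have hQ := Q_integral ((gw y).prod μ) ((energy μ 1) ^ ((1 : ℝ) / 2)) P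
    (fun k p => SS g (rd J P k) p)
    (fun i => ∫⁻ ξ in cB V (rd J P (i + 1)) \ cB V (rd J P i), ‖g ξ‖ₑ ^ 2)
    (fun i => SS_meas g hgm _) (by
      intro a b hab
      rw [← sum_annuli g (rd J P) (rd_mono J P) a b hab]
      refine (SS_local μ y g hg (rd_pos J P a).le (rd_mono J P hab)).trans ?_
      gcongr
      exact energy_anti μ (by positivity) (rd_ge J P a))
  rw [← Nat.Ico_zero_eq_range,
    ← sum_annuli g (rd J P) (rd_mono J P) 0 (2 ^ P) (by positivity)] at hQ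
  have hle : ∫⁻ ξ in cB V (rd J P (2 ^ P)) \ cB V (rd J P 0), ‖g ξ‖ₑ ^ 2 ≤
      ∫⁻ ξ, ‖g ξ‖ₑ ^ 2 := lintegral_mono' Measure.restrict_le_self le_rfl
  unfold WB
  rw [← hd, ← hP]
  rw [lintegral_add_right _ measurable_const, lintegral_const_mul _ (hQm.ennreal_ofReal.const_mul _),
    lintegral_const_mul _ hQm.ennreal_ofReal, lintegral_const, add_mul]
  refine add_le_add ?_ (le_of_eq ?_)
  · calc 2 * (((P + 1 : ℕ) : ℝ≥0∞) * ∫⁻ p, ENNReal.ofReal (Q P fun k => SS g (rd J P k) p)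
          ∂((gw y).prod μ))
        ≤ 2 * (((P + 1 : ℕ) : ℝ≥0∞) * ((energy μ 1) ^ ((1 : ℝ) / 2) * (P + 1) *
          ∫⁻ ξ, ‖g ξ‖ₑ ^ 2)) := by
          gcongr
          exact hQ.trans (by gcongr)
      _ = _ := by push_cast; ring
  · have : ((gw y).prod μ) Set.univ = μ Set.univ := by
      rw [← Set.univ_prod_univ, Measure.prod_prod, gw_univ, one_mul]
    rw [this]
    ring

/-- weighted sum of the block majorants after the block `J` -/
noncomputable def XJ (g : V → ℂ) (θ : ℝ) (J : ℕ) (p : V × ℝ) : ℝ≥0∞ :=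
  ∑' j : ℕ, ENNReal.ofReal (((θ ^ 2)⁻¹) ^ j) * W g (J + j) p

theorem XJ_meas (g : V → ℂ) (hgm : StronglyMeasurable g) (θ : ℝ) (J : ℕ) :
    Measurable (XJ g θ J) := by
  unfold XJ
  exact Measurable.tsum fun j => (W_meas g hgm (J + j)).const_mul _

theorem blockJ_le (g : V → ℂ) (hg : MemLp g 2) (θ : ℝ) (h0 : 0 < θ) (J : ℕ) (p : V × ℝ)
    (hX : XJ g θ J p ≠ ⊤) (j : ℕ) (R : ℝ) (h1 : 2 ^ (J + j) ≤ R) (h2 : R ≤ 2 ^ (J + j + 1)) :
    ‖SS g R p - SS g (2 ^ (J + j)) p‖ ≤ θ ^ j * Real.sqrt (XJ g θ J p).toReal := by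
  have h3 := W_ge g hg (J + j) p h1 h2
  have h4 : ENNReal.ofReal (((θ ^ 2)⁻¹) ^ j) * W g (J + j) p ≤ XJ g θ J p := by
    unfold XJ
    exact ENNReal.le_tsum j
  have h5 : W g (J + j) p ≤ ENNReal.ofReal ((θ ^ 2) ^ j) * XJ g θ J p := by
    have h6 : ENNReal.ofReal ((θ ^ 2) ^ j) *
        (ENNReal.ofReal (((θ ^ 2)⁻¹) ^ j) * W g (J + j) p) = W g (J + j) p := by
      rw [← mul_assoc, ← ENNReal.ofReal_mul (by positivity), ← mul_pow,
        mul_inv_cancel₀ (by positivity), one_pow, ENNReal.ofReal_one, one_mul]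
    calc W g (J + j) p = ENNReal.ofReal ((θ ^ 2) ^ j) *
          (ENNReal.ofReal (((θ ^ 2)⁻¹) ^ j) * W g (J + j) p) := h6.symm
      _ ≤ _ := by gcongr
  have h7 := h3.trans h5
  have h8 : ‖SS g R p - SS g (2 ^ (J + j)) p‖ ^ 2 ≤ (θ ^ 2) ^ j * (XJ g θ J p).toReal := by
    rw [← ENNReal.ofReal_toReal hX, ← ENNReal.ofReal_mul (by positivity), ← ofReal_norm,
      ← ENNReal.ofReal_pow (norm_nonneg _)] at h7
    rwa [ENNReal.ofReal_le_ofReal_iff (by positivity)] at h7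
  have h9 : (θ ^ 2) ^ j * (XJ g θ J p).toReal = (θ ^ j * Real.sqrt (XJ g θ J p).toReal) ^ 2 := by
    rw [mul_pow, Real.sq_sqrt ENNReal.toReal_nonneg, ← pow_mul, ← pow_mul, mul_comm 2 j]
  rw [h9] at h8
  exact (sq_le_sq₀ (norm_nonneg _) (by positivity)).1 h8

theorem tailJ_le (g : V → ℂ) (hg : MemLp g 2) (θ : ℝ) (h0 : 0 < θ) (h1 : θ < 1) (J : ℕ)
    (p : V × ℝ) (R : ℝ) (hR : 2 ^ J ≤ R) :
    ‖SS g R p - SS g (2 ^ J) p‖ₑ ^ 2 ≤ ENNReal.ofReal (((1 - θ)⁻¹) ^ 2) * XJ g θ J p := by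
  have hθ : 0 < 1 - θ := by linarith
  rcases eq_or_ne (XJ g θ J p) ⊤ with hX | hX
  · rw [hX, ENNReal.mul_top (by
      rw [Ne, ENNReal.ofReal_eq_zero, not_le]; positivity)]
    simp
  have hb := blockJ_le g hg θ h0 J p hX
  have h2 := chain_blocks (fun R => SS g (2 ^ J * R) p) θ (Real.sqrt (XJ g θ J p).toReal) h0 h1
    (Real.sqrt_nonneg _) (by
      intro j R' h3 h4
      have h5 := hb j (2 ^ J * R') (by rw [pow_add]; gcongr) (by
        rw [show J + j + 1 = J + (j + 1) by ring, pow_add]; gcongr)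
      rw [pow_add] at h5
      exact h5) 0 (R / 2 ^ J) (by
      rw [pow_zero, le_div_iff₀ (by positivity), one_mul]; exact hR)
  simp only [pow_zero, mul_one] at h2
  rw [mul_div_cancel₀ R (by positivity)] at h2
  rw [← ofReal_norm, ← ENNReal.ofReal_pow (norm_nonneg _)]
  calc ENNReal.ofReal (‖SS g R p - SS g (2 ^ J) p‖ ^ 2)
      ≤ ENNReal.ofReal ((Real.sqrt (XJ g θ J p).toReal * (1 / (1 - θ))) ^ 2) := by
        refine ENNReal.ofReal_le_ofReal ?_
        exact pow_le_pow_left₀ (norm_nonneg _) h2 2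
    _ = ENNReal.ofReal (((1 - θ)⁻¹) ^ 2 * (XJ g θ J p).toReal) := by
        congr 1
        rw [mul_pow, Real.sq_sqrt ENNReal.toReal_nonneg, one_div]
        ring
    _ = _ := by
        rw [ENNReal.ofReal_mul (by positivity), ENNReal.ofReal_toReal hX]

/-- pointwise majorant of the square of the maximal function -/
noncomputable def HH (g : V → ℂ) (θ : ℝ) (J : ℕ) (p : V × ℝ) : ℝ≥0∞ :=
  2 * (volume (cB V 1) * ∫⁻ ξ, ‖g ξ‖ₑ ^ 2) +
    2 * (2 * WB g J p + 2 * (ENNReal.ofReal (((1 - θ)⁻¹) ^ 2) * XJ g θ J p))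

theorem maxJ_le (g : V → ℂ) (hg : MemLp g 2) (θ : ℝ) (h0 : 0 < θ) (h1 : θ < 1) (J : ℕ)
    (p : V × ℝ) : maxS g p ^ 2 ≤ HH g θ J p := by
  have hone : ∀ R : ℝ, ‖SS g R p‖ₑ ^ 2 ≤ HH g θ J p := by
    intro R
    unfold HH
    rcases le_or_gt R 1 with hR | hR
    · have h2 := SS_vol g hg R p
      have h3 : volume (cB V R) ≤ volume (cB V 1) :=
        measure_mono (Metric.closedBall_subset_closedBall hR)
      calc ‖SS g R p‖ₑ ^ 2 ≤ volume (cB V R) * ∫⁻ ξ, ‖g ξ‖ₑ ^ 2 := h2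
        _ ≤ volume (cB V 1) * ∫⁻ ξ, ‖g ξ‖ₑ ^ 2 := by gcongr
        _ ≤ 2 * (volume (cB V 1) * ∫⁻ ξ, ‖g ξ‖ₑ ^ 2) := by
            rw [two_mul]; exact le_self_add
        _ ≤ _ := le_self_add
    · have h3 := SS_vol g hg 1 p
      have h4 := enorm_sub_sq_le (SS g R p) (SS g 1 p) 0
      simp only [sub_zero] at h4
      refine h4.trans (add_le_add (by gcongr) ?_)
      gcongr
      rcases le_or_gt R (2 ^ J) with hRJ | hRJ
      · refine (WB_ge g hg J p hR.le hRJ).trans ?_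
        rw [two_mul, add_assoc]
        exact le_self_add
      · have h5 := enorm_sub_sq_le (SS g R p) (SS g (2 ^ J) p) (SS g 1 p)
        refine h5.trans (add_le_add ?_ ?_)
        · gcongr
          exact WB_ge g hg J p (one_le_pow₀ (by norm_num)) le_rfl
        · gcongr
          exact tailJ_le g hg θ h0 h1 J p R hRJ.le
  unfold maxS
  rw [ENNReal.iSup_pow]
  exact iSup_le hone

theorem HH_meas (g : V → ℂ) (hgm : StronglyMeasurable g) (θ : ℝ) (J : ℕ) :
    Measurable (HH g θ J) := by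
  unfold HH
  exact measurable_const.add ((((WB_meas g hgm J).const_mul _).add
    (((XJ_meas g hgm θ J).const_mul _).const_mul _)).const_mul _)

end Q89.MS
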