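import Pool.Agent.Q89.MS.A13
import Pool.Agent.Q89.MS.A12

/-! The maximal inequality on balls of arbitrary radius: scaling. -/

open MeasureTheory ComplexConjugate Complex Filter
open scoped ENNReal Real InnerProductSpace NNReal FourierTransform Pointwise

namespace Q89.MS

variable {V : Type*} [NormedAddCommGroup V] [InnerProductSpace ℝ V] [FiniteDimensional ℝ V]
  [MeasurableSpace V] [BorelSpace V]

theorem energy_le_one (μ : Measure ℝ) (hμ : μ Set.univ ≤ 1) (ρ : ℝ) : energy μ ρ ≤ 1 := by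
  unfold energy
  calc ∫⁻ t, ∫⁻ t', ENNReal.ofReal (damp ρ (t - t')) ∂μ ∂μ ≤ ∫⁻ _, ∫⁻ _, 1 ∂μ ∂μ := by
        refine lintegral_mono fun s => lintegral_mono fun s' => ?_
        rw [← ENNReal.ofReal_one]
        refine ENNReal.ofReal_le_ofReal ?_
        unfold damp
        rw [Real.exp_le_one_iff]
        have : 0 ≤ π * ρ ^ 2 *
            ((4 * π ^ 2 * (s - s')) ^ 2 / (π ^ 2 + (4 * π ^ 2 * (s - s')) ^ 2)) := by positivity
        linarith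
    _ = μ Set.univ * μ Set.univ := by simp
    _ ≤ 1 * 1 := by gcongr
    _ = 1 := one_mul 1

theorem energy_frostmanA (μ : Measure ℝ) (a A β : ℝ) (hβ1 : β ≤ 1)
    (hA : 0 ≤ A) (hμ : ∀ᵐ t ∂μ, t ∈ Set.Icc a (a + 1)) (huniv : μ Set.univ ≤ 1)
    (hF : ∀ t r : ℝ, 0 < r → μ (Metric.closedBall t r) ≤ ENNReal.ofReal (A * r ^ β)) (J : ℕ)
    (hJ : A ≤ ((2 : ℝ) ^ J) ^ β) (j : ℕ) :
    energy μ (2 ^ (J + j)) ≤ ENNReal.ofReal (((2 : ℝ) ^ j) ^ (-β)) * C0 := by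
  have h2 : (0 : ℝ) < 2 ^ (J + j) := by positivity
  have h1 := energy_le μ a hμ (2 ^ (J + j)) h2 (ENNReal.ofReal (((2 : ℝ) ^ j) ^ (-β))) (by
    intro t m
    refine (hF t _ (by positivity)).trans ?_
    have h2 : ENNReal.ofReal (((2 : ℝ) ^ j) ^ (-β)) * ((m : ℝ≥0∞) + 1) =
        ENNReal.ofReal (((2 : ℝ) ^ j) ^ (-β) * ((m : ℝ) + 1)) := by
      rw [ENNReal.ofReal_mul (by positivity), ENNReal.ofReal_add (by positivity) (by norm_num),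
        ENNReal.ofReal_natCast, ENNReal.ofReal_one]
    rw [h2]
    refine ENNReal.ofReal_le_ofReal ?_
    rw [Real.div_rpow (by positivity) (by positivity), pow_add,
      Real.mul_rpow (by positivity) (by positivity), Real.rpow_neg (by positivity)]
    have h3 : ((m : ℝ) + 1) ^ β ≤ (m : ℝ) + 1 := by
      calc ((m : ℝ) + 1) ^ β ≤ ((m : ℝ) + 1) ^ (1 : ℝ) :=
            Real.rpow_le_rpow_of_exponent_le (by linarith [(Nat.cast_nonneg m : (0 : ℝ) ≤ m)]) hβ1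
        _ = _ := Real.rpow_one _
    have hp1 : (0 : ℝ) < ((2 : ℝ) ^ J) ^ β := by positivity
    have hp2 : (0 : ℝ) < ((2 : ℝ) ^ j) ^ β := by positivity
    rw [mul_div_assoc', div_le_iff₀ (by positivity)]
    have h4 : (((2 : ℝ) ^ j) ^ β)⁻¹ * ((m : ℝ) + 1) * (((2 : ℝ) ^ J) ^ β * ((2 : ℝ) ^ j) ^ β) =
        ((m : ℝ) + 1) * ((2 : ℝ) ^ J) ^ β := by
      field_simp
    rw [h4, mul_comm]
    exact mul_le_mul h3 hJ hA (by positivity))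
  refine h1.trans ?_
  calc ENNReal.ofReal (((2 : ℝ) ^ j) ^ (-β)) * C0 * μ Set.univ
      ≤ ENNReal.ofReal (((2 : ℝ) ^ j) ^ (-β)) * C0 * 1 := by gcongr
    _ = _ := mul_one _

theorem lev_mul (d J j : ℕ) : lev d (J + j) + 1 ≤ (J + 1) * (lev d j + 1) := by
  unfold lev
  nlinarith [Nat.zero_le (J * j), Nat.zero_le (d * (J * j)), Nat.zero_le J]

theorem bc_shift (d : ℕ) (ω : ℝ≥0∞) (J j : ℕ) (e : ℝ≥0∞) :
    bc d ω (J + j) e 1 ≤ ((J + 1 : ℕ) : ℝ≥0∞) ^ 2 * bc d ω j e 1 := by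
  unfold bc
  rw [mul_add]
  refine add_le_add ?_ ?_
  · have h1 : ((lev d (J + j) + 1 : ℕ) : ℝ≥0∞) ≤ ((J + 1 : ℕ) : ℝ≥0∞) *
        ((lev d j + 1 : ℕ) : ℝ≥0∞) := by exact_mod_cast lev_mul d J j
    calc 2 * ((lev d (J + j) + 1 : ℕ) : ℝ≥0∞) ^ 2 * e ^ ((1 : ℝ) / 2)
        ≤ 2 * (((J + 1 : ℕ) : ℝ≥0∞) * ((lev d j + 1 : ℕ) : ℝ≥0∞)) ^ 2 * e ^ ((1 : ℝ) / 2) := by
          gcongr
      _ = _ := by ring
  · have h2 : ENNReal.ofReal ((d : ℝ) / 2 ^ (J + j + 1)) ≤ ENNReal.ofReal ((d : ℝ) / 2 ^ (j + 1)) := by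
      refine ENNReal.ofReal_le_ofReal ?_
      have : (2 : ℝ) ^ (j + 1) ≤ 2 ^ (J + j + 1) := pow_le_pow_right₀ (by norm_num) (by omega)
      gcongr
    have h3 : (1 : ℝ≥0∞) ≤ ((J + 1 : ℕ) : ℝ≥0∞) ^ 2 := by
      refine one_le_pow₀ ?_
      exact_mod_cast Nat.succ_le_succ (Nat.zero_le J)
    calc 2 * (ENNReal.ofReal ((d : ℝ) / 2 ^ (J + j + 1)) * ω * 1)
        ≤ 1 * (2 * (ENNReal.ofReal ((d : ℝ) / 2 ^ (j + 1)) * ω * 1)) := by
          rw [one_mul]; gcongr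
      _ ≤ _ := by gcongr

/-- maximal inequality with logarithmic dependence on the Frostman constant -/
theorem HH_int (β : ℝ) (hβ : 0 < β) (hβ1 : β ≤ 1) (θ : ℝ) (hθ : θ = 2 ^ (-β / 8)) :
    ∃ C : ℝ≥0∞, C ≠ ⊤ ∧ ∀ (g : V → ℂ), StronglyMeasurable g → MemLp g 2 → ∀ (y : V) (a A : ℝ)
      (μ : Measure ℝ) (J : ℕ), 0 ≤ A → (∀ᵐ t ∂μ, t ∈ Set.Icc a (a + 1)) → μ Set.univ ≤ 1 →
      (∀ t r : ℝ, 0 < r → μ (Metric.closedBall t r) ≤ ENNReal.ofReal (A * r ^ β)) →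
      A ≤ ((2 : ℝ) ^ J) ^ β →
      ∫⁻ p, HH g θ J p ∂((gw y).prod μ) ≤ C * ((J + 1 : ℕ) : ℝ≥0∞) ^ 2 * ∫⁻ ξ, ‖g ξ‖ₑ ^ 2 := by
  have hθ0 : 0 < θ := by rw [hθ]; positivity
  set d := Module.finrank ℝ V with hd
  set ω := volume (Metric.ball (0 : V) 1) with hω
  set S := ∑' j : ℕ, ENNReal.ofReal (((θ ^ 2)⁻¹) ^ j) * bc d ω j
    (ENNReal.ofReal (((2 : ℝ) ^ j) ^ (-β)) * C0) 1 with hS
  have hSf : S ≠ ⊤ := sum_finite _ _ measure_ball_lt_top.ne C0 C0_ne_top β hβ hβ1 θ hθ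
  have hωf : ω ≠ ⊤ := measure_ball_lt_top.ne
  refine ⟨2 * volume (cB V 1) + 2 * (2 * (2 * ((d + 1 : ℕ) : ℝ≥0∞) ^ 2 +
    2 * (ENNReal.ofReal (d : ℝ) * ω)) + 2 * (ENNReal.ofReal (((1 - θ)⁻¹) ^ 2) * S)), ?_, ?_⟩
  · have h2 : (2 : ℝ≥0∞) ≠ ⊤ := by norm_num
    refine ENNReal.add_ne_top.2 ⟨?_, ?_⟩
    · exact ENNReal.mul_ne_top h2 measure_closedBall_lt_top.ne
    · refine ENNReal.mul_ne_top h2 (ENNReal.add_ne_top.2 ⟨?_, ?_⟩)
      · refine ENNReal.mul_ne_top h2 (ENNReal.add_ne_top.2 ⟨?_, ?_⟩)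
        · exact ENNReal.mul_ne_top h2 (ENNReal.pow_ne_top (ENNReal.natCast_ne_top _))
        · exact ENNReal.mul_ne_top h2 (ENNReal.mul_ne_top ENNReal.ofReal_ne_top hωf)
      · exact ENNReal.mul_ne_top h2 (ENNReal.mul_ne_top ENNReal.ofReal_ne_top hSf)
  · intro g hgm hg y a A μ J hA hμ huniv hF hJ
    have : IsFiniteMeasure μ := ⟨lt_of_le_of_lt huniv ENNReal.one_lt_top⟩
    have hprod : ((gw y).prod μ) Set.univ ≤ 1 := by
      rw [← Set.univ_prod_univ, Measure.prod_prod, gw_univ, one_mul]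
      exact huniv
    set G := ∫⁻ ξ, ‖g ξ‖ₑ ^ 2 with hG
    have hJ1 : (1 : ℝ≥0∞) ≤ ((J + 1 : ℕ) : ℝ≥0∞) ^ 2 := by
      refine one_le_pow₀ ?_
      exact_mod_cast Nat.succ_le_succ (Nat.zero_le J)
    -- big block
    have hWB : ∫⁻ p, WB g J p ∂((gw y).prod μ) ≤ (2 * ((d + 1 : ℕ) : ℝ≥0∞) ^ 2 +
        2 * (ENNReal.ofReal (d : ℝ) * ω)) * ((J + 1 : ℕ) : ℝ≥0∞) ^ 2 * G := by
      refine (WB_int μ y g hgm hg J).trans ?_
      refine mul_le_mul_left ?_ _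
      rw [add_mul]
      refine add_le_add ?_ ?_
      · have h1 : ((d * J + 1 : ℕ) : ℝ≥0∞) ≤ ((d + 1 : ℕ) : ℝ≥0∞) * ((J + 1 : ℕ) : ℝ≥0∞) := by
          have : d * J + 1 ≤ (d + 1) * (J + 1) := by nlinarith
          exact_mod_cast this
        have h3 : energy μ 1 ^ ((1 : ℝ) / 2) ≤ 1 :=
          ENNReal.rpow_le_one (energy_le_one μ huniv 1) (by norm_num)
        calc 2 * ((Module.finrank ℝ V * J + 1 : ℕ) : ℝ≥0∞) ^ 2 * energy μ 1 ^ ((1 : ℝ) / 2)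
            ≤ 2 * (((d + 1 : ℕ) : ℝ≥0∞) * ((J + 1 : ℕ) : ℝ≥0∞)) ^ 2 * 1 := by
              rw [← hd]
              gcongr
          _ = _ := by ring
      · calc 2 * (ENNReal.ofReal (Module.finrank ℝ V : ℝ) * volume (Metric.ball (0 : V) 1) *
              μ Set.univ) ≤ 2 * (ENNReal.ofReal (d : ℝ) * ω * 1) * 1 := by
              rw [mul_one, ← hd, ← hω]
              gcongr
          _ ≤ 2 * (ENNReal.ofReal (d : ℝ) * ω * 1) * ((J + 1 : ℕ) : ℝ≥0∞) ^ 2 := by gcongr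
          _ = _ := by rw [mul_one]
    -- tail
    have hXJ : ∫⁻ p, XJ g θ J p ∂((gw y).prod μ) ≤ S * ((J + 1 : ℕ) : ℝ≥0∞) ^ 2 * G := by
      unfold XJ
      rw [lintegral_tsum fun j => ((W_meas g hgm (J + j)).const_mul _).aemeasurable, hS,
        ← ENNReal.tsum_mul_right, ← ENNReal.tsum_mul_right]
      refine ENNReal.tsum_le_tsum fun j => ?_
      rw [lintegral_const_mul _ (W_meas g hgm (J + j))]
      have hbc : ∫⁻ p, W g (J + j) p ∂((gw y).prod μ) ≤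
          (((J + 1 : ℕ) : ℝ≥0∞) ^ 2 *
            bc d ω j (ENNReal.ofReal (((2 : ℝ) ^ j) ^ (-β)) * C0) 1) * G := by
        refine (W_int μ y g hgm hg (J + j)).trans ?_
        have h5 : bc d ω (J + j) (energy μ (2 ^ (J + j))) (μ Set.univ) ≤
            ((J + 1 : ℕ) : ℝ≥0∞) ^ 2 *
              bc d ω j (ENNReal.ofReal (((2 : ℝ) ^ j) ^ (-β)) * C0) 1 :=
          (bc_mono _ _ _ (energy_frostmanA μ a A β hβ1 hA hμ huniv hF J hJ j) huniv).trans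
            (bc_shift _ _ _ _ _)
        exact mul_le_mul_left h5 _
      calc ENNReal.ofReal (((θ ^ 2)⁻¹) ^ j) * ∫⁻ p, W g (J + j) p ∂((gw y).prod μ)
          ≤ ENNReal.ofReal (((θ ^ 2)⁻¹) ^ j) * ((((J + 1 : ℕ) : ℝ≥0∞) ^ 2 *
            bc d ω j (ENNReal.ofReal (((2 : ℝ) ^ j) ^ (-β)) * C0) 1) * G) := by gcongr
        _ = _ := by ring
    have hmm : Measurable fun p : V × ℝ => 2 * WB g J p +
        2 * (ENNReal.ofReal (((1 - θ)⁻¹) ^ 2) * XJ g θ J p) :=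
      ((WB_meas g hgm J).const_mul _).add (((XJ_meas g hgm θ J).const_mul _).const_mul _)
    unfold HH
    rw [lintegral_add_left measurable_const, lintegral_const,
      lintegral_const_mul _ hmm,
      lintegral_add_left ((WB_meas g hgm J).const_mul _),
      lintegral_const_mul _ (WB_meas g hgm J),
      lintegral_const_mul _ ((XJ_meas g hgm θ J).const_mul _),
      lintegral_const_mul _ (XJ_meas g hgm θ J)]
    rw [← hG]
    calc 2 * (volume (cB V 1) * G) * ((gw y).prod μ) Set.univ +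
          2 * (2 * ∫⁻ p, WB g J p ∂((gw y).prod μ) +
            2 * (ENNReal.ofReal (((1 - θ)⁻¹) ^ 2) * ∫⁻ p, XJ g θ J p ∂((gw y).prod μ)))
        ≤ 2 * (volume (cB V 1) * G) * ((J + 1 : ℕ) : ℝ≥0∞) ^ 2 +
          2 * (2 * ((2 * ((d + 1 : ℕ) : ℝ≥0∞) ^ 2 +
            2 * (ENNReal.ofReal (d : ℝ) * ω)) * ((J + 1 : ℕ) : ℝ≥0∞) ^ 2 * G) +
            2 * (ENNReal.ofReal (((1 - θ)⁻¹) ^ 2) * (S * ((J + 1 : ℕ) : ℝ≥0∞) ^ 2 * G))) := by
          gcongr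
          exact hprod.trans hJ1
      _ = _ := by ring

theorem ew_scale (ζ x : V) (t ρ : ℝ) : ew (ρ • ζ) (x, t) = ew ζ (ρ • x, ρ ^ 2 * t) := by
  unfold ew
  congr 2
  congr 1
  simp only [inner_smul_right, inner_smul_left, norm_smul, Real.norm_eq_abs, mul_pow, sq_abs]
  simp only [conj_trivial]
  ring

/-- scaling of the partial integrals -/
theorem SS_scale (g : V → ℂ) (ρ : ℝ) (hρ : 0 < ρ) (R : ℝ) (hR : 0 ≤ R) (x : V) (t : ℝ) :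
    SS (fun ξ => g (ρ⁻¹ • ξ)) (ρ * R) (x, t) =
      (ρ ^ Module.finrank ℝ V : ℝ) • SS g R (ρ • x, ρ ^ 2 * t) := by
  unfold SS
  have h1 := Measure.setIntegral_comp_smul_of_pos (μ := (volume : Measure V))
    (fun ζ : V => g ζ * ew (ρ • ζ) (x, t)) (cB V (ρ * R)) (inv_pos.2 hρ)
  have h2 : ρ⁻¹ • cB V (ρ * R) = cB V R := by
    rw [smul_closedBall _ _ (by positivity), smul_zero, Real.norm_of_nonneg (inv_pos.2 hρ).le]
    congr 1
    field_simp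
  rw [h2] at h1
  have h3 : ∀ ξ : V, g (ρ⁻¹ • ξ) * ew (ρ • (ρ⁻¹ • ξ)) (x, t) = g (ρ⁻¹ • ξ) * ew ξ (x, t) := by
    intro ξ
    rw [smul_smul, mul_inv_cancel₀ hρ.ne', one_smul]
  simp only [h3] at h1
  simp only [ew_scale] at h1
  rw [h1, inv_pow, inv_inv]

end Q89.MS
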