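import Pool.Agent.Q89.MS.A1

/-! Gaussian weights and the local square function estimate for the Schrodinger flow, with respect
to an arbitrary finite measure in time. -/

open MeasureTheory ComplexConjugate Complex
open scoped ENNReal Real InnerProductSpace

namespace Q89.MS

variable {V : Type*} [NormedAddCommGroup V] [InnerProductSpace ℝ V] [FiniteDimensional ℝ V]
  [MeasurableSpace V] [BorelSpace V]

/-- the Gaussian weight centred at `y` -/
noncomputable def gw (y : V) : Measure V :=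
  volume.withDensity (fun x => ENNReal.ofReal (Real.exp (-π * ‖x - y‖ ^ 2)))

/-- the plane wave of frequency `ξ` of the free Schrodinger equation -/
noncomputable def ew (ξ : V) (p : V × ℝ) : ℂ :=
  cexp (((2 * π * ⟪p.1, ξ⟫_ℝ - 4 * π ^ 2 * p.2 * ‖ξ‖ ^ 2 : ℝ) : ℂ) * I)

theorem gdens_cont (y : V) : Continuous (fun x : V => Real.exp (-π * ‖x - y‖ ^ 2)) := by
  fun_prop

theorem integral_gw (y : V) (f : V → ℂ) :
    ∫ x, f x ∂(gw y) = ∫ x, ((Real.exp (-π * ‖x - y‖ ^ 2) : ℝ) : ℂ) * f x := by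
  unfold gw
  rw [integral_withDensity_eq_integral_toReal_smul
    (gdens_cont y).measurable.ennreal_ofReal (Filter.Eventually.of_forall fun x => by simp)]
  refine integral_congr_ae (Filter.Eventually.of_forall fun x => ?_)
  simp only
  rw [ENNReal.toReal_ofReal (Real.exp_pos _).le]
  simp [Complex.real_smul]

theorem lintegral_gw (y : V) (f : V → ℝ≥0∞) (hf : AEMeasurable f) :
    ∫⁻ x, f x ∂(gw y) = ∫⁻ x, ENNReal.ofReal (Real.exp (-π * ‖x - y‖ ^ 2)) * f x := by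
  unfold gw
  rw [lintegral_withDensity_eq_lintegral_mul₀
    (gdens_cont y).measurable.ennreal_ofReal.aemeasurable hf]
  rfl

theorem gauss_exp (κ : ℝ) (w : V) (c : ℂ) :
    ∫ v : V, cexp (-(π - κ * I) * ‖v‖ ^ 2 + c * ⟪w, v⟫_ℝ) =
      (π / (π - κ * I)) ^ (Module.finrank ℝ V / 2 : ℂ) *
        cexp (c ^ 2 * ‖w‖ ^ 2 / (4 * (π - κ * I))) := by
  apply GaussianFourier.integral_cexp_neg_mul_sq_norm_add
  simp [Real.pi_pos]

theorem integral_char (y w : V) :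
    ∫ x, cexp (((2 * π * ⟪x, w⟫_ℝ : ℝ) : ℂ) * I) ∂(gw y) =
      cexp (((2 * π * ⟪y, w⟫_ℝ : ℝ) : ℂ) * I) * ((Real.exp (-π * ‖w‖ ^ 2) : ℝ) : ℂ) := by
  rw [integral_gw]
  rw [← integral_add_right_eq_self _ y]
  have h1 : ∀ v : V, ((Real.exp (-π * ‖v + y - y‖ ^ 2) : ℝ) : ℂ) *
      cexp (((2 * π * ⟪v + y, w⟫_ℝ : ℝ) : ℂ) * I) =
      cexp (((2 * π * ⟪y, w⟫_ℝ : ℝ) : ℂ) * I) *
        cexp (-(π - (0 : ℝ) * I) * ‖v‖ ^ 2 + (2 * π * I) * ⟪w, v⟫_ℝ) := by
    intro v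
    rw [add_sub_cancel_right, Complex.ofReal_exp, ← Complex.exp_add, ← Complex.exp_add,
      inner_add_left, real_inner_comm]
    congr 1
    push_cast
    ring
  rw [integral_congr_ae (Filter.Eventually.of_forall h1), integral_const_mul, gauss_exp]
  congr 1
  have hπ : (π : ℂ) ≠ 0 := by exact_mod_cast Real.pi_ne_zero
  rw [show (π : ℂ) / (π - (0 : ℝ) * I) = 1 by
    simp only [Complex.ofReal_zero, zero_mul, sub_zero]; exact div_self hπ,
    Complex.one_cpow, one_mul, Complex.ofReal_exp]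
  congr 1
  simp only [Complex.ofReal_zero, zero_mul, sub_zero]
  push_cast
  field_simp
  rw [I_sq]
  ring

theorem integral_quad_norm (κ : ℝ) (ξ : V) :
    ‖∫ η, cexp (((κ * ‖η‖ ^ 2 : ℝ) : ℂ) * I) ∂(gw ξ)‖ ≤
      Real.exp (-π * ‖ξ‖ ^ 2 * (κ ^ 2 / (π ^ 2 + κ ^ 2))) := by
  rw [integral_gw]
  have h1 : ∀ v : V, ((Real.exp (-π * ‖v - ξ‖ ^ 2) : ℝ) : ℂ) *
      cexp (((κ * ‖v‖ ^ 2 : ℝ) : ℂ) * I) =
      ((Real.exp (-π * ‖ξ‖ ^ 2) : ℝ) : ℂ) *
        cexp (-(π - κ * I) * ‖v‖ ^ 2 + (2 * π : ℝ) * ⟪ξ, v⟫_ℝ) := by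
    intro v
    rw [Complex.ofReal_exp, Complex.ofReal_exp, ← Complex.exp_add, ← Complex.exp_add,
      norm_sub_sq_real, real_inner_comm]
    congr 1
    push_cast
    ring
  rw [integral_congr_ae (Filter.Eventually.of_forall h1), integral_const_mul, gauss_exp]
  rw [norm_mul, norm_mul, Complex.norm_real, Real.norm_of_nonneg (Real.exp_pos _).le]
  have hπ := Real.pi_pos
  have hden : (0 : ℝ) < π ^ 2 + κ ^ 2 := by positivity
  have hne : (π : ℂ) - κ * I ≠ 0 := by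
    intro h
    have := congrArg Complex.re h
    simp at this
  have hnorm : ‖(π : ℂ) / (π - κ * I)‖ ≤ 1 := by
    rw [norm_div]
    have h2 : ‖(π : ℂ)‖ ≤ ‖(π : ℂ) - κ * I‖ := by
      have h3 := Complex.abs_re_le_norm ((π : ℂ) - κ * I)
      simp only [Complex.sub_re, Complex.ofReal_re, Complex.mul_re, Complex.I_re, mul_zero,
        Complex.ofReal_im, Complex.I_im, mul_one, sub_self, sub_zero] at h3
      simpa [Complex.norm_real] using h3
    exact div_le_one_of_le₀ h2 (norm_nonneg _)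
  have hcpow : ‖((π : ℂ) / (π - κ * I)) ^ (Module.finrank ℝ V / 2 : ℂ)‖ ≤ 1 := by
    have h4 : (Module.finrank ℝ V / 2 : ℂ) = (((Module.finrank ℝ V : ℝ) / 2 : ℝ) : ℂ) := by
      push_cast; ring
    rw [h4]
    have hne2 : (π : ℂ) / (π - κ * I) ≠ 0 :=
      div_ne_zero (by exact_mod_cast Real.pi_ne_zero) hne
    rw [Complex.norm_cpow_of_ne_zero hne2]
    simp only [Complex.ofReal_re, Complex.ofReal_im, mul_zero, Real.exp_zero, div_one]
    exact Real.rpow_le_one (norm_nonneg _) hnorm (by positivity)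
  have hexp : ‖cexp ((((2 * π : ℝ) : ℂ)) ^ 2 * ‖ξ‖ ^ 2 / (4 * (π - κ * I)))‖ =
      Real.exp (π * ‖ξ‖ ^ 2 * (π ^ 2 / (π ^ 2 + κ ^ 2))) := by
    rw [Complex.norm_exp]
    congr 1
    have h5 : ((((2 * π : ℝ) : ℂ)) ^ 2 * ‖ξ‖ ^ 2 / (4 * (π - κ * I))) =
        ((π * ‖ξ‖ ^ 2 * (π / (π ^ 2 + κ ^ 2)) : ℝ) : ℂ) * (π + κ * I) := by
      have h6 : ((π : ℂ) - κ * I) * (π + κ * I) = ((π ^ 2 + κ ^ 2 : ℝ) : ℂ) := by
        push_cast
        ring_nf
        rw [I_sq]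
        ring
      have h7 : ((π ^ 2 + κ ^ 2 : ℝ) : ℂ) ≠ 0 := by exact_mod_cast hden.ne'
      have h8 : (4 * ((π : ℂ) - κ * I)) ≠ 0 := mul_ne_zero (by norm_num) hne
      rw [div_eq_iff h8]
      have h9 : (((π * ‖ξ‖ ^ 2 * (π / (π ^ 2 + κ ^ 2)) : ℝ) : ℂ) * (π + κ * I)) *
          (4 * ((π : ℂ) - κ * I)) = 4 * ((π * ‖ξ‖ ^ 2 * (π / (π ^ 2 + κ ^ 2)) : ℝ) : ℂ) *
          ((π ^ 2 + κ ^ 2 : ℝ) : ℂ) := by
        rw [← h6]; ring
      rw [h9]
      push_cast at h7 ⊢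
      field_simp
      ring
    rw [h5, Complex.re_ofReal_mul]
    simp only [Complex.add_re, Complex.ofReal_re, Complex.mul_re, Complex.I_re, mul_zero,
      Complex.ofReal_im, Complex.I_im, mul_one, sub_self, add_zero]
    field_simp
  rw [hexp]
  calc Real.exp (-π * ‖ξ‖ ^ 2) *
        (‖((π : ℂ) / (π - κ * I)) ^ (Module.finrank ℝ V / 2 : ℂ)‖ *
          Real.exp (π * ‖ξ‖ ^ 2 * (π ^ 2 / (π ^ 2 + κ ^ 2))))
      ≤ Real.exp (-π * ‖ξ‖ ^ 2) *
        (1 * Real.exp (π * ‖ξ‖ ^ 2 * (π ^ 2 / (π ^ 2 + κ ^ 2)))) := by gcongr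
    _ = _ := by
      rw [one_mul, ← Real.exp_add]
      congr 1
      field_simp
      ring

end Q89.MS
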