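import Pool.Agent.Q89.MS.A2

/-! The local estimate: space integral over a Gaussian, time integral over an arbitrary finite
measure. -/

open MeasureTheory ComplexConjugate Complex
open scoped ENNReal Real InnerProductSpace

namespace Q89.MS

variable {V : Type*} [NormedAddCommGroup V] [InnerProductSpace ℝ V] [FiniteDimensional ℝ V]
  [MeasurableSpace V] [BorelSpace V]

theorem gw_univ (y : V) : gw y Set.univ = 1 := by
  have h := integral_char y (0 : V)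
  simp only [inner_zero_right, mul_zero, Complex.ofReal_zero, zero_mul, Complex.exp_zero,
    norm_zero, ne_eq, OfNat.ofNat_ne_zero, not_false_eq_true, zero_pow, Real.exp_zero,
    Complex.ofReal_one, mul_one, integral_const, Measure.real] at h
  have h2 : ((gw y Set.univ).toReal : ℂ) = 1 := by simpa using h
  have h3 : (gw y Set.univ).toReal = 1 := by exact_mod_cast h2
  rwa [ENNReal.toReal_eq_one_iff] at h3

instance (y : V) : IsProbabilityMeasure (gw y) := ⟨gw_univ y⟩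

/-- the damping factor of a time difference `u` at frequency at least `ρ` -/
noncomputable def damp (ρ u : ℝ) : ℝ :=
  Real.exp (-π * ρ ^ 2 * ((4 * π ^ 2 * u) ^ 2 / (π ^ 2 + (4 * π ^ 2 * u) ^ 2)))

/-- the energy of a measure in time at frequency `ρ` -/
noncomputable def energy (μ : Measure ℝ) (ρ : ℝ) : ℝ≥0∞ :=
  ∫⁻ t, ∫⁻ t', ENNReal.ofReal (damp ρ (t - t')) ∂μ ∂μ

theorem ew_meas : Measurable (Function.uncurry (ew (V := V))) := by
  have : Continuous (Function.uncurry (ew (V := V))) := by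
    unfold ew Function.uncurry
    fun_prop
  exact this.measurable

theorem ew_norm (ξ : V) (p : V × ℝ) : ‖ew ξ p‖ = 1 := by
  unfold ew
  exact Complex.norm_exp_ofReal_mul_I _

theorem exp_conj (a b : ℝ) :
    cexp ((a : ℂ) * I) * conj (cexp ((b : ℂ) * I)) = cexp (((a - b : ℝ) : ℂ) * I) := by
  rw [← Complex.exp_conj, ← Complex.exp_add]
  congr 1
  simp only [map_mul, Complex.conj_ofReal, Complex.conj_I]
  push_cast
  ring

/-- the time factor of the kernel -/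
theorem time_kernel (μ : Measure ℝ) [IsFiniteMeasure μ] (ρ : ℝ) (hρ : 0 ≤ ρ) (ξ : V)
    (hξ : ρ ≤ ‖ξ‖) :
    ∫⁻ η, ‖∫ t, cexp (((-(4 * π ^ 2 * t * (‖ξ‖ ^ 2 - ‖η‖ ^ 2)) : ℝ) : ℂ) * I) ∂μ‖ₑ ^ 2 ∂(gw ξ)
      ≤ energy μ ρ := by
  have h1 := tt_star (X := ℝ) (Z := V) μ (gw ξ) (fun _ => 1) (integrable_const _)
    (fun t η => cexp (((-(4 * π ^ 2 * t * (‖ξ‖ ^ 2 - ‖η‖ ^ 2)) : ℝ) : ℂ) * I))
    (by
      have : Continuous (Function.uncurry fun (t : ℝ) (η : V) =>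
          cexp (((-(4 * π ^ 2 * t * (‖ξ‖ ^ 2 - ‖η‖ ^ 2)) : ℝ) : ℂ) * I)) := by
        unfold Function.uncurry
        fun_prop
      exact this.measurable)
    (fun t η => (Complex.norm_exp_ofReal_mul_I _).le)
  simp only [one_mul, enorm_one] at h1
  refine h1.trans ?_
  unfold energy
  refine lintegral_mono fun t => lintegral_mono fun t' => ?_
  rw [← ofReal_norm]
  refine ENNReal.ofReal_le_ofReal ?_
  have h2 : ∀ η : V, cexp (((-(4 * π ^ 2 * t * (‖ξ‖ ^ 2 - ‖η‖ ^ 2)) : ℝ) : ℂ) * I) *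
      conj (cexp (((-(4 * π ^ 2 * t' * (‖ξ‖ ^ 2 - ‖η‖ ^ 2)) : ℝ) : ℂ) * I)) =
      cexp (((-(4 * π ^ 2 * (t - t') * ‖ξ‖ ^ 2) : ℝ) : ℂ) * I) *
        cexp ((((4 * π ^ 2 * (t - t')) * ‖η‖ ^ 2 : ℝ) : ℂ) * I) := by
    intro η
    rw [exp_conj, ← Complex.exp_add]
    congr 1
    push_cast
    ring
  rw [integral_congr_ae (Filter.Eventually.of_forall h2), integral_const_mul, norm_mul,
    Complex.norm_exp_ofReal_mul_I, one_mul]
  refine (integral_quad_norm _ _).trans ?_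
  unfold damp
  refine Real.exp_le_exp.2 ?_
  have h3 : ρ ^ 2 ≤ ‖ξ‖ ^ 2 := pow_le_pow_left₀ hρ hξ 2
  have h4 : (0 : ℝ) ≤ (4 * π ^ 2 * (t - t')) ^ 2 / (π ^ 2 + (4 * π ^ 2 * (t - t')) ^ 2) := by
    positivity
  have h5 := mul_le_mul_of_nonneg_right (mul_le_mul_of_nonneg_left h3 Real.pi_pos.le) h4
  linarith

theorem prob_sq {Z : Type*} [MeasurableSpace Z] (ν : Measure Z) [IsProbabilityMeasure ν]
    (f : Z → ℝ≥0∞) (hf : AEMeasurable f ν) : (∫⁻ z, f z ∂ν) ^ 2 ≤ ∫⁻ z, f z ^ 2 ∂ν := by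
  have h := ENNReal.lintegral_mul_le_Lp_mul_Lq ν (Real.HolderConjugate.two_two) hf
    (aemeasurable_const (b := (1 : ℝ≥0∞)))
  simp only [Pi.mul_apply, mul_one, ENNReal.one_rpow, lintegral_const, measure_univ] at h
  have h2 : (∫⁻ z, f z ∂ν) ^ 2 ≤ ((∫⁻ z, f z ^ (2 : ℝ) ∂ν) ^ ((1 : ℝ) / 2)) ^ 2 := by
    gcongr
  refine h2.trans (le_of_eq ?_)
  rw [← ENNReal.rpow_natCast, ← ENNReal.rpow_mul]
  norm_num

theorem local_est (μ : Measure ℝ) [IsFiniteMeasure μ] (y : V) (ρ : ℝ) (hρ : 0 ≤ ρ) (h : V → ℂ)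
    (hh : Integrable h) (hsupp : ∀ ξ, h ξ ≠ 0 → ρ ≤ ‖ξ‖) :
    ∫⁻ p, ‖∫ ξ, h ξ * ew ξ p‖ₑ ^ 2 ∂((gw y).prod μ) ≤
      (energy μ ρ) ^ ((1 : ℝ) / 2) * ∫⁻ ξ, ‖h ξ‖ₑ ^ 2 := by
  have h1 := tt_star (X := V) (Z := V × ℝ) volume ((gw y).prod μ) h hh ew ew_meas
    (fun ξ p => (ew_norm ξ p).le)
  refine h1.trans ?_
  -- the kernel
  have hK : ∀ ξ η : V, ‖∫ p, ew ξ p * conj (ew η p) ∂((gw y).prod μ)‖ₑ =
      ENNReal.ofReal (Real.exp (-π * ‖ξ - η‖ ^ 2)) *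
        ‖∫ t, cexp (((-(4 * π ^ 2 * t * (‖ξ‖ ^ 2 - ‖η‖ ^ 2)) : ℝ) : ℂ) * I) ∂μ‖ₑ := by
    intro ξ η
    have h2 : ∀ p : V × ℝ, ew ξ p * conj (ew η p) =
        cexp (((2 * π * ⟪p.1, ξ - η⟫_ℝ : ℝ) : ℂ) * I) *
        cexp (((-(4 * π ^ 2 * p.2 * (‖ξ‖ ^ 2 - ‖η‖ ^ 2)) : ℝ) : ℂ) * I) := by
      intro p
      unfold ew
      rw [exp_conj, ← Complex.exp_add, inner_sub_right]
      congr 1
      push_cast
      ring
    rw [integral_congr_ae (Filter.Eventually.of_forall h2)]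
    rw [integral_prod_mul (fun x : V => cexp (((2 * π * ⟪x, ξ - η⟫_ℝ : ℝ) : ℂ) * I))
      (fun t : ℝ => cexp (((-(4 * π ^ 2 * t * (‖ξ‖ ^ 2 - ‖η‖ ^ 2)) : ℝ) : ℂ) * I))]
    rw [enorm_mul, integral_char, enorm_mul]
    congr 1
    rw [← ofReal_norm, ← ofReal_norm, Complex.norm_exp_ofReal_mul_I, Complex.norm_real,
      Real.norm_of_nonneg (Real.exp_pos _).le]
    simp
  have hKm : Measurable (Function.uncurry fun ξ η : V =>
      ‖∫ p, ew ξ p * conj (ew η p) ∂((gw y).prod μ)‖ₑ) := by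
    have hK : StronglyMeasurable (fun q : V × V =>
        ∫ p, ew q.1 p * conj (ew q.2 p) ∂((gw y).prod μ)) := by
      refine StronglyMeasurable.integral_prod_right'
        (f := fun p : (V × V) × (V × ℝ) => ew p.1.1 p.2 * conj (ew p.1.2 p.2)) ?_
      have m1 : Measurable (fun p : (V × V) × (V × ℝ) => ew p.1.1 p.2) :=
        ew_meas.comp ((measurable_fst.comp measurable_fst).prodMk measurable_snd)
      have m2 : Measurable (fun p : (V × V) × (V × ℝ) => ew p.1.2 p.2) :=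
        ew_meas.comp ((measurable_snd.comp measurable_fst).prodMk measurable_snd)
      exact (m1.mul (Complex.continuous_conj.measurable.comp m2)).stronglyMeasurable
    exact hK.measurable.enorm
  refine schur volume (fun ξ => ‖h ξ‖ₑ) hh.aestronglyMeasurable.enorm _ hKm ?_ _ ?_
  · intro ξ η
    rw [← ofReal_norm, ← ofReal_norm]
    congr 1
    rw [← RCLike.norm_conj, ← integral_conj]
    congr 1
    refine integral_congr_ae (Filter.Eventually.of_forall fun p => ?_)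
    simp only [map_mul, Complex.conj_conj]
    ring
  · intro ξ hξ
    have hξ' : ρ ≤ ‖ξ‖ := hsupp ξ (by simpa using hξ)
    simp only [hK]
    have hM : Measurable (fun η : V =>
        ‖∫ t, cexp (((-(4 * π ^ 2 * t * (‖ξ‖ ^ 2 - ‖η‖ ^ 2)) : ℝ) : ℂ) * I) ∂μ‖ₑ) := by
      have : StronglyMeasurable (fun η : V =>
          ∫ t, cexp (((-(4 * π ^ 2 * t * (‖ξ‖ ^ 2 - ‖η‖ ^ 2)) : ℝ) : ℂ) * I) ∂μ) := by
        refine StronglyMeasurable.integral_prod_right'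
          (f := fun p : V × ℝ =>
            cexp (((-(4 * π ^ 2 * p.2 * (‖ξ‖ ^ 2 - ‖p.1‖ ^ 2)) : ℝ) : ℂ) * I)) ?_
        have : Continuous (fun p : V × ℝ =>
            cexp (((-(4 * π ^ 2 * p.2 * (‖ξ‖ ^ 2 - ‖p.1‖ ^ 2)) : ℝ) : ℂ) * I)) := by
          fun_prop
        exact this.stronglyMeasurable
      exact this.measurable.enorm
    have e1 : ∫⁻ η, ENNReal.ofReal (Real.exp (-π * ‖ξ - η‖ ^ 2)) *
        ‖∫ t, cexp (((-(4 * π ^ 2 * t * (‖ξ‖ ^ 2 - ‖η‖ ^ 2)) : ℝ) : ℂ) * I) ∂μ‖ₑ =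
        ∫⁻ η, ‖∫ t, cexp (((-(4 * π ^ 2 * t * (‖ξ‖ ^ 2 - ‖η‖ ^ 2)) : ℝ) : ℂ) * I) ∂μ‖ₑ
          ∂(gw ξ) := by
      rw [lintegral_gw ξ _ hM.aemeasurable]
      refine lintegral_congr fun η => ?_
      rw [norm_sub_rev]
    rw [e1]
    have h3 := prob_sq (gw ξ) _ hM.aemeasurable
    have h4 := h3.trans (time_kernel μ ρ hρ ξ hξ')
    have h5 := ENNReal.rpow_le_rpow h4 (by norm_num : (0 : ℝ) ≤ 1 / 2)
    rw [← ENNReal.rpow_natCast, ← ENNReal.rpow_mul] at h5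
    norm_num at h5 ⊢
    exact h5

end Q89.MS
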