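import Pool.Agent.Q89.MS.A3

/-! Rademacher-Menshov chaining for the partial integrals over balls. -/

open MeasureTheory ComplexConjugate Complex
open scoped ENNReal Real InnerProductSpace

namespace Q89.MS

section chain

/-- the dyadic square function of a sequence -/
noncomputable def Q : ℕ → (ℕ → ℂ) → ℝ
  | 0, s => ‖s 1 - s 0‖ ^ 2
  | (P + 1), s => (∑ b ∈ Finset.range (2 ^ (P + 1)), ‖s (b + 1) - s b‖ ^ 2) +
      Q P (fun i => s (2 * i))

theorem Q_nonneg : ∀ (P : ℕ) (s : ℕ → ℂ), 0 ≤ Q P s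
  | 0, s => by unfold Q; positivity
  | (P + 1), s => by
    unfold Q
    exact add_nonneg (Finset.sum_nonneg fun i _ => by positivity) (Q_nonneg P _)

theorem rademacher_menshov : ∀ (P : ℕ) (s : ℕ → ℂ) (k : ℕ), k ≤ 2 ^ P →
    ‖s k - s 0‖ ^ 2 ≤ (P + 1) * Q P s
  | 0, s, k, hk => by
    have : k = 0 ∨ k = 1 := by
      simp only [pow_zero] at hk; omega
    rcases this with rfl | rfl
    · simp only [sub_self, norm_zero, ne_eq, OfNat.ofNat_ne_zero, not_false_eq_true, zero_pow]
      have := Q_nonneg 0 s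
      positivity
    · simp [Q]
  | (P + 1), s, k, hk => by
    have hk' : k / 2 ≤ 2 ^ P := by
      rw [pow_succ] at hk; omega
    have ih := rademacher_menshov P (fun i => s (2 * i)) (k / 2) hk'
    simp only [mul_zero] at ih
    have hq := Q_nonneg P (fun i => s (2 * i))
    have hq1 : (0 : ℝ) ≤ ∑ b ∈ Finset.range (2 ^ (P + 1)), ‖s (b + 1) - s b‖ ^ 2 :=
      Finset.sum_nonneg fun i _ => by positivity
    have hu : ‖s k - s (2 * (k / 2))‖ ^ 2 ≤
        ∑ b ∈ Finset.range (2 ^ (P + 1)), ‖s (b + 1) - s b‖ ^ 2 := by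
      rcases Nat.even_or_odd' k with ⟨m, hm | hm⟩
      · have : 2 * (k / 2) = k := by omega
        rw [this]; simpa using hq1
      · have e1 : 2 * (k / 2) = 2 * m := by omega
        have e2 : k = 2 * m + 1 := hm
        rw [e1, e2]
        have hmem : 2 * m ∈ Finset.range (2 ^ (P + 1)) := by
          rw [Finset.mem_range]; omega
        exact Finset.single_le_sum (f := fun b => ‖s (b + 1) - s b‖ ^ 2)
          (fun i _ => by positivity) hmem
    have htri : ‖s k - s 0‖ ≤ ‖s k - s (2 * (k / 2))‖ + ‖s (2 * (k / 2)) - s 0‖ := by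
      have := norm_add_le (s k - s (2 * (k / 2))) (s (2 * (k / 2)) - s 0)
      simpa using this
    set u := ‖s k - s (2 * (k / 2))‖ with hu0
    set v := ‖s (2 * (k / 2)) - s 0‖ with hv0
    have hu' : 0 ≤ u := norm_nonneg _
    have hv' : 0 ≤ v := norm_nonneg _
    have hP : (0 : ℝ) < (P : ℝ) + 1 := by positivity
    have h1 : (u + v) ^ 2 ≤ ((P : ℝ) + 2) * (u ^ 2 + v ^ 2 / (P + 1)) := by
      have h2 : ((P : ℝ) + 2) * (u ^ 2 + v ^ 2 / (P + 1)) - (u + v) ^ 2 =
          (((P : ℝ) + 1) * u - v) ^ 2 / (P + 1) := by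
        field_simp
        ring
      have h3 : 0 ≤ (((P : ℝ) + 1) * u - v) ^ 2 / (P + 1) := by positivity
      linarith
    have h4 : v ^ 2 / (P + 1) ≤ Q P (fun i => s (2 * i)) := by
      rw [div_le_iff₀ hP]; linarith
    calc ‖s k - s 0‖ ^ 2 ≤ (u + v) ^ 2 := pow_le_pow_left₀ (norm_nonneg _) htri 2
      _ ≤ ((P : ℝ) + 2) * (u ^ 2 + v ^ 2 / (P + 1)) := h1
      _ ≤ ((P : ℝ) + 2) * ((∑ b ∈ Finset.range (2 ^ (P + 1)), ‖s (b + 1) - s b‖ ^ 2) +
          Q P (fun i => s (2 * i))) := by gcongr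
      _ = _ := by
        simp only [Q]
        push_cast
        ring

theorem sum_double (m : ℕ → ℝ≥0∞) (a b : ℕ) (hab : a ≤ b) :
    ∑ i ∈ Finset.Ico (2 * a) (2 * b), m i =
      ∑ i ∈ Finset.Ico a b, (m (2 * i) + m (2 * i + 1)) := by
  induction b, hab using Nat.le_induction with
  | base => simp
  | succ b hb ih =>
    rw [Finset.sum_Ico_succ_top hb, show 2 * (b + 1) = 2 * b + 1 + 1 by ring,
      Finset.sum_Ico_succ_top (by omega), Finset.sum_Ico_succ_top (by omega), ih]
    ring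

variable {Z : Type*} [MeasurableSpace Z]

theorem Q_meas : ∀ (P : ℕ) (s : ℕ → Z → ℂ), (∀ i, Measurable (s i)) →
    Measurable fun z => Q P (fun i => s i z)
  | 0, s, hs => by
    unfold Q
    exact (((hs 1).sub (hs 0)).norm).pow_const 2
  | (P + 1), s, hs => by
    unfold Q
    refine Measurable.add ?_ ?_
    · exact Finset.measurable_sum _ fun i _ => (((hs (i + 1)).sub (hs i)).norm).pow_const 2
    · exact Q_meas P (fun i => s (2 * i)) fun i => hs _

theorem Q_integral (ν : Measure Z) (C : ℝ≥0∞) : ∀ (P : ℕ) (s : ℕ → Z → ℂ) (m : ℕ → ℝ≥0∞),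
    (∀ i, Measurable (s i)) →
    (∀ a b, a ≤ b → ∫⁻ z, ‖s b z - s a z‖ₑ ^ 2 ∂ν ≤ C * ∑ i ∈ Finset.Ico a b, m i) →
    ∫⁻ z, ENNReal.ofReal (Q P (fun i => s i z)) ∂ν ≤
      C * (P + 1) * ∑ i ∈ Finset.range (2 ^ P), m i
  | 0, s, m, hs, h => by
    have h1 := h 0 1 (by norm_num)
    simp only [Q, CharP.cast_eq_zero, zero_add, mul_one, pow_zero, Finset.range_one,
      Finset.sum_singleton]
    simp only [Nat.Ico_zero_eq_range, Finset.range_one, Finset.sum_singleton] at h1
    refine (le_of_eq ?_).trans h1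
    refine lintegral_congr fun z => ?_
    rw [← ofReal_norm, ENNReal.ofReal_pow (norm_nonneg _)]
  | (P + 1), s, m, hs, h => by
    have ih := Q_integral ν C P (fun i => s (2 * i)) (fun i => m (2 * i) + m (2 * i + 1))
      (fun i => hs _) (by
        intro a b hab
        rw [← sum_double m a b hab]
        exact h _ _ (by omega))
    have hsum : ∑ i ∈ Finset.range (2 ^ P), (m (2 * i) + m (2 * i + 1)) =
        ∑ i ∈ Finset.range (2 ^ (P + 1)), m i := by
      have := sum_double m 0 (2 ^ P) (by positivity)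
      simp only [mul_zero, Nat.Ico_zero_eq_range] at this
      rw [← this, pow_succ]
      congr 2
      ring
    rw [hsum] at ih
    have h1 : ∀ z, ENNReal.ofReal (Q (P + 1) (fun i => s i z)) =
        (∑ b ∈ Finset.range (2 ^ (P + 1)), ‖s (b + 1) z - s b z‖ₑ ^ 2) +
          ENNReal.ofReal (Q P (fun i => s (2 * i) z)) := by
      intro z
      simp only [Q]
      rw [ENNReal.ofReal_add (Finset.sum_nonneg fun i _ => by positivity) (Q_nonneg _ _),
        ENNReal.ofReal_sum_of_nonneg (fun i _ => by positivity)]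
      congr 1
      refine Finset.sum_congr rfl fun i _ => ?_
      rw [← ofReal_norm, ENNReal.ofReal_pow (norm_nonneg _)]
    simp only [h1]
    have hmm : ∀ i, Measurable (fun z => ‖s (i + 1) z - s i z‖ₑ ^ 2) := fun i =>
      (((hs (i + 1)).sub (hs i)).enorm).pow_const 2
    rw [lintegral_add_left (Finset.measurable_sum _ fun i _ => hmm i)]
    rw [lintegral_finsetSum _ fun i _ => hmm i]
    have h2 : ∑ b ∈ Finset.range (2 ^ (P + 1)), ∫⁻ z, ‖s (b + 1) z - s b z‖ₑ ^ 2 ∂ν ≤
        C * ∑ i ∈ Finset.range (2 ^ (P + 1)), m i := by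
      rw [Finset.mul_sum]
      refine Finset.sum_le_sum fun i _ => ?_
      have := h i (i + 1) (by omega)
      simpa using this
    calc _ ≤ C * ∑ i ∈ Finset.range (2 ^ (P + 1)), m i +
        C * (P + 1) * ∑ i ∈ Finset.range (2 ^ (P + 1)), m i := add_le_add h2 ih
      _ = _ := by push_cast; ring

end chain

end Q89.MS
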