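import Pool.Agent.Q89.MS.A4

/-! The maximal function over one dyadic block of radii. -/

open MeasureTheory ComplexConjugate Complex
open scoped ENNReal Real InnerProductSpace

namespace Q89.MS

variable {V : Type*} [NormedAddCommGroup V] [InnerProductSpace ℝ V] [FiniteDimensional ℝ V]
  [MeasurableSpace V] [BorelSpace V]

/-- the closed ball of radius `R` about the origin -/
abbrev cB (V : Type*) [NormedAddCommGroup V] (R : ℝ) : Set V := Metric.closedBall (0 : V) R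

/-- the partial integral over the ball of radius `R` -/
noncomputable def SS (g : V → ℂ) (R : ℝ) (p : V × ℝ) : ℂ :=
  ∫ ξ in cB V R, g ξ * ew ξ p

theorem intOn (g : V → ℂ) (hg : MemLp g 2) (R : ℝ) : IntegrableOn g (cB V R) := by
  have : IsFiniteMeasure ((volume : Measure V).restrict (cB V R)) :=
    ⟨by rw [Measure.restrict_apply_univ]; exact measure_closedBall_lt_top⟩
  exact (hg.restrict (cB V R)).integrable (by norm_num)

theorem intOn_ew (g : V → ℂ) (hg : MemLp g 2) (R : ℝ) (p : V × ℝ) :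
    IntegrableOn (fun ξ => g ξ * ew ξ p) (cB V R) := by
  have h1 := intOn g hg R
  refine Integrable.mono h1 ?_ (Filter.Eventually.of_forall fun ξ => ?_)
  · refine h1.aestronglyMeasurable.mul ?_
    exact (ew_meas.comp measurable_prodMk_right).aestronglyMeasurable
  · rw [norm_mul, ew_norm, mul_one]

theorem SS_diff (g : V → ℂ) (hg : MemLp g 2) {a b : ℝ} (hab : a ≤ b) (p : V × ℝ) :
    SS g b p - SS g a p = ∫ ξ, ((cB V b \ cB V a).indicator g ξ) * ew ξ p := by
  unfold SS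
  have hsub : cB V a ⊆ cB V b := Metric.closedBall_subset_closedBall hab
  rw [← setIntegral_sdiff Metric.isClosed_closedBall.measurableSet (intOn_ew g hg b p) hsub]
  · rw [← integral_indicator (Metric.isClosed_closedBall.measurableSet.diff
      Metric.isClosed_closedBall.measurableSet)]
    refine integral_congr_ae (Filter.Eventually.of_forall fun ξ => ?_)
    simp only [Set.indicator]
    split_ifs <;> simp

theorem cs_set (A : Set V) (f : V → ℝ≥0∞) (hf : AEMeasurable f) :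
    (∫⁻ ξ in A, f ξ) ^ 2 ≤ volume A * ∫⁻ ξ in A, f ξ ^ 2 := by
  have h := ENNReal.lintegral_mul_le_Lp_mul_Lq (volume.restrict A) Real.HolderConjugate.two_two
    hf.restrict (aemeasurable_const (b := (1 : ℝ≥0∞)))
  simp only [Pi.mul_apply, mul_one, ENNReal.one_rpow, lintegral_const, one_mul,
    Measure.restrict_apply_univ] at h
  have h2 : (∫⁻ ξ in A, f ξ) ^ 2 ≤
      ((∫⁻ ξ in A, f ξ ^ (2 : ℝ)) ^ ((1 : ℝ) / 2) * volume A ^ ((1 : ℝ) / 2)) ^ 2 := by
    gcongr
  refine h2.trans (le_of_eq ?_)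
  rw [mul_pow, ← ENNReal.rpow_natCast, ← ENNReal.rpow_mul, ← ENNReal.rpow_natCast,
    ← ENNReal.rpow_mul]
  norm_num
  rw [mul_comm]

theorem SS_diff_le (g : V → ℂ) (hg : MemLp g 2) {a b : ℝ} (hab : a ≤ b) (p : V × ℝ) :
    ‖SS g b p - SS g a p‖ₑ ≤ ∫⁻ ξ in cB V b \ cB V a, ‖g ξ‖ₑ := by
  rw [SS_diff g hg hab]
  refine (enorm_integral_le_lintegral_enorm _).trans ?_
  rw [← lintegral_indicator (Metric.isClosed_closedBall.measurableSet.diff
      Metric.isClosed_closedBall.measurableSet)]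
  refine lintegral_mono fun ξ => ?_
  rw [enorm_mul, show ‖ew ξ p‖ₑ = 1 by rw [← ofReal_norm, ew_norm, ENNReal.ofReal_one], mul_one]
  simp only [Set.indicator]
  split_ifs <;> simp

theorem SS_diff_vol (g : V → ℂ) (hg : MemLp g 2) {a b : ℝ} (hab : a ≤ b) (p : V × ℝ) :
    ‖SS g b p - SS g a p‖ₑ ^ 2 ≤ volume (cB V b \ cB V a) * ∫⁻ ξ, ‖g ξ‖ₑ ^ 2 := by
  have h1 := SS_diff_le g hg hab p
  calc ‖SS g b p - SS g a p‖ₑ ^ 2 ≤ (∫⁻ ξ in cB V b \ cB V a, ‖g ξ‖ₑ) ^ 2 := by gcongr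
    _ ≤ volume (cB V b \ cB V a) * ∫⁻ ξ in cB V b \ cB V a, ‖g ξ‖ₑ ^ 2 :=
        cs_set _ _ hg.aestronglyMeasurable.enorm
    _ ≤ _ := by
        gcongr
        exact Measure.restrict_le_self

theorem SS_vol (g : V → ℂ) (hg : MemLp g 2) (R : ℝ) (p : V × ℝ) :
    ‖SS g R p‖ₑ ^ 2 ≤ volume (cB V R) * ∫⁻ ξ, ‖g ξ‖ₑ ^ 2 := by
  have h1 : ‖SS g R p‖ₑ ≤ ∫⁻ ξ in cB V R, ‖g ξ‖ₑ := by
    unfold SS
    refine (enorm_integral_le_lintegral_enorm _).trans ?_
    refine lintegral_mono fun ξ => ?_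
    simp only
    rw [enorm_mul, show ‖ew ξ p‖ₑ = 1 by rw [← ofReal_norm, ew_norm, ENNReal.ofReal_one], mul_one]
  calc ‖SS g R p‖ₑ ^ 2 ≤ (∫⁻ ξ in cB V R, ‖g ξ‖ₑ) ^ 2 := by gcongr
    _ ≤ volume (cB V R) * ∫⁻ ξ in cB V R, ‖g ξ‖ₑ ^ 2 :=
        cs_set _ _ hg.aestronglyMeasurable.enorm
    _ ≤ _ := by
        gcongr
        exact Measure.restrict_le_self

theorem vol_annulus {a b : ℝ} (ha : 0 ≤ a) (hab : a ≤ b) :
    volume (cB V b \ cB V a) ≤
      ENNReal.ofReal ((b - a) * Module.finrank ℝ V * b ^ (Module.finrank ℝ V - 1)) *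
        volume (Metric.ball (0 : V) 1) := by
  have hsub : cB V a ⊆ cB V b := Metric.closedBall_subset_closedBall hab
  rw [measure_sdiff hsub Metric.isClosed_closedBall.measurableSet.nullMeasurableSet
    measure_closedBall_lt_top.ne]
  rw [Measure.addHaar_closedBall _ _ ha, Measure.addHaar_closedBall _ _ (ha.trans hab),
    ← ENNReal.sub_mul (fun _ _ => measure_ball_lt_top.ne), ← ENNReal.ofReal_sub _ (by positivity)]
  gcongr
  have h := abs_pow_sub_pow_le b a (Module.finrank ℝ V)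
  have hb : 0 ≤ b := ha.trans hab
  rw [abs_of_nonneg hb, abs_of_nonneg ha, max_eq_left hab,
    abs_of_nonneg (sub_nonneg.2 hab)] at h
  exact (le_abs_self _).trans h

theorem SS_meas (g : V → ℂ) (hgm : StronglyMeasurable g) (R : ℝ) :
    Measurable fun p : V × ℝ => SS g R p := by
  have : StronglyMeasurable fun p : V × ℝ => ∫ ξ in cB V R, g ξ * ew ξ p := by
    refine StronglyMeasurable.integral_prod_right'
      (f := fun q : (V × ℝ) × V => g q.2 * ew q.2 q.1) ?_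
    exact ((hgm.measurable.comp measurable_snd).mul
      (ew_meas.comp (measurable_snd.prodMk measurable_fst))).stronglyMeasurable
  exact this.measurable

theorem SS_local (μ : Measure ℝ) [IsFiniteMeasure μ] (y : V) (g : V → ℂ) (hg : MemLp g 2)
    {a b : ℝ} (ha : 0 ≤ a) (hab : a ≤ b) :
    ∫⁻ p, ‖SS g b p - SS g a p‖ₑ ^ 2 ∂((gw y).prod μ) ≤
      (energy μ a) ^ ((1 : ℝ) / 2) * ∫⁻ ξ in cB V b \ cB V a, ‖g ξ‖ₑ ^ 2 := by
  have hms : MeasurableSet (cB V b \ cB V a) := Metric.isClosed_closedBall.measurableSet.diff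
      Metric.isClosed_closedBall.measurableSet
  have hint : Integrable ((cB V b \ cB V a).indicator g) := by
    rw [integrable_indicator_iff hms]
    exact (intOn g hg b).mono_set Set.sdiff_subset
  have h := local_est μ y a ha _ hint (by
    intro ξ hξ
    have : ξ ∈ cB V b \ cB V a := by
      by_contra hn
      exact hξ (Set.indicator_of_notMem hn _)
    have h2 := this.2
    simp only [Metric.mem_closedBall, dist_zero_right, not_le] at h2
    exact h2.le)
  simp only [SS_diff g hg hab]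
  refine h.trans (le_of_eq ?_)
  congr 1
  rw [← lintegral_indicator hms]
  refine lintegral_congr fun ξ => ?_
  simp only [Set.indicator]
  split_ifs <;> simp

/-- subdivision of the dyadic block `[2^j, 2^(j+1)]` -/
noncomputable def rad (j P k : ℕ) : ℝ := 2 ^ j + k * (2 ^ j / 2 ^ P)

theorem rad_mono (j P : ℕ) : Monotone (rad j P) := by
  intro a b hab
  unfold rad
  have : (a : ℝ) ≤ b := by exact_mod_cast hab
  gcongr

theorem rad_pos (j P k : ℕ) : 0 < rad j P k := by unfold rad; positivity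

theorem rad_ge (j P k : ℕ) : (2 : ℝ) ^ j ≤ rad j P k := by
  unfold rad
  have : (0 : ℝ) ≤ k * (2 ^ j / 2 ^ P) := by positivity
  linarith

theorem rad_zero (j P : ℕ) : rad j P 0 = 2 ^ j := by simp [rad]

theorem rad_top (j P : ℕ) : rad j P (2 ^ P) = 2 ^ (j + 1) := by
  unfold rad
  push_cast
  field_simp
  ring

/-- number of levels -/
def lev (d j : ℕ) : ℕ := (d + 1) * (j + 1)

theorem lev_ineq (d j : ℕ) (hd : 0 < d) : j + (j + 1) * (d - 1) + (j + 1) ≤ lev d j := by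
  unfold lev
  obtain ⟨e, rfl⟩ : ∃ e, d = e + 1 := ⟨d - 1, by omega⟩
  simp only [Nat.add_sub_cancel]
  nlinarith

theorem rad_vol (j k : ℕ) (hk : k < 2 ^ lev (Module.finrank ℝ V) j) :
    volume (cB V (rad j (lev (Module.finrank ℝ V) j) (k + 1)) \
      cB V (rad j (lev (Module.finrank ℝ V) j) k)) ≤
      ENNReal.ofReal ((Module.finrank ℝ V : ℝ) / 2 ^ (j + 1)) * volume (Metric.ball (0 : V) 1) := by
  set d := Module.finrank ℝ V with hd
  set P := lev d j with hP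
  refine (vol_annulus (rad_pos _ _ _).le (rad_mono _ _ (Nat.le_succ k))).trans ?_
  gcongr
  rw [← hd]
  have h1 : rad j P (k + 1) - rad j P k = 2 ^ j / 2 ^ P := by
    unfold rad; push_cast; ring
  have h2 : rad j P (k + 1) ≤ 2 ^ (j + 1) := by
    rw [← rad_top j P]
    exact rad_mono _ _ hk
  rw [h1]
  have h3 : rad j P (k + 1) ^ (d - 1) ≤ (2 ^ (j + 1)) ^ (d - 1) :=
    pow_le_pow_left₀ (rad_pos _ _ _).le h2 _
  calc (2 : ℝ) ^ j / 2 ^ P * d * rad j P (k + 1) ^ (d - 1)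
      ≤ 2 ^ j / 2 ^ P * d * (2 ^ (j + 1)) ^ (d - 1) := by gcongr
    _ ≤ (d : ℝ) / 2 ^ (j + 1) := by
      rcases Nat.eq_zero_or_pos d with h0 | hpos
      · rw [h0]; simp
      · have h4 : (2 : ℝ) ^ j * (2 ^ (j + 1)) ^ (d - 1) * 2 ^ (j + 1) ≤ 2 ^ P := by
          rw [← pow_mul, ← pow_add, ← pow_add]
          refine pow_le_pow_right₀ (by norm_num) ?_
          rw [hP]
          exact lev_ineq d j hpos
        rw [le_div_iff₀ (by positivity)]
        have h5 : (2 : ℝ) ^ j / 2 ^ P * d * (2 ^ (j + 1)) ^ (d - 1) * 2 ^ (j + 1) =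
            d * ((2 ^ j * (2 ^ (j + 1)) ^ (d - 1) * 2 ^ (j + 1)) / 2 ^ P) := by ring
        rw [h5]
        refine mul_le_of_le_one_right (by positivity) ?_
        rw [div_le_one (by positivity)]
        exact h4

/-- measurable majorant of the maximal function over one dyadic block -/
noncomputable def W (g : V → ℂ) (j : ℕ) (p : V × ℝ) : ℝ≥0∞ :=
  2 * ((lev (Module.finrank ℝ V) j + 1 : ℕ) * ENNReal.ofReal (Q (lev (Module.finrank ℝ V) j)
    (fun k => SS g (rad j (lev (Module.finrank ℝ V) j) k) p))) +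
  2 * (ENNReal.ofReal ((Module.finrank ℝ V : ℝ) / 2 ^ (j + 1)) *
    volume (Metric.ball (0 : V) 1) * ∫⁻ ξ, ‖g ξ‖ₑ ^ 2)

theorem enorm_sub_sq_le (x y z : ℂ) :
    ‖x - z‖ₑ ^ 2 ≤ 2 * ‖y - z‖ₑ ^ 2 + 2 * ‖x - y‖ₑ ^ 2 := by
  have h1 : ‖x - z‖ ≤ ‖y - z‖ + ‖x - y‖ := by
    have := norm_add_le (y - z) (x - y)
    simpa using this
  have h2 : ‖x - z‖ ^ 2 ≤ 2 * ‖y - z‖ ^ 2 + 2 * ‖x - y‖ ^ 2 := by
    nlinarith [norm_nonneg (x - z), norm_nonneg (y - z), norm_nonneg (x - y),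
      sq_nonneg (‖y - z‖ - ‖x - y‖)]
  rw [← ofReal_norm, ← ofReal_norm, ← ofReal_norm, ← ENNReal.ofReal_pow (norm_nonneg _),
    ← ENNReal.ofReal_pow (norm_nonneg _), ← ENNReal.ofReal_pow (norm_nonneg _),
    show (2 : ℝ≥0∞) = ENNReal.ofReal 2 by simp, ← ENNReal.ofReal_mul (by norm_num),
    ← ENNReal.ofReal_mul (by norm_num), ← ENNReal.ofReal_add (by positivity) (by positivity)]
  exact ENNReal.ofReal_le_ofReal h2

theorem W_ge (g : V → ℂ) (hg : MemLp g 2) (j : ℕ) (p : V × ℝ) {R : ℝ} (h1 : 2 ^ j ≤ R)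
    (h2 : R ≤ 2 ^ (j + 1)) : ‖SS g R p - SS g (2 ^ j) p‖ₑ ^ 2 ≤ W g j p := by
  set d := Module.finrank ℝ V with hd
  set P := lev d j with hP
  -- find k
  obtain ⟨k, hk1, hk2, hk3⟩ : ∃ k : ℕ, k ≤ 2 ^ P ∧ rad j P k ≤ R ∧
      (k < 2 ^ P → R ≤ rad j P (k + 1)) := by
    set x : ℝ := (R - 2 ^ j) * 2 ^ P / 2 ^ j with hx
    have hx0 : 0 ≤ x := by
      have : 0 ≤ R - 2 ^ j := by linarith
      positivity
    have hx1 : x ≤ 2 ^ P := by
      rw [hx, div_le_iff₀ (by positivity)]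
      have : R - 2 ^ j ≤ 2 ^ j := by rw [pow_succ] at h2; linarith
      nlinarith [pow_pos (show (0 : ℝ) < 2 by norm_num) P]
    have hR : R = 2 ^ j + x * (2 ^ j / 2 ^ P) := by
      rw [hx]; field_simp; ring
    refine ⟨⌊x⌋₊, ?_, ?_, ?_⟩
    · have := Nat.floor_le hx0
      have h3 : ((⌊x⌋₊ : ℕ) : ℝ) ≤ ((2 ^ P : ℕ) : ℝ) := by push_cast; linarith
      exact_mod_cast h3
    · rw [hR]; unfold rad
      have := Nat.floor_le hx0
      gcongr
    · intro _
      have h4 := (Nat.lt_floor_add_one x).le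
      have h5 : x * (2 ^ j / 2 ^ P) ≤ ((⌊x⌋₊ : ℝ) + 1) * (2 ^ j / 2 ^ P) :=
        mul_le_mul_of_nonneg_right h4 (by positivity)
      have h6 : rad j P (⌊x⌋₊ + 1) = 2 ^ j + ((⌊x⌋₊ : ℝ) + 1) * (2 ^ j / 2 ^ P) := by
        unfold rad; push_cast; ring
      rw [h6, hR]
      have h7 : (2 : ℝ) ^ j + x * (2 ^ j / 2 ^ P) = R := hR.symm
      linarith
  have hrm := rademacher_menshov P (fun k => SS g (rad j P k) p) k hk1
  simp only [rad_zero] at hrm
  have hrem : ‖SS g R p - SS g (rad j P k) p‖ₑ ^ 2 ≤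
      ENNReal.ofReal ((d : ℝ) / 2 ^ (j + 1)) * volume (Metric.ball (0 : V) 1) *
        ∫⁻ ξ, ‖g ξ‖ₑ ^ 2 := by
    rcases lt_or_eq_of_le hk1 with hlt | heq
    · have h6 := hk3 hlt
      have h7 := SS_diff_vol g hg hk2 p
      refine h7.trans ?_
      gcongr
      refine (measure_mono ?_).trans (rad_vol (V := V) j k hlt)
      exact Set.sdiff_subset_sdiff_left (Metric.closedBall_subset_closedBall h6)
    · have h8 : R = rad j P k := by
        refine le_antisymm ?_ hk2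
        rw [heq, rad_top]; exact h2
      rw [h8, sub_self]
      simp
  have h9 := enorm_sub_sq_le (SS g R p) (SS g (rad j P k) p) (SS g (2 ^ j) p)
  refine h9.trans ?_
  unfold W
  rw [← hd, ← hP]
  gcongr
  rw [← ofReal_norm, ← ENNReal.ofReal_pow (norm_nonneg _), ← ENNReal.ofReal_natCast,
    ← ENNReal.ofReal_mul (by positivity)]
  refine ENNReal.ofReal_le_ofReal ?_
  push_cast
  exact hrm

theorem W_meas (g : V → ℂ) (hgm : StronglyMeasurable g) (j : ℕ) : Measurable (W g j) := by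
  have h1 : Measurable fun p : V × ℝ => ENNReal.ofReal (Q (lev (Module.finrank ℝ V) j)
      (fun k => SS g (rad j (lev (Module.finrank ℝ V) j) k) p)) :=
    (Q_meas _ (fun k p => SS g (rad j (lev (Module.finrank ℝ V) j) k) p)
      (fun i => SS_meas g hgm _)).ennreal_ofReal
  unfold W
  exact ((h1.const_mul _).const_mul _).add measurable_const

theorem sum_annuli (g : V → ℂ) (r : ℕ → ℝ) (hr : Monotone r)
    (a b : ℕ) (hab : a ≤ b) :
    ∫⁻ ξ in cB V (r b) \ cB V (r a), ‖g ξ‖ₑ ^ 2 =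
      ∑ i ∈ Finset.Ico a b, ∫⁻ ξ in cB V (r (i + 1)) \ cB V (r i), ‖g ξ‖ₑ ^ 2 := by
  induction b, hab using Nat.le_induction with
  | base => simp
  | succ b hb ih =>
    rw [Finset.sum_Ico_succ_top hb, ← ih]
    rw [← lintegral_union (Metric.isClosed_closedBall.measurableSet.diff
      Metric.isClosed_closedBall.measurableSet)]
    · congr 2
      ext ξ
      simp only [Set.mem_sdiff, Metric.mem_closedBall, dist_zero_right, Set.mem_union, not_le]
      have h1 := hr hb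
      have h2 := hr (Nat.le_succ b)
      simp only [Nat.succ_eq_add_one] at h2
      constructor
      · rintro ⟨h3, h4⟩
        rcases le_or_gt ‖ξ‖ (r b) with h5 | h5
        · left; exact ⟨h5, h4⟩
        · right; exact ⟨h3, h5⟩
      · rintro (⟨h3, h4⟩ | ⟨h3, h4⟩)
        · exact ⟨h3.trans h2, h4⟩
        · exact ⟨h3, lt_of_le_of_lt h1 h4⟩
    · rw [Set.disjoint_left]
      rintro ξ ⟨h3, _⟩ ⟨_, h4⟩
      exact h4 h3

theorem energy_anti (μ : Measure ℝ) {a b : ℝ} (ha : 0 ≤ a) (hab : a ≤ b) :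
    energy μ b ≤ energy μ a := by
  unfold energy
  refine lintegral_mono fun t => lintegral_mono fun t' => ENNReal.ofReal_le_ofReal ?_
  unfold damp
  refine Real.exp_le_exp.2 ?_
  have h3 : a ^ 2 ≤ b ^ 2 := pow_le_pow_left₀ ha hab 2
  have h4 : (0 : ℝ) ≤ (4 * π ^ 2 * (t - t')) ^ 2 / (π ^ 2 + (4 * π ^ 2 * (t - t')) ^ 2) := by
    positivity
  have h5 := mul_le_mul_of_nonneg_right (mul_le_mul_of_nonneg_left h3 Real.pi_pos.le) h4
  linarith

theorem W_int (μ : Measure ℝ) [IsFiniteMeasure μ] (y : V) (g : V → ℂ)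
    (hgm : StronglyMeasurable g) (hg : MemLp g 2) (j : ℕ) :
    ∫⁻ p, W g j p ∂((gw y).prod μ) ≤
      (2 * ((lev (Module.finrank ℝ V) j + 1 : ℕ) : ℝ≥0∞) ^ 2 *
        (energy μ (2 ^ j)) ^ ((1 : ℝ) / 2) +
      2 * (ENNReal.ofReal ((Module.finrank ℝ V : ℝ) / 2 ^ (j + 1)) *
        volume (Metric.ball (0 : V) 1) * μ Set.univ)) * ∫⁻ ξ, ‖g ξ‖ₑ ^ 2 := by
  set d := Module.finrank ℝ V with hd
  set P := lev d j with hP
  have hQm := Q_meas P (fun k p => SS g (rad j P k) p) (fun i => SS_meas g hgm _)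
  have hQ := Q_integral ((gw y).prod μ) ((energy μ (2 ^ j)) ^ ((1 : ℝ) / 2)) P
    (fun k p => SS g (rad j P k) p)
    (fun i => ∫⁻ ξ in cB V (rad j P (i + 1)) \ cB V (rad j P i), ‖g ξ‖ₑ ^ 2)
    (fun i => SS_meas g hgm _) (by
      intro a b hab
      rw [← sum_annuli g (rad j P) (rad_mono j P) a b hab]
      refine (SS_local μ y g hg (rad_pos j P a).le (rad_mono j P hab)).trans ?_
      gcongr
      exact energy_anti μ (by positivity) (rad_ge j P a))
  rw [← Nat.Ico_zero_eq_range,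
    ← sum_annuli g (rad j P) (rad_mono j P) 0 (2 ^ P) (by positivity)] at hQ
  have hle : ∫⁻ ξ in cB V (rad j P (2 ^ P)) \ cB V (rad j P 0), ‖g ξ‖ₑ ^ 2 ≤
      ∫⁻ ξ, ‖g ξ‖ₑ ^ 2 := lintegral_mono' Measure.restrict_le_self le_rfl
  unfold W
  rw [← hd, ← hP]
  rw [lintegral_add_right _ measurable_const, lintegral_const_mul _ (hQm.ennreal_ofReal.const_mul _),
    lintegral_const_mul _ hQm.ennreal_ofReal, lintegral_const, add_mul]
  refine add_le_add ?_ (le_of_eq ?_)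
  · calc 2 * (((P + 1 : ℕ) : ℝ≥0∞) * ∫⁻ p, ENNReal.ofReal (Q P fun k => SS g (rad j P k) p)
          ∂((gw y).prod μ))
        ≤ 2 * (((P + 1 : ℕ) : ℝ≥0∞) * ((energy μ (2 ^ j)) ^ ((1 : ℝ) / 2) * (P + 1) *
          ∫⁻ ξ, ‖g ξ‖ₑ ^ 2)) := by
          gcongr
          exact hQ.trans (by gcongr)
      _ = _ := by push_cast; ring
  · have : ((gw y).prod μ) Set.univ = μ Set.univ := by
      rw [← Set.univ_prod_univ, Measure.prod_prod, gw_univ, one_mul]
    rw [this]
    ring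

end Q89.MS
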