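import Pool.Agent.Q89.MS.A5

/-! Energies of measures in time. -/

open MeasureTheory ComplexConjugate Complex
open scoped ENNReal Real InnerProductSpace

namespace Q89.MS

/-- an absolute constant -/
noncomputable def C0 : ℝ≥0∞ := ∑' m : ℕ, ENNReal.ofReal (Real.exp (-(m : ℝ) ^ 2) * (m + 1))

theorem C0_ne_top : C0 ≠ ⊤ := by
  unfold C0
  have h1 : Summable fun m : ℕ => Real.exp (-(m : ℝ) ^ 2) * (m + 1) := by
    have h2 : Summable fun m : ℕ => ((m : ℝ) ^ 1 * Real.exp (-1 * m) + Real.exp (-1 * m)) := by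
      refine (Real.summable_pow_mul_exp_neg_nat_mul 1 one_pos).add ?_
      simpa using Real.summable_pow_mul_exp_neg_nat_mul 0 one_pos
    refine Summable.of_nonneg_of_le (fun m => by positivity) (fun m => ?_) h2
    have h3 : Real.exp (-(m : ℝ) ^ 2) ≤ Real.exp (-1 * m) := by
      refine Real.exp_le_exp.2 ?_
      rcases Nat.eq_zero_or_pos m with h0 | hpos
      · subst h0; simp
      · have : (1 : ℝ) ≤ m := by exact_mod_cast hpos
        nlinarith
    have h4 : (0 : ℝ) ≤ (m : ℝ) + 1 := by positivity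
    nlinarith [mul_le_mul_of_nonneg_right h3 h4]
  exact h1.tsum_ofReal_ne_top

theorem damp_le {ρ u : ℝ} (hu : |u| ≤ 1) : damp ρ u ≤ Real.exp (-(ρ * u) ^ 2) := by
  unfold damp
  refine Real.exp_le_exp.2 ?_
  have hπ : (3 : ℝ) < π := Real.pi_gt_three
  have hu2 : u ^ 2 ≤ 1 := by
    rw [← sq_abs]; nlinarith [abs_nonneg u]
  have h1 : (4 * π ^ 2 * u) ^ 2 / (π ^ 2 + (4 * π ^ 2 * u) ^ 2) =
      16 * π ^ 2 * u ^ 2 / (1 + 16 * π ^ 2 * u ^ 2) := by
    have hp : π ^ 2 ≠ 0 := by positivity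
    rw [div_eq_div_iff (by positivity) (by positivity)]
    ring
  rw [h1]
  have h2 : u ^ 2 ≤ π * (16 * π ^ 2 * u ^ 2 / (1 + 16 * π ^ 2 * u ^ 2)) := by
    rw [mul_div_assoc', le_div_iff₀ (by positivity)]
    have h3 : u ^ 2 * (16 * π ^ 2 * u ^ 2) ≤ u ^ 2 * (16 * π ^ 2) := by
      have : 16 * π ^ 2 * u ^ 2 ≤ 16 * π ^ 2 * 1 := by gcongr
      nlinarith [sq_nonneg u]
    have h4 : (1 : ℝ) + 16 * π ^ 2 ≤ π * (16 * π ^ 2) := by nlinarith [sq_nonneg π]
    nlinarith [sq_nonneg u, mul_le_mul_of_nonneg_left h4 (sq_nonneg u)]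
  have h5 : ρ ^ 2 * u ^ 2 ≤ ρ ^ 2 * (π * (16 * π ^ 2 * u ^ 2 / (1 + 16 * π ^ 2 * u ^ 2))) := by
    gcongr
  calc -π * ρ ^ 2 * (16 * π ^ 2 * u ^ 2 / (1 + 16 * π ^ 2 * u ^ 2))
      = -(ρ ^ 2 * (π * (16 * π ^ 2 * u ^ 2 / (1 + 16 * π ^ 2 * u ^ 2)))) := by ring
    _ ≤ -(ρ ^ 2 * u ^ 2) := neg_le_neg h5
    _ = _ := by ring

theorem gauss_le (ρ : ℝ) (hρ : 0 < ρ) (t t' : ℝ) :
    ENNReal.ofReal (Real.exp (-(ρ * (t - t')) ^ 2)) ≤
      ∑' m : ℕ, ENNReal.ofReal (Real.exp (-(m : ℝ) ^ 2)) *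
        (Metric.closedBall t ((m + 1) / ρ)).indicator (fun _ => (1 : ℝ≥0∞)) t' := by
  have h0 : 0 ≤ ρ * |t - t'| := by positivity
  set m := ⌊ρ * |t - t'|⌋₊ with hm
  have h1 := Nat.floor_le h0
  have h2 := (Nat.lt_floor_add_one (ρ * |t - t'|)).le
  refine le_trans ?_ (ENNReal.le_tsum m)
  have h3 : t' ∈ Metric.closedBall t ((m + 1) / ρ) := by
    rw [Metric.mem_closedBall, Real.dist_eq, abs_sub_comm, le_div_iff₀ hρ]
    linarith
  rw [Set.indicator_of_mem h3, mul_one]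
  refine ENNReal.ofReal_le_ofReal (Real.exp_le_exp.2 ?_)
  have h4 : (m : ℝ) ^ 2 ≤ (ρ * |t - t'|) ^ 2 := pow_le_pow_left₀ (by positivity) h1 2
  have h5 : (ρ * |t - t'|) ^ 2 = (ρ * (t - t')) ^ 2 := by
    rw [mul_pow, mul_pow, sq_abs]
  rw [h5] at h4
  linarith

theorem energy_le (μ : Measure ℝ) (a : ℝ) (hμ : ∀ᵐ t ∂μ, t ∈ Set.Icc a (a + 1)) (ρ : ℝ)
    (hρ : 0 < ρ) (B : ℝ≥0∞)
    (hB : ∀ t : ℝ, ∀ m : ℕ, μ (Metric.closedBall t ((m + 1) / ρ)) ≤ B * (m + 1)) :
    energy μ ρ ≤ B * C0 * μ Set.univ := by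
  unfold energy
  have h1 : ∀ᵐ t ∂μ, ∫⁻ t', ENNReal.ofReal (damp ρ (t - t')) ∂μ ≤ B * C0 := by
    filter_upwards [hμ] with t ht
    calc ∫⁻ t', ENNReal.ofReal (damp ρ (t - t')) ∂μ
        ≤ ∫⁻ t', ∑' m : ℕ, ENNReal.ofReal (Real.exp (-(m : ℝ) ^ 2)) *
          (Metric.closedBall t ((m + 1) / ρ)).indicator (fun _ => (1 : ℝ≥0∞)) t' ∂μ := by
          refine lintegral_mono_ae ?_
          filter_upwards [hμ] with t' ht'
          refine le_trans (ENNReal.ofReal_le_ofReal (damp_le ?_)) (gauss_le ρ hρ t t')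
          rw [abs_le]
          constructor <;> linarith [ht.1, ht.2, ht'.1, ht'.2]
      _ = ∑' m : ℕ, ENNReal.ofReal (Real.exp (-(m : ℝ) ^ 2)) *
          μ (Metric.closedBall t ((m + 1) / ρ)) := by
          rw [lintegral_tsum]
          · refine tsum_congr fun m => ?_
            have hms : MeasurableSet (Metric.closedBall t (((m : ℝ) + 1) / ρ)) :=
              Metric.isClosed_closedBall.measurableSet
            rw [lintegral_const_mul _ (measurable_const.indicator hms),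
              lintegral_indicator_const hms, one_mul]
          · intro m
            exact ((measurable_const.indicator
              Metric.isClosed_closedBall.measurableSet).const_mul _).aemeasurable
      _ ≤ ∑' m : ℕ, ENNReal.ofReal (Real.exp (-(m : ℝ) ^ 2)) * (B * (m + 1)) := by
          gcongr with m
          exact hB t m
      _ = B * C0 := by
          unfold C0
          rw [← ENNReal.tsum_mul_left]
          refine tsum_congr fun m => ?_
          rw [ENNReal.ofReal_mul (Real.exp_pos _).le,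
            show ENNReal.ofReal ((m : ℝ) + 1) = (m : ℝ≥0∞) + 1 by
              rw [ENNReal.ofReal_add (by positivity) (by norm_num), ENNReal.ofReal_natCast,
                ENNReal.ofReal_one]]
          ring
  calc ∫⁻ t, ∫⁻ t', ENNReal.ofReal (damp ρ (t - t')) ∂μ ∂μ ≤ ∫⁻ _, B * C0 ∂μ :=
        lintegral_mono_ae h1
    _ = _ := by rw [lintegral_const]

end Q89.MS
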