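import Pool.Agent.Q89.MS.A6

/-! The maximal function over all radii, and the maximal inequality for Frostman measures. -/

open MeasureTheory ComplexConjugate Complex
open scoped ENNReal Real InnerProductSpace

namespace Q89.MS

variable {V : Type*} [NormedAddCommGroup V] [InnerProductSpace ℝ V] [FiniteDimensional ℝ V]
  [MeasurableSpace V] [BorelSpace V]

theorem chain_blocks (s : ℝ → ℂ) (θ A : ℝ) (h0 : 0 < θ) (h1 : θ < 1) (hA : 0 ≤ A)
    (h : ∀ (j : ℕ) (R : ℝ), 2 ^ j ≤ R → R ≤ 2 ^ (j + 1) → ‖s R - s (2 ^ j)‖ ≤ θ ^ j * A)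
    (J : ℕ) (R : ℝ) (hR : 2 ^ J ≤ R) : ‖s R - s (2 ^ J)‖ ≤ A * (θ ^ J / (1 - θ)) := by
  have hθ : 0 < 1 - θ := by linarith
  have key : ∀ (n : ℕ) (R : ℝ), 2 ^ (J + n) ≤ R → R ≤ 2 ^ (J + n + 1) →
      ‖s R - s (2 ^ J)‖ ≤ A * ((θ ^ J - θ ^ (J + n + 1)) / (1 - θ)) := by
    intro n
    induction n with
    | zero =>
      intro R h2 h3
      have h4 := h J R h2 h3
      refine h4.trans (le_of_eq ?_)
      rw [add_zero, pow_succ]
      field_simp
    | succ n ih =>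
      intro R h2 h3
      have h4 := h (J + n + 1) R (by simpa [add_assoc] using h2) (by simpa [add_assoc] using h3)
      have h5 := ih (2 ^ (J + n + 1)) (by
        refine pow_le_pow_right₀ (by norm_num) (by omega)) le_rfl
      have h6 : ‖s R - s (2 ^ J)‖ ≤ ‖s R - s (2 ^ (J + n + 1))‖ +
          ‖s (2 ^ (J + n + 1)) - s (2 ^ J)‖ := by
        have := norm_add_le (s R - s (2 ^ (J + n + 1))) (s (2 ^ (J + n + 1)) - s (2 ^ J))
        simpa using this
      refine (h6.trans (add_le_add h4 h5)).trans (le_of_eq ?_)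
      rw [show J + (n + 1) + 1 = (J + n + 1) + 1 by ring, pow_succ θ (J + n + 1)]
      field_simp
      ring
  obtain ⟨K, hK1, hK2⟩ := exists_nat_pow_near (x := R) (y := (2 : ℝ))
    (le_trans (one_le_pow₀ (by norm_num)) hR) (by norm_num)
  have hJK : J ≤ K := by
    by_contra hcon
    push Not at hcon
    have : (2 : ℝ) ^ (K + 1) ≤ 2 ^ J := pow_le_pow_right₀ (by norm_num) hcon
    linarith
  obtain ⟨n, rfl⟩ := Nat.exists_eq_add_of_le hJK
  refine (key n R hK1 hK2.le).trans ?_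
  gcongr
  have : 0 < θ ^ (J + n + 1) := pow_pos h0 _
  linarith

/-- the maximal function -/
noncomputable def maxS (g : V → ℂ) (p : V × ℝ) : ℝ≥0∞ := ⨆ R : ℝ, ‖SS g R p‖ₑ

/-- weighted sum of the block majorants -/
noncomputable def XX (g : V → ℂ) (θ : ℝ) (p : V × ℝ) : ℝ≥0∞ :=
  ∑' j : ℕ, ENNReal.ofReal (((θ ^ 2)⁻¹) ^ j) * W g j p

theorem block_le (g : V → ℂ) (hg : MemLp g 2) (θ : ℝ) (h0 : 0 < θ) (p : V × ℝ)
    (hX : XX g θ p ≠ ⊤) (j : ℕ) (R : ℝ) (h1 : 2 ^ j ≤ R) (h2 : R ≤ 2 ^ (j + 1)) :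
    ‖SS g R p - SS g (2 ^ j) p‖ ≤ θ ^ j * Real.sqrt (XX g θ p).toReal := by
  have h3 := W_ge g hg j p h1 h2
  have h4 : ENNReal.ofReal (((θ ^ 2)⁻¹) ^ j) * W g j p ≤ XX g θ p := by
    unfold XX
    exact ENNReal.le_tsum j
  have h5 : W g j p ≤ ENNReal.ofReal ((θ ^ 2) ^ j) * XX g θ p := by
    have h6 : ENNReal.ofReal ((θ ^ 2) ^ j) * (ENNReal.ofReal (((θ ^ 2)⁻¹) ^ j) * W g j p) =
        W g j p := by
      rw [← mul_assoc, ← ENNReal.ofReal_mul (by positivity), ← mul_pow,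
        mul_inv_cancel₀ (by positivity), one_pow, ENNReal.ofReal_one, one_mul]
    calc W g j p = ENNReal.ofReal ((θ ^ 2) ^ j) *
          (ENNReal.ofReal (((θ ^ 2)⁻¹) ^ j) * W g j p) := h6.symm
      _ ≤ _ := by gcongr
  have h7 := h3.trans h5
  have h8 : ‖SS g R p - SS g (2 ^ j) p‖ ^ 2 ≤ (θ ^ 2) ^ j * (XX g θ p).toReal := by
    rw [← ENNReal.ofReal_toReal hX, ← ENNReal.ofReal_mul (by positivity), ← ofReal_norm,
      ← ENNReal.ofReal_pow (norm_nonneg _)] at h7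
    rwa [ENNReal.ofReal_le_ofReal_iff (by positivity)] at h7
  have h9 : (θ ^ 2) ^ j * (XX g θ p).toReal = (θ ^ j * Real.sqrt (XX g θ p).toReal) ^ 2 := by
    rw [mul_pow, Real.sq_sqrt ENNReal.toReal_nonneg, ← pow_mul, ← pow_mul, mul_comm 2 j]
  rw [h9] at h8
  exact (sq_le_sq₀ (norm_nonneg _) (by positivity)).1 h8

theorem max_le (g : V → ℂ) (hg : MemLp g 2) (θ : ℝ) (h0 : 0 < θ) (h1 : θ < 1) (p : V × ℝ) :
    maxS g p ^ 2 ≤ 2 * (volume (cB V 1) * ∫⁻ ξ, ‖g ξ‖ₑ ^ 2) +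
      2 * (ENNReal.ofReal (((1 - θ)⁻¹) ^ 2) * XX g θ p) := by
  have hθ : 0 < 1 - θ := by linarith
  rcases eq_or_ne (XX g θ p) ⊤ with hX | hX
  · rw [hX, ENNReal.mul_top (by
      rw [Ne, ENNReal.ofReal_eq_zero, not_le]; positivity), ENNReal.mul_top (by norm_num)]
    simp
  have hb := block_le g hg θ h0 p hX
  have hone : ∀ R : ℝ, ‖SS g R p‖ₑ ^ 2 ≤ 2 * (volume (cB V 1) * ∫⁻ ξ, ‖g ξ‖ₑ ^ 2) +
      2 * (ENNReal.ofReal (((1 - θ)⁻¹) ^ 2) * XX g θ p) := by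
    intro R
    rcases le_or_gt R 1 with hR | hR
    · have h2 := SS_vol g hg R p
      have h3 : volume (cB V R) ≤ volume (cB V 1) :=
        measure_mono (Metric.closedBall_subset_closedBall hR)
      calc ‖SS g R p‖ₑ ^ 2 ≤ volume (cB V R) * ∫⁻ ξ, ‖g ξ‖ₑ ^ 2 := h2
        _ ≤ volume (cB V 1) * ∫⁻ ξ, ‖g ξ‖ₑ ^ 2 := by gcongr
        _ ≤ 2 * (volume (cB V 1) * ∫⁻ ξ, ‖g ξ‖ₑ ^ 2) := by
            rw [two_mul]; exact le_self_add
        _ ≤ _ := le_self_add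
    · have h2 := chain_blocks (fun R => SS g R p) θ (Real.sqrt (XX g θ p).toReal) h0 h1
        (Real.sqrt_nonneg _) hb 0 R (by simpa using hR.le)
      simp only [pow_zero] at h2
      have h3 := SS_vol g hg 1 p
      have h4 := enorm_sub_sq_le (SS g R p) (SS g 1 p) 0
      simp only [sub_zero] at h4
      refine h4.trans (add_le_add (by gcongr) ?_)
      gcongr
      rw [← ofReal_norm, ← ENNReal.ofReal_pow (norm_nonneg _)]
      calc ENNReal.ofReal (‖SS g R p - SS g 1 p‖ ^ 2)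
          ≤ ENNReal.ofReal ((Real.sqrt (XX g θ p).toReal * (1 / (1 - θ))) ^ 2) := by
            refine ENNReal.ofReal_le_ofReal ?_
            exact pow_le_pow_left₀ (norm_nonneg _) h2 2
        _ = ENNReal.ofReal (((1 - θ)⁻¹) ^ 2 * (XX g θ p).toReal) := by
            congr 1
            rw [mul_pow, Real.sq_sqrt ENNReal.toReal_nonneg, one_div]
            ring
        _ = _ := by
            rw [ENNReal.ofReal_mul (by positivity), ENNReal.ofReal_toReal hX]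
  unfold maxS
  rw [ENNReal.iSup_pow]
  exact iSup_le hone

theorem XX_meas (g : V → ℂ) (hgm : StronglyMeasurable g) (θ : ℝ) : Measurable (XX g θ) := by
  unfold XX
  exact Measurable.tsum fun j => (W_meas g hgm j).const_mul _

theorem converges (g : V → ℂ) (hg : MemLp g 2) (θ : ℝ) (h0 : 0 < θ) (h1 : θ < 1) (p : V × ℝ)
    (hX : XX g θ p ≠ ⊤) : ∃ l : ℂ, Filter.Tendsto (fun R => SS g R p) Filter.atTop (nhds l) := by
  have hθ : 0 < 1 - θ := by linarith
  have hb := block_le g hg θ h0 p hX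
  refine cauchy_map_iff_exists_tendsto.1 ?_
  rw [Metric.cauchy_iff]
  refine ⟨Filter.map_neBot, ?_⟩
  intro ε hε
  set A := Real.sqrt (XX g θ p).toReal with hA
  have hA0 : 0 ≤ A := Real.sqrt_nonneg _
  have hlim : Filter.Tendsto (fun J : ℕ => A * (θ ^ J / (1 - θ))) Filter.atTop (nhds 0) := by
    have := (tendsto_pow_atTop_nhds_zero_of_lt_one h0.le h1).div_const (1 - θ)
    simpa using this.const_mul A
  obtain ⟨J, hJ⟩ := ((hlim.eventually (gt_mem_nhds (show (0 : ℝ) < ε / 2 by linarith)))).exists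
  refine ⟨(fun R => SS g R p) '' Set.Ici (2 ^ J), Filter.image_mem_map (Filter.Ici_mem_atTop _), ?_⟩
  rintro _ ⟨R, hR, rfl⟩ _ ⟨R', hR', rfl⟩
  have h2 := chain_blocks (fun R => SS g R p) θ A h0 h1 hA0 hb J R hR
  have h3 := chain_blocks (fun R => SS g R p) θ A h0 h1 hA0 hb J R' hR'
  simp only
  calc dist (SS g R p) (SS g R' p) ≤ dist (SS g R p) (SS g (2 ^ J) p) +
        dist (SS g R' p) (SS g (2 ^ J) p) := dist_triangle_right _ _ _
    _ < ε := by rw [dist_eq_norm, dist_eq_norm]; linarith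

theorem lev_summable (d k : ℕ) {r : ℝ} (h0 : 0 ≤ r) (h1 : r < 1) :
    Summable fun j : ℕ => ((lev d j + 1 : ℕ) : ℝ) ^ k * r ^ j := by
  have h2 : Summable fun j : ℕ => (((d : ℝ) + 2) * 2) ^ k * ((j : ℝ) ^ k * r ^ j + r ^ j) := by
    refine Summable.mul_left _ (Summable.add ?_ ?_)
    · exact summable_pow_mul_geometric_of_norm_lt_one k (by
        rwa [Real.norm_of_nonneg h0])
    · exact summable_geometric_of_lt_one h0 h1
  refine Summable.of_nonneg_of_le (fun j => by positivity) (fun j => ?_) h2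
  have h3 : ((lev d j + 1 : ℕ) : ℝ) ≤ ((d : ℝ) + 2) * ((j : ℝ) + 1) := by
    have : lev d j + 1 ≤ (d + 2) * (j + 1) := by unfold lev; nlinarith
    exact_mod_cast this
  have h4 : ((j : ℝ) + 1) ^ k ≤ 2 ^ k * ((j : ℝ) ^ k + 1) := by
    rcases Nat.eq_zero_or_pos j with hj | hj
    · subst hj
      simp only [CharP.cast_eq_zero, zero_add, one_pow]
      have h5 : (1 : ℝ) ≤ 2 ^ k := one_le_pow₀ (by norm_num)
      have h6 : (0 : ℝ) ≤ (0 : ℝ) ^ k := by positivity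
      nlinarith
    · have hj' : (1 : ℝ) ≤ j := by exact_mod_cast hj
      calc ((j : ℝ) + 1) ^ k ≤ (2 * (j : ℝ)) ^ k := by gcongr; linarith
        _ = 2 ^ k * (j : ℝ) ^ k := by rw [mul_pow]
        _ ≤ _ := by
          have : (0 : ℝ) ≤ 2 ^ k := by positivity
          nlinarith
  calc ((lev d j + 1 : ℕ) : ℝ) ^ k * r ^ j
      ≤ (((d : ℝ) + 2) * ((j : ℝ) + 1)) ^ k * r ^ j := by gcongr
    _ = ((d : ℝ) + 2) ^ k * ((j : ℝ) + 1) ^ k * r ^ j := by rw [mul_pow]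
    _ ≤ ((d : ℝ) + 2) ^ k * (2 ^ k * ((j : ℝ) ^ k + 1)) * r ^ j := by gcongr
    _ = _ := by rw [mul_pow]; ring

end Q89.MS
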