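import Pool.Agent.Q89.MS.A7

/-! The maximal inequality for Frostman measures in time. -/

open MeasureTheory ComplexConjugate Complex
open scoped ENNReal Real InnerProductSpace

namespace Q89.MS

variable {V : Type*} [NormedAddCommGroup V] [InnerProductSpace ℝ V] [FiniteDimensional ℝ V]
  [MeasurableSpace V] [BorelSpace V]

/-- the constant of one block -/
noncomputable def bc (d : ℕ) (ω : ℝ≥0∞) (j : ℕ) (e M : ℝ≥0∞) : ℝ≥0∞ :=
  2 * ((lev d j + 1 : ℕ) : ℝ≥0∞) ^ 2 * e ^ ((1 : ℝ) / 2) +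
    2 * (ENNReal.ofReal ((d : ℝ) / 2 ^ (j + 1)) * ω * M)

theorem XX_int (μ : Measure ℝ) [IsFiniteMeasure μ] (y : V) (g : V → ℂ)
    (hgm : StronglyMeasurable g) (hg : MemLp g 2) (θ : ℝ) :
    ∫⁻ p, XX g θ p ∂((gw y).prod μ) ≤
      (∑' j : ℕ, ENNReal.ofReal (((θ ^ 2)⁻¹) ^ j) * bc (Module.finrank ℝ V)
        (volume (Metric.ball (0 : V) 1)) j (energy μ (2 ^ j)) (μ Set.univ)) *
        ∫⁻ ξ, ‖g ξ‖ₑ ^ 2 := by
  unfold XX
  rw [lintegral_tsum fun j => ((W_meas g hgm j).const_mul _).aemeasurable, ← ENNReal.tsum_mul_right]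
  refine ENNReal.tsum_le_tsum fun j => ?_
  rw [lintegral_const_mul _ (W_meas g hgm j), mul_assoc]
  gcongr
  exact W_int μ y g hgm hg j

theorem sum_finite (d : ℕ) (ω : ℝ≥0∞) (hω : ω ≠ ⊤) (K : ℝ≥0∞) (hK : K ≠ ⊤) (β : ℝ) (h0 : 0 < β)
    (h1 : β ≤ 1) (θ : ℝ) (hθ : θ = 2 ^ (-β / 8)) :
    (∑' j : ℕ, ENNReal.ofReal (((θ ^ 2)⁻¹) ^ j) * bc d ω j
      (ENNReal.ofReal (((2 : ℝ) ^ j) ^ (-β)) * K) 1) ≠ ⊤ := by
  lift K to NNReal using hK
  lift ω to NNReal using hω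
  have hth : (θ ^ 2)⁻¹ = (2 : ℝ) ^ (β / 4) := by
    rw [hθ, ← Real.rpow_natCast, ← Real.rpow_mul (by norm_num), ← Real.rpow_neg (by norm_num)]
    congr 1
    push_cast
    ring
  have hterm : ∀ j : ℕ, ENNReal.ofReal (((θ ^ 2)⁻¹) ^ j) * bc d ω j
      (ENNReal.ofReal (((2 : ℝ) ^ j) ^ (-β)) * K) 1 =
      ENNReal.ofReal (2 * (K : ℝ) ^ ((1 : ℝ) / 2) *
        (((lev d j + 1 : ℕ) : ℝ) ^ 2 * ((2 : ℝ) ^ (-β / 4)) ^ j) +
        (ω : ℝ) * d * ((2 : ℝ) ^ (β / 4 - 1)) ^ j) := by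
    intro j
    unfold bc
    have e1 : (ENNReal.ofReal (((2 : ℝ) ^ j) ^ (-β)) * (K : ℝ≥0∞)) ^ ((1 : ℝ) / 2) =
        ENNReal.ofReal (((2 : ℝ) ^ (-β / 2)) ^ j * (K : ℝ) ^ ((1 : ℝ) / 2)) := by
      rw [← ENNReal.ofReal_coe_nnreal, ← ENNReal.ofReal_mul (by positivity),
        ENNReal.ofReal_rpow_of_nonneg (by positivity) (by norm_num),
        Real.mul_rpow (by positivity) (by positivity)]
      congr 2
      rw [← Real.rpow_natCast, ← Real.rpow_natCast, ← Real.rpow_mul (by norm_num),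
        ← Real.rpow_mul (by norm_num), ← Real.rpow_mul (by norm_num)]
      congr 1
      ring
    rw [e1, hth]
    have e2 : (2 : ℝ≥0∞) = ENNReal.ofReal 2 := by simp
    have e3 : ((ω : ℝ≥0∞)) = ENNReal.ofReal (ω : ℝ) := by simp
    rw [e2, e3, ← ENNReal.ofReal_natCast, ← ENNReal.ofReal_pow (by positivity),
      ← ENNReal.ofReal_mul (by positivity), ← ENNReal.ofReal_mul (by positivity), mul_one,
      ← ENNReal.ofReal_mul (by positivity), ← ENNReal.ofReal_mul (by positivity),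
      ← ENNReal.ofReal_add (by positivity) (by positivity), ← ENNReal.ofReal_mul (by positivity)]
    congr 1
    have f1 : ((2 : ℝ) ^ (β / 4)) ^ j * ((2 : ℝ) ^ (-β / 2)) ^ j = ((2 : ℝ) ^ (-β / 4)) ^ j := by
      rw [← mul_pow, ← Real.rpow_add (by norm_num)]
      congr 2
      ring
    have f2 : ((2 : ℝ) ^ (β / 4)) ^ j * (2 * ((d : ℝ) / 2 ^ (j + 1))) =
        d * ((2 : ℝ) ^ (β / 4 - 1)) ^ j := by
      rw [Real.rpow_sub (by norm_num), Real.rpow_one, div_pow, pow_succ]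
      field_simp
    calc ((2 : ℝ) ^ (β / 4)) ^ j * (2 * ((lev d j + 1 : ℕ) : ℝ) ^ 2 *
          (((2 : ℝ) ^ (-β / 2)) ^ j * (K : ℝ) ^ ((1 : ℝ) / 2)) + 2 * ((d : ℝ) / 2 ^ (j + 1) * ω))
        = 2 * (K : ℝ) ^ ((1 : ℝ) / 2) * (((lev d j + 1 : ℕ) : ℝ) ^ 2 *
          (((2 : ℝ) ^ (β / 4)) ^ j * ((2 : ℝ) ^ (-β / 2)) ^ j)) +
          (((2 : ℝ) ^ (β / 4)) ^ j * (2 * ((d : ℝ) / 2 ^ (j + 1)))) * ω := by ring
      _ = _ := by rw [f1, f2]; ring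
  simp only [hterm]
  refine Summable.tsum_ofReal_ne_top ?_
  refine Summable.add (Summable.mul_left _ ?_) (Summable.mul_left _ ?_)
  · refine lev_summable d 2 (by positivity) ?_
    exact Real.rpow_lt_one_of_one_lt_of_neg (by norm_num) (by linarith)
  · refine summable_geometric_of_lt_one (by positivity) ?_
    exact Real.rpow_lt_one_of_one_lt_of_neg (by norm_num) (by linarith)

theorem bc_mono (d : ℕ) (ω : ℝ≥0∞) (j : ℕ) {e e' M M' : ℝ≥0∞} (he : e ≤ e') (hM : M ≤ M') :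
    bc d ω j e M ≤ bc d ω j e' M' := by
  unfold bc
  gcongr

theorem frostman_univ (μ : Measure ℝ) (a β : ℝ) (hβ : 0 < β)
    (hμ : ∀ᵐ t ∂μ, t ∈ Set.Icc a (a + 1))
    (hF : ∀ t r : ℝ, 0 < r → μ (Metric.closedBall t r) ≤ ENNReal.ofReal (r ^ β)) :
    μ Set.univ ≤ 1 := by
  have h1 : μ Set.univ ≤ μ (Metric.closedBall (a + 1 / 2) (1 / 2)) := by
    refine measure_mono_ae ?_
    filter_upwards [hμ] with t ht _
    show t ∈ Metric.closedBall (a + 1 / 2) (1 / 2)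
    rw [Metric.mem_closedBall, Real.dist_eq, abs_le]
    constructor <;> linarith [ht.1, ht.2]
  refine h1.trans ((hF _ _ (by norm_num)).trans ?_)
  rw [← ENNReal.ofReal_one]
  exact ENNReal.ofReal_le_ofReal (Real.rpow_le_one (by norm_num) (by norm_num) hβ.le)

theorem frostman_energy (μ : Measure ℝ) (a β : ℝ) (hβ : 0 < β) (hβ1 : β ≤ 1)
    (hμ : ∀ᵐ t ∂μ, t ∈ Set.Icc a (a + 1))
    (hF : ∀ t r : ℝ, 0 < r → μ (Metric.closedBall t r) ≤ ENNReal.ofReal (r ^ β)) (ρ : ℝ)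
    (hρ : 0 < ρ) : energy μ ρ ≤ ENNReal.ofReal (ρ ^ (-β)) * C0 := by
  have h1 := energy_le μ a hμ ρ hρ (ENNReal.ofReal (ρ ^ (-β))) (by
    intro t m
    refine (hF t _ (by positivity)).trans ?_
    have h2 : ENNReal.ofReal (ρ ^ (-β)) * ((m : ℝ≥0∞) + 1) =
        ENNReal.ofReal (ρ ^ (-β) * ((m : ℝ) + 1)) := by
      rw [ENNReal.ofReal_mul (by positivity), ENNReal.ofReal_add (by positivity) (by norm_num),
        ENNReal.ofReal_natCast, ENNReal.ofReal_one]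
    rw [h2]
    refine ENNReal.ofReal_le_ofReal ?_
    rw [Real.div_rpow (by positivity) hρ.le, Real.rpow_neg hρ.le, div_eq_inv_mul]
    gcongr
    calc ((m : ℝ) + 1) ^ β ≤ ((m : ℝ) + 1) ^ (1 : ℝ) :=
          Real.rpow_le_rpow_of_exponent_le (by linarith [(Nat.cast_nonneg m : (0 : ℝ) ≤ m)]) hβ1
      _ = _ := Real.rpow_one _)
  refine h1.trans ?_
  calc ENNReal.ofReal (ρ ^ (-β)) * C0 * μ Set.univ ≤ ENNReal.ofReal (ρ ^ (-β)) * C0 * 1 := by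
        gcongr
        exact frostman_univ μ a β hβ hμ hF
    _ = _ := mul_one _

variable (V) in
theorem maximal_frostman (β : ℝ) (hβ : 0 < β) (hβ1 : β ≤ 1) :
    ∃ C : ℝ≥0∞, C ≠ ⊤ ∧ ∀ (g : V → ℂ), StronglyMeasurable g → MemLp g 2 → ∀ (y : V) (a : ℝ)
      (μ : Measure ℝ), (∀ᵐ t ∂μ, t ∈ Set.Icc a (a + 1)) →
      (∀ t r : ℝ, 0 < r → μ (Metric.closedBall t r) ≤ ENNReal.ofReal (r ^ β)) →
      ∫⁻ p, maxS g p ^ 2 ∂((gw y).prod μ) ≤ C * ∫⁻ ξ, ‖g ξ‖ₑ ^ 2 := by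
  set θ : ℝ := 2 ^ (-β / 8) with hθ
  have hθ0 : 0 < θ := by positivity
  have hθ1 : θ < 1 := Real.rpow_lt_one_of_one_lt_of_neg (by norm_num) (by linarith)
  set S := ∑' j : ℕ, ENNReal.ofReal (((θ ^ 2)⁻¹) ^ j) * bc (Module.finrank ℝ V)
    (volume (Metric.ball (0 : V) 1)) j (ENNReal.ofReal (((2 : ℝ) ^ j) ^ (-β)) * C0) 1 with hS
  have hSf : S ≠ ⊤ := sum_finite _ _ measure_ball_lt_top.ne C0 C0_ne_top β hβ hβ1 θ hθ
  refine ⟨2 * volume (cB V 1) + 2 * (ENNReal.ofReal (((1 - θ)⁻¹) ^ 2) * S), ?_, ?_⟩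
  · refine ENNReal.add_ne_top.2 ⟨?_, ?_⟩
    · exact ENNReal.mul_ne_top (by norm_num) measure_closedBall_lt_top.ne
    · exact ENNReal.mul_ne_top (by norm_num) (ENNReal.mul_ne_top ENNReal.ofReal_ne_top hSf)
  · intro g hgm hg y a μ hμ hF
    have huniv := frostman_univ μ a β hβ hμ hF
    have : IsFiniteMeasure μ := ⟨lt_of_le_of_lt huniv ENNReal.one_lt_top⟩
    have hprod : ((gw y).prod μ) Set.univ ≤ 1 := by
      rw [← Set.univ_prod_univ, Measure.prod_prod, gw_univ, one_mul]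
      exact huniv
    have hXX : ∫⁻ p, XX g θ p ∂((gw y).prod μ) ≤ S * ∫⁻ ξ, ‖g ξ‖ₑ ^ 2 := by
      refine (XX_int μ y g hgm hg θ).trans ?_
      refine mul_le_mul_left ?_ _
      rw [hS]
      refine ENNReal.tsum_le_tsum fun j => ?_
      refine mul_le_mul_right ?_ _
      exact bc_mono _ _ _ (frostman_energy μ a β hβ hβ1 hμ hF _ (by positivity)) huniv
    calc ∫⁻ p, maxS g p ^ 2 ∂((gw y).prod μ)
        ≤ ∫⁻ p, (2 * (volume (cB V 1) * ∫⁻ ξ, ‖g ξ‖ₑ ^ 2) +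
          2 * (ENNReal.ofReal (((1 - θ)⁻¹) ^ 2) * XX g θ p)) ∂((gw y).prod μ) :=
          lintegral_mono fun p => max_le g hg θ hθ0 hθ1 p
      _ = 2 * (volume (cB V 1) * ∫⁻ ξ, ‖g ξ‖ₑ ^ 2) * ((gw y).prod μ) Set.univ +
          2 * (ENNReal.ofReal (((1 - θ)⁻¹) ^ 2) * ∫⁻ p, XX g θ p ∂((gw y).prod μ)) := by
          rw [lintegral_add_left measurable_const, lintegral_const,
            lintegral_const_mul _ ((XX_meas g hgm θ).const_mul _),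
            lintegral_const_mul _ (XX_meas g hgm θ)]
      _ ≤ 2 * (volume (cB V 1) * ∫⁻ ξ, ‖g ξ‖ₑ ^ 2) * 1 +
          2 * (ENNReal.ofReal (((1 - θ)⁻¹) ^ 2) * (S * ∫⁻ ξ, ‖g ξ‖ₑ ^ 2)) := by gcongr
      _ = _ := by ring

end Q89.MS
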