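import Pool.Agent.Q89.MS.A8

/-! Counting bad dyadic time intervals, and the dimension of the exceptional set of times. -/

open MeasureTheory ComplexConjugate Complex Filter
open scoped ENNReal Real InnerProductSpace NNReal

namespace Q89.MS

/-- the dyadic cell number `i` of level `j` after `a` -/
def cell (a : ℝ) (j i : ℕ) : Set ℝ := Set.Icc (a + i / 2 ^ j) (a + (i + 1) / 2 ^ j)

theorem cell_ediam (a : ℝ) (j i : ℕ) : Metric.ediam (cell a j i) ≤ ENNReal.ofReal ((2 ^ j)⁻¹) := by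
  unfold cell
  rw [Real.ediam_Icc]
  refine ENNReal.ofReal_le_ofReal (le_of_eq ?_)
  field_simp
  ring

theorem dim_limsup (β : ℝ≥0) (hβ : 0 < β) (a : ℝ) (I : ℕ → Finset ℕ)
    (hsum : ∑' j : ℕ, ((I j).card : ℝ≥0∞) * (ENNReal.ofReal ((2 ^ j)⁻¹)) ^ (β : ℝ) ≠ ⊤)
    (E : Set ℝ) (hE : ∀ t ∈ E, ∃ᶠ j in atTop, ∃ i ∈ I j, t ∈ cell a j i) : dimH E ≤ β := by
  refine dimH_le_of_hausdorffMeasure_ne_top ?_
  have hβ' : (0 : ℝ) < β := by exact_mod_cast hβ
  have h1 := Measure.hausdorffMeasure_le_liminf_tsum (X := ℝ) (β := ℕ) (ι := fun _ => ℕ × ℕ)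
    (β : ℝ) E (l := atTop) (fun n => ENNReal.ofReal ((2 ^ n)⁻¹)) (by
      rw [← ENNReal.ofReal_zero]
      refine ENNReal.tendsto_ofReal ?_
      have : Tendsto (fun n : ℕ => ((1 : ℝ) / 2) ^ n) atTop (nhds 0) :=
        tendsto_pow_atTop_nhds_zero_of_lt_one (by norm_num) (by norm_num)
      refine this.congr fun n => ?_
      rw [one_div, inv_pow])
    (fun n q => if q.2 ∈ I (q.1 + n) then cell a (q.1 + n) q.2 else ∅)
    (Eventually.of_forall fun n q => by
      split_ifs with hq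
      · refine (cell_ediam _ _ _).trans (ENNReal.ofReal_le_ofReal ?_)
        rw [inv_le_inv₀ (by positivity) (by positivity)]
        exact pow_le_pow_right₀ (by norm_num) (by omega)
      · simp)
    (Eventually.of_forall fun n => by
      intro t ht
      obtain ⟨j, hj, i, hi, hti⟩ := (frequently_atTop.1 (hE t ht)) n
      rw [Set.mem_iUnion]
      refine ⟨(j - n, i), ?_⟩
      have e1 : j - n + n = j := by omega
      simp only [e1, hi, if_true]
      exact hti)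
  refine ne_top_of_le_ne_top (by simp : (0 : ℝ≥0∞) ≠ ⊤) (h1.trans ?_)
  have h2 : ∀ n : ℕ, ∑' q : ℕ × ℕ, Metric.ediam (if q.2 ∈ I (q.1 + n) then
      cell a (q.1 + n) q.2 else ∅) ^ (β : ℝ) ≤
      ∑' j : ℕ, ((I (j + n)).card : ℝ≥0∞) * (ENNReal.ofReal ((2 ^ (j + n))⁻¹)) ^ (β : ℝ) := by
    intro n
    rw [ENNReal.tsum_prod']
    refine ENNReal.tsum_le_tsum fun j => ?_
    simp only
    rw [tsum_eq_sum (s := I (j + n))]
    · calc ∑ i ∈ I (j + n), Metric.ediam (if i ∈ I (j + n) then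
            cell a (j + n) i else ∅) ^ (β : ℝ)
          ≤ ∑ _i ∈ I (j + n), (ENNReal.ofReal ((2 ^ (j + n))⁻¹)) ^ (β : ℝ) := by
            refine Finset.sum_le_sum fun i hi => ?_
            rw [if_pos hi]
            exact ENNReal.rpow_le_rpow (cell_ediam _ _ _) hβ'.le
        _ = _ := by rw [Finset.sum_const, nsmul_eq_mul]
    · intro i hi
      rw [if_neg hi, Metric.ediam_empty, ENNReal.zero_rpow_of_pos hβ']
  have h3 : Tendsto (fun n => ∑' j : ℕ, ((I (j + n)).card : ℝ≥0∞) *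
      (ENNReal.ofReal ((2 ^ (j + n))⁻¹)) ^ (β : ℝ)) atTop (nhds 0) :=
    ENNReal.tendsto_sum_nat_add
      (fun j => ((I j).card : ℝ≥0∞) * (ENNReal.ofReal ((2 ^ j)⁻¹)) ^ (β : ℝ)) hsum
  refine (liminf_le_liminf (Eventually.of_forall h2)).trans ?_
  rw [h3.liminf_eq]

open Classical in
theorem card_near (a t : ℝ) (j m : ℕ) (I : Finset ℕ) (τ : ℕ → ℝ)
    (hτ : ∀ i ∈ I, τ i ∈ cell a j i) :
    (((I.filter fun i => τ i ∈ Metric.closedBall t ((m + 1) / 2 ^ j)).card : ℕ) : ℝ) ≤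
      4 * (m + 1) := by
  set x := (t - a) * 2 ^ j with hx
  have h2 : (0 : ℝ) < 2 ^ j := by positivity
  set S := I.filter fun i => τ i ∈ Metric.closedBall t ((m + 1) / 2 ^ j) with hS
  have h3 : S.map Nat.castEmbedding ⊆ Finset.Icc ⌈x - m - 2⌉ ⌊x + m + 1⌋ := by
    intro z hz
    rw [Finset.mem_map] at hz
    obtain ⟨i, hi, rfl⟩ := hz
    rw [hS, Finset.mem_filter] at hi
    obtain ⟨hiI, hib⟩ := hi
    have hc := hτ i hiI
    unfold cell at hc
    rw [Metric.mem_closedBall, Real.dist_eq, abs_le] at hib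
    have e1 : (a + i / 2 ^ j) * 2 ^ j = a * 2 ^ j + i := by field_simp
    have e2 : (a + (i + 1) / 2 ^ j) * 2 ^ j = a * 2 ^ j + (i + 1) := by field_simp
    have e3 : ((m : ℝ) + 1) / 2 ^ j * 2 ^ j = m + 1 := by field_simp
    have f1 := mul_le_mul_of_nonneg_right hc.1 h2.le
    have f2 := mul_le_mul_of_nonneg_right hc.2 h2.le
    have f3 := mul_le_mul_of_nonneg_right hib.1 h2.le
    have f4 := mul_le_mul_of_nonneg_right hib.2 h2.le
    rw [e1] at f1
    rw [e2] at f2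
    rw [neg_mul, e3] at f3
    rw [e3] at f4
    rw [Finset.mem_Icc]
    constructor
    · rw [Int.ceil_le]
      simp only [Nat.castEmbedding_apply, Int.cast_natCast]
      rw [hx]
      nlinarith
    · rw [Int.le_floor]
      simp only [Nat.castEmbedding_apply, Int.cast_natCast]
      rw [hx]
      nlinarith
  have h4 := Finset.card_le_card h3
  rw [Finset.card_map, Int.card_Icc] at h4
  have h5 : ((S.card : ℕ) : ℝ) ≤ (((⌊x + m + 1⌋ + 1 - ⌈x - m - 2⌉).toNat : ℕ) : ℝ) := by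
    exact_mod_cast h4
  refine h5.trans ?_
  have h6 : (((⌊x + m + 1⌋ + 1 - ⌈x - m - 2⌉).toNat : ℕ) : ℝ) ≤ 2 * m + 4 := by
    have h7 : ((⌊x + m + 1⌋ + 1 - ⌈x - m - 2⌉ : ℤ) : ℝ) ≤ 2 * m + 4 := by
      push_cast
      have := Int.floor_le (x + m + 1)
      have := Int.le_ceil (x - m - 2)
      linarith
    rcases le_or_gt 0 (⌊x + m + 1⌋ + 1 - ⌈x - m - 2⌉) with h8 | h8
    · have h9 : (((⌊x + m + 1⌋ + 1 - ⌈x - m - 2⌉).toNat : ℕ) : ℝ) =
          ((⌊x + m + 1⌋ + 1 - ⌈x - m - 2⌉ : ℤ) : ℝ) := by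
        have := Int.toNat_of_nonneg h8
        exact_mod_cast congrArg (fun z : ℤ => (z : ℝ)) this
      rw [h9]; exact h7
    · rw [Int.toNat_of_nonpos h8.le]
      simp only [CharP.cast_eq_zero]
      positivity
  have : (0 : ℝ) ≤ m := Nat.cast_nonneg m
  linarith

end Q89.MS
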